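import Pool.Agent.Lib.C8da183.Defs

/-!
# Basic facts on types
-/

namespace Pool.Agent.Lib.C8da183

variable {V : Type*} [AddCommGroup V] [Module ℚ V]

section TypeLE

variable {A B G : AddSubgroup V} {x y z a b : V}

theorem nsmul_eq (n : ℕ) (v : V) : n • v = (n : ℚ) • v := (Nat.cast_smul_eq_nsmul ℚ n v).symm

theorem typeLE_iff : TypeLE A a B b ↔ ∃ n : ℕ, 0 < n ∧ ∀ q : ℚ, q • a ∈ A → (q * n) • b ∈ B := by
  unfold TypeLE
  simp only [nsmul_eq, smul_smul]

theorem TypeLE.refl (A : AddSubgroup V) (a : V) : TypeLE A a A a :=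
  ⟨1, one_pos, fun q hq => by simpa using hq⟩

theorem TypeLE.trans {C : AddSubgroup V} {c : V} (h1 : TypeLE A a B b) (h2 : TypeLE B b C c) :
    TypeLE A a C c := by
  rw [typeLE_iff] at *
  obtain ⟨n, hn, h1⟩ := h1
  obtain ⟨m, hm, h2⟩ := h2
  refine ⟨n * m, Nat.mul_pos hn hm, fun q hq => ?_⟩
  have := h2 _ (h1 q hq)
  rw [Nat.cast_mul, ← mul_assoc]
  exact this

/-- Rational multiples of the right element. -/
theorem TypeLE.smul_right (h : TypeLE A a B b) (c : ℚ) : TypeLE A a B (c • b) := by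
  rw [typeLE_iff] at *
  obtain ⟨n, hn, h⟩ := h
  refine ⟨n * c.den, Nat.mul_pos hn c.den_pos, fun q hq => ?_⟩
  have h2 := B.zsmul_mem (h q hq) c.num
  rw [← Int.cast_smul_eq_zsmul ℚ, smul_smul] at h2
  rw [smul_smul]
  have : (q * ((n * c.den : ℕ) : ℚ) * c) = (c.num : ℚ) * (q * n) := by
    have hc : (c.den : ℚ) * c = c.num := by
      rw [mul_comm]; exact Rat.mul_den_eq_num c
    push_cast
    calc q * (n * c.den) * c = q * n * (c.den * c) := by ring
      _ = _ := by rw [hc]; ring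
  rw [this]
  exact h2

theorem TypeLE.smul_left (h : TypeLE A a B b) {c : ℚ} (hc : c ≠ 0) : TypeLE A (c • a) B b := by
  have h0 : TypeLE A (c • a) B (c • b) := by
    rw [typeLE_iff] at *
    obtain ⟨n, hn, h⟩ := h
    refine ⟨n, hn, fun q hq => ?_⟩
    rw [smul_smul] at hq
    have := h _ hq
    rw [smul_smul]
    convert this using 2
    ring
  have := h0.smul_right c⁻¹
  rwa [smul_smul, inv_mul_cancel₀ hc, one_smul] at this

theorem TypeLE.zero_right : TypeLE A a B 0 := ⟨1, one_pos, fun q _ => by simp [B.zero_mem]⟩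

/-- Enlarging the group on the right. -/
theorem TypeLE.mono_right {B' : AddSubgroup V} (h : TypeLE A a B b) (hB : B ≤ B') :
    TypeLE A a B' b := by
  obtain ⟨n, hn, h⟩ := h
  exact ⟨n, hn, fun q hq => hB (h q hq)⟩

theorem mem_up : y ∈ up G x ↔ y ∈ G ∧ TypeLE G x G y := Iff.rfl

theorem up_le : up G x ≤ G := fun _ h => h.1

theorem self_mem_up (hx : x ∈ G) : x ∈ up G x := ⟨hx, TypeLE.refl G x⟩

theorem sharp_le : sharp G x ≤ G := inf_le_left

/-- `up` is antitone. -/
theorem up_anti (h : TypeLE G x G y) : up G y ≤ up G x := fun _ hz => ⟨hz.1, h.trans hz.2⟩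

theorem mem_up_of_smul (hy : y ∈ G) {c : ℚ} (hc : c ≠ 0) (h : c • y ∈ up G x) : y ∈ up G x := by
  refine ⟨hy, ?_⟩
  have := h.2.smul_right c⁻¹
  rwa [smul_smul, inv_mul_cancel₀ hc, one_smul] at this

theorem mem_sharp_of_smul (hy : y ∈ G) {c : ℚ} (hc : c ≠ 0) (h : c • y ∈ sharp G x) :
    y ∈ sharp G x := by
  refine ⟨hy, ?_⟩
  have h2 : c • y ∈ Submodule.span ℚ {z | z ∈ G ∧ TypeLE G x G z ∧ ¬ TypeLE G z G x} := h.2
  have := Submodule.smul_mem _ c⁻¹ h2
  rwa [smul_smul, inv_mul_cancel₀ hc, one_smul] at this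

theorem sharp_le_up : sharp G x ≤ up G x := by
  rintro y ⟨hy, h⟩
  change y ∈ Submodule.span ℚ _ at h
  refine ⟨hy, ?_⟩
  clear hy
  induction h using Submodule.span_induction with
  | mem z hz => exact hz.2.1
  | zero => exact TypeLE.zero_right
  | add u v _ _ hu hv =>
    obtain ⟨n, hn, h1⟩ := hu
    obtain ⟨m, hm, h2⟩ := hv
    refine ⟨n * m, Nat.mul_pos hn hm, fun q hq => ?_⟩
    have e1 : q • ((n * m) • (u + v)) = m • (q • (n • u)) + n • (q • (m • v)) := by
      simp only [smul_add, mul_smul]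
      congr 1
      · rw [smul_comm n m u, smul_comm q m]
      · rw [smul_comm q n]
    rw [e1]
    exact G.add_mem (G.nsmul_mem (h1 q hq) m) (G.nsmul_mem (h2 q hq) n)
  | smul c u _ hu => exact hu.smul_right c

theorem up_eq_of_equiv (h1 : TypeLE G x G y) (h2 : TypeLE G y G x) : up G x = up G y :=
  le_antisymm (up_anti h2) (up_anti h1)

theorem sharp_eq_of_equiv (h1 : TypeLE G x G y) (h2 : TypeLE G y G x) :
    sharp G x = sharp G y := by
  have : {z | z ∈ G ∧ TypeLE G x G z ∧ ¬ TypeLE G z G x} =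
      {z | z ∈ G ∧ TypeLE G y G z ∧ ¬ TypeLE G z G y} := by
    ext z
    constructor
    · rintro ⟨a, b, c⟩
      exact ⟨a, h2.trans b, fun h => c (h.trans h2)⟩
    · rintro ⟨a, b, c⟩
      exact ⟨a, h1.trans b, fun h => c (h.trans h1)⟩
  unfold sharp
  rw [this]

end TypeLE

omit [Module ℚ V] in
/-- If `m g ∈ H` for all `g`, with `H ≤ G` of finite index. -/
theorem exists_nsmul_mem {G H : AddSubgroup V} (h : H.relIndex G ≠ 0) :
    0 < H.relIndex G ∧ ∀ g ∈ G, (H.relIndex G) • g ∈ H := by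
  refine ⟨Nat.pos_of_ne_zero h, fun g hg => ?_⟩
  have h1 : (H.addSubgroupOf G).index ≠ 0 := h
  have h2 := AddSubgroup.nsmul_index_mem (H.addSubgroupOf G) (⟨g, hg⟩ : G)
  rw [AddSubgroup.mem_addSubgroupOf] at h2
  exact h2

/-- A reference completely decomposable subgroup `C` of `G`, with its coordinates. -/
structure Ref (G C : AddSubgroup V) {J : Type*} [Fintype J] [DecidableEq J] (b : J → V)
    (f : J → V →ₗ[ℚ] ℚ) : Prop where
  dual : ∀ j k, f j (b k) = if j = k then 1 else 0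
  expand : ∀ g ∈ G, g = ∑ j, f j g • b j
  le : C ≤ G
  mem : ∀ j, b j ∈ C
  coord : ∀ c ∈ C, ∀ j, f j c • b j ∈ C
  fin : C.relIndex G ≠ 0

namespace Ref

variable {G C : AddSubgroup V} {J : Type*} [Fintype J] [DecidableEq J] {b : J → V}
  {f : J → V →ₗ[ℚ] ℚ}

theorem b_ne_zero (R : Ref G C b f) (j : J) : b j ≠ 0 := by
  intro h
  have := R.dual j j
  rw [h] at this
  simp at this

theorem ext' (R : Ref G C b f) {g h : V} (hg : g ∈ G) (hh : h ∈ G) (H : ∀ j, f j g = f j h) :
    g = h := by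
  rw [R.expand g hg, R.expand h hh]
  simp [H]

theorem f_sum (R : Ref G C b f) (q : J → ℚ) (j : J) : f j (∑ k, q k • b k) = q j := by
  rw [map_sum]
  simp [R.dual]

theorem bG (R : Ref G C b f) (j : J) : b j ∈ G := R.le (R.mem j)

/-- A multiple of each coordinate of an element of `G` lies in `C`. -/
theorem exists_m (R : Ref G C b f) : ∃ m : ℕ, 0 < m ∧ (∀ g ∈ G, m • g ∈ C) ∧
    ∀ g ∈ G, ∀ j, (m * f j g) • b j ∈ C := by
  obtain ⟨h1, h2⟩ := exists_nsmul_mem R.fin
  refine ⟨_, h1, h2, fun g hg j => ?_⟩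
  have := R.coord _ (h2 g hg) j
  rwa [map_nsmul, nsmul_eq_mul] at this

theorem typeLE_b (R : Ref G C b f) {y : V} (_hy : y ∈ G) {j : J} (hj : f j y ≠ 0) :
    TypeLE G y G (b j) := by
  obtain ⟨m, hm, h1, h2⟩ := R.exists_m
  have h3 : TypeLE G y G (f j y • b j) := by
    rw [typeLE_iff]
    refine ⟨m, hm, fun q hq => ?_⟩
    have := h2 _ hq j
    rw [map_smul, smul_eq_mul] at this
    rw [smul_smul]
    convert R.le this using 2
    ring
  have := h3.smul_right (f j y)⁻¹
  rwa [smul_smul, inv_mul_cancel₀ hj, one_smul] at this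

/-- Elements of the up-closed set `P` generate exactly the elements with support in `P`. -/
theorem mem_span_iff (R : Ref G C b f) {P : V → Prop}
    (hP : ∀ y ∈ G, ∀ z ∈ G, P y → TypeLE G y G z → P z) {y : V} (hy : y ∈ G) :
    y ∈ Submodule.span ℚ {z | z ∈ G ∧ P z} ↔ ∀ j, f j y ≠ 0 → P (b j) := by
  constructor
  · intro h
    clear hy
    induction h using Submodule.span_induction with
    | mem z hz =>
      intro j hj
      exact hP z hz.1 _ (R.bG j) hz.2 (R.typeLE_b hz.1 hj)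
    | zero => intro j hj; simp at hj
    | add u v _ _ hu hv =>
      intro j hj
      by_cases h1 : f j u = 0
      · apply hv j
        intro h2
        apply hj
        rw [map_add, h1, h2, add_zero]
      · exact hu j h1
    | smul c u _ hu =>
      intro j hj
      apply hu j
      intro h
      apply hj
      rw [map_smul, h, smul_zero]
  · intro h
    rw [R.expand y hy]
    refine Submodule.sum_mem _ fun j _ => ?_
    by_cases h1 : f j y = 0
    · rw [h1, zero_smul]; exact Submodule.zero_mem _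
    · exact Submodule.smul_mem _ _ (Submodule.subset_span ⟨R.bG j, h j h1⟩)

theorem mem_up_iff (R : Ref G C b f) {x y : V} (hy : y ∈ G) :
    y ∈ up G x ↔ ∀ j, f j y ≠ 0 → TypeLE G x G (b j) := by
  constructor
  · intro h j hj
    exact h.2.trans (R.typeLE_b hy hj)
  · intro h
    refine ⟨hy, ?_⟩
    obtain ⟨m, hm, h1, h2⟩ := R.exists_m
    have h3 : (m : ℚ) • y ∈ up G x := by
      have : (m : ℚ) • y = ∑ j, (m * f j y) • b j := by
        conv_lhs => rw [R.expand y hy]
        rw [Finset.smul_sum]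
        simp [smul_smul]
      rw [this]
      refine AddSubgroup.sum_mem _ fun j _ => ?_
      by_cases h4 : f j y = 0
      · rw [h4, mul_zero, zero_smul]; exact AddSubgroup.zero_mem _
      · exact ⟨R.le (h2 y hy j), (h j h4).smul_right _⟩
    exact (mem_up_of_smul hy (by exact_mod_cast hm.ne') h3).2

theorem mem_sharp_iff (R : Ref G C b f) {x y : V} (hy : y ∈ G) :
    y ∈ sharp G x ↔ ∀ j, f j y ≠ 0 → TypeLE G x G (b j) ∧ ¬ TypeLE G (b j) G x := by
  have := R.mem_span_iff (P := fun z => TypeLE G x G z ∧ ¬ TypeLE G z G x)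
    (fun y _ z _ h1 h2 => ⟨h1.1.trans h2, fun h3 => h1.2 (h2.trans h3)⟩) hy
  rw [← this]
  constructor
  · intro h; exact h.2
  · intro h; exact ⟨hy, h⟩

end Ref

end Pool.Agent.Lib.C8da183
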