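import Mathlib

/-!
# The `p`-part of an index
-/

namespace Pool.Agent.Lib.C8da183

theorem card_ker_nsmul {Q : Type*} [AddCommGroup Q] [Finite Q] {p e n' : ℕ} (hp : p.Prime)
    (cop : n'.Coprime p) (hQ : Nat.card Q ∣ p ^ e * n') :
    Nat.card (nsmulAddMonoidHom (α := Q) (p ^ e)).ker = p ^ (Nat.card Q).factorization p := by
  set μ := nsmulAddMonoidHom (α := Q) (p ^ e) with hμ
  have h1 : Nat.card μ.ker * Nat.card μ.range = Nat.card Q := by
    rw [← AddSubgroup.index_ker, AddSubgroup.card_mul_index]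
  have hK0 : Nat.card μ.ker ≠ 0 := Nat.card_pos.ne'
  have hI0 : Nat.card μ.range ≠ 0 := Nat.card_pos.ne'
  have hpfact : Fact p.Prime := ⟨hp⟩
  -- the kernel is a `p`-group
  have hK : ∀ {d : ℕ}, Nat.Prime d → d ∣ Nat.card μ.ker → d = p := by
    intro d hd hdvd
    have : Fact d.Prime := ⟨hd⟩
    have := Fintype.ofFinite μ.ker
    rw [Nat.card_eq_fintype_card] at hdvd
    obtain ⟨x, hx⟩ := exists_prime_addOrderOf_dvd_card d hdvd
    have h2 : p ^ e • x = 0 := Subtype.ext x.2
    have h3 := addOrderOf_dvd_of_nsmul_eq_zero h2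
    rw [hx] at h3
    exact (Nat.prime_dvd_prime_iff_eq hd hp).mp (hd.dvd_of_dvd_pow h3)
  obtain ⟨t, ht⟩ : ∃ t, Nat.card μ.ker = p ^ t :=
    ⟨_, Nat.eq_prime_pow_of_unique_prime_dvd hK0 hK⟩
  -- `p` does not divide the order of the range
  have hI : ¬ p ∣ Nat.card μ.range := by
    intro hdvd
    have := Fintype.ofFinite μ.range
    rw [Nat.card_eq_fintype_card] at hdvd
    obtain ⟨⟨y, x, hxy⟩, hy⟩ := exists_prime_addOrderOf_dvd_card p hdvd
    have hxy' : p ^ e • x = y := hxy
    have hy' : addOrderOf y = p := by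
      rw [← hy]
      exact (AddSubgroup.addOrderOf_mk y _).symm
    have h2 : addOrderOf x ∣ p ^ (e + 1) := by
      apply addOrderOf_dvd_of_nsmul_eq_zero
      rw [pow_succ, mul_comm, mul_smul, hxy', ← hy']
      exact addOrderOf_nsmul_eq_zero y
    obtain ⟨k, hk, hk2⟩ := (Nat.dvd_prime_pow hp).mp h2
    have hk3 : k = e + 1 := by
      by_contra hne
      have : addOrderOf x ∣ p ^ e := by
        rw [hk2]; exact pow_dvd_pow p (by omega)
      have h3 : p ^ e • x = 0 := addOrderOf_dvd_iff_nsmul_eq_zero.mp this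
      rw [hxy'] at h3
      rw [h3, addOrderOf_zero] at hy'
      exact hp.one_lt.ne hy'
    rw [hk3] at hk2
    have h4 : p ^ (e + 1) ∣ p ^ e * n' := by
      rw [← hk2]
      exact (addOrderOf_dvd_natCard x).trans hQ
    rw [pow_succ] at h4
    have h5 : p ∣ n' := Nat.dvd_of_mul_dvd_mul_left (pow_pos hp.pos e) h4
    have h6 := Nat.dvd_gcd h5 dvd_rfl
    rw [cop.gcd_eq_one] at h6
    exact hp.one_lt.ne' (Nat.dvd_one.mp h6)
  rw [← h1, Nat.factorization_mul hK0 hI0, Finsupp.add_apply,
    Nat.factorization_eq_zero_of_not_dvd hI, add_zero, ht, hp.factorization_pow,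
    Finsupp.single_eq_same]

theorem index_range_nsmul {Q : Type*} [AddCommGroup Q] [Finite Q] (m : ℕ) :
    (nsmulAddMonoidHom (α := Q) m).range.index = Nat.card (nsmulAddMonoidHom (α := Q) m).ker := by
  set μ := nsmulAddMonoidHom (α := Q) m with hμ
  have h1 : Nat.card μ.ker * Nat.card μ.range = Nat.card Q := by
    rw [← AddSubgroup.index_ker, AddSubgroup.card_mul_index]
  have h2 : Nat.card μ.range * μ.range.index = Nat.card Q := AddSubgroup.card_mul_index _
  have h3 : 0 < Nat.card μ.range := Nat.card_pos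
  have h4 : Nat.card μ.range * μ.range.index = Nat.card μ.range * Nat.card μ.ker := by
    rw [h2, ← h1, mul_comm]
  exact Nat.eq_of_mul_eq_mul_left h3 h4

/-- The index of `L + p ^ e A` is the `p`-part of the index of `L`. -/
theorem index_sup_range {A : Type*} [AddCommGroup A] (L : AddSubgroup A) {p e n' : ℕ}
    (hp : p.Prime) (cop : n'.Coprime p) (hL0 : L.index ≠ 0) (hL : L.index ∣ p ^ e * n') :
    (L ⊔ (nsmulAddMonoidHom (α := A) (p ^ e)).range).index = p ^ (L.index.factorization p) := by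
  have hfin : Finite (A ⧸ L) := Nat.finite_of_card_ne_zero hL0
  have h1 : L ⊔ (nsmulAddMonoidHom (α := A) (p ^ e)).range =
      (nsmulAddMonoidHom (α := A ⧸ L) (p ^ e)).range.comap (QuotientAddGroup.mk' L) := by
    apply le_antisymm
    · refine sup_le ?_ ?_
      · intro x hx
        rw [AddSubgroup.mem_comap]
        have : QuotientAddGroup.mk' L x = 0 := by
          rw [QuotientAddGroup.mk'_apply, QuotientAddGroup.eq_zero_iff]; exact hx
        rw [this]; exact AddSubgroup.zero_mem _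
      · rintro _ ⟨x, rfl⟩
        exact ⟨QuotientAddGroup.mk' L x, (map_nsmul _ _ _).symm⟩
    · rintro x ⟨y, hy⟩
      obtain ⟨y, rfl⟩ := QuotientAddGroup.mk'_surjective L y
      have h2 : QuotientAddGroup.mk' L (p ^ e • y) = QuotientAddGroup.mk' L x := by
        rw [map_nsmul]; exact hy
      rw [QuotientAddGroup.mk'_apply, QuotientAddGroup.mk'_apply, QuotientAddGroup.eq] at h2
      rw [AddSubgroup.mem_sup]
      exact ⟨-(p ^ e • y) + x, h2, p ^ e • y, ⟨y, rfl⟩, by abel⟩
  rw [h1, AddSubgroup.index_comap_of_surjective _ (QuotientAddGroup.mk'_surjective L),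
    index_range_nsmul]
  exact card_ker_nsmul hp cop hL

end Pool.Agent.Lib.C8da183
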