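import Mathlib

/-!
# Homomorphisms into finite groups from `p`-integral rational functions
-/

namespace Pool.Agent.Lib.C8da183

variable {p : ℕ} [Fact p.Prime]

/-- `q` is a `p`-integral rational number. -/
def PI (p : ℕ) [Fact p.Prime] (q : ℚ) : Prop := ‖(q : ℚ_[p])‖ ≤ 1

theorem PI.add {q r : ℚ} (hq : PI p q) (hr : PI p r) : PI p (q + r) := by
  unfold PI at *
  rw [Rat.cast_add]
  exact (Padic.nonarchimedean _ _).trans (max_le hq hr)

theorem PI.neg {q : ℚ} (hq : PI p q) : PI p (-q) := by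
  unfold PI at *
  rw [Rat.cast_neg, norm_neg]; exact hq

theorem PI.sub {q r : ℚ} (hq : PI p q) (hr : PI p r) : PI p (q - r) := by
  rw [sub_eq_add_neg]; exact hq.add hr.neg

theorem PI.mul {q r : ℚ} (hq : PI p q) (hr : PI p r) : PI p (q * r) := by
  unfold PI at *
  rw [Rat.cast_mul, norm_mul]
  exact mul_le_one₀ hq (norm_nonneg _) hr

theorem PI.int (k : ℤ) : PI p (k : ℚ) := by
  unfold PI
  rw [Rat.cast_intCast]
  exact Padic.norm_int_le_one k

theorem PI.nat (k : ℕ) : PI p (k : ℚ) := by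
  have := PI.int (p := p) (k : ℤ)
  rwa [Int.cast_natCast] at this

theorem PI.of_den {q : ℚ} (h : ¬ p ∣ q.den) : PI p q := Padic.norm_rat_le_one h

theorem exists_hom {G X : Type*} [AddCommGroup G] [AddCommGroup X] {N : ℕ} (h : G →+ ℚ)
    (hint : ∀ g, PI p (h g)) {w : X} (hw : p ^ N • w = 0) :
    ∃ ψ : G →+ X, (∀ g, ψ g ∈ AddSubgroup.zmultiples w) ∧
      (∀ g (k : ℤ), h g = k → ψ g = k • w) ∧
      ∀ g (t : ℕ) (q : ℚ), PI p q → h g = p ^ t * q →
        ∃ w' ∈ AddSubgroup.zmultiples w, ψ g = p ^ t • w' := by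
  set L : ZMod (p ^ N) →+ X := ZMod.lift (p ^ N) ⟨zmultiplesHom X w, by
    rw [zmultiplesHom_apply, natCast_zsmul]; exact hw⟩ with hL
  have hLk : ∀ k : ℤ, L (k : ZMod (p ^ N)) = k • w := fun k => by
    rw [hL, ZMod.lift_coe]; rfl
  have hLz : ∀ x, L x ∈ AddSubgroup.zmultiples w := fun x => by
    obtain ⟨k, rfl⟩ := ZMod.intCast_surjective x
    rw [hLk]; exact ⟨k, rfl⟩
  set H : G →+ ℤ_[p] :=
    { toFun := fun g => ⟨(h g : ℚ_[p]), hint g⟩
      map_zero' := Subtype.ext (by simp)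
      map_add' := fun x y => Subtype.ext (by simp) } with hH
  set ψ : G →+ X := L.comp ((PadicInt.toZModPow (p := p) N).toAddMonoidHom.comp H) with hψ
  have hψg : ∀ g, ψ g = L (PadicInt.toZModPow N (H g)) := fun g => rfl
  refine ⟨ψ, fun g => hLz _, ?_, ?_⟩
  · intro g k hk
    have h1 : H g = (k : ℤ_[p]) := by
      apply Subtype.ext
      change ((h g : ℚ) : ℚ_[p]) = _
      rw [hk]; simp
    rw [hψg, h1, map_intCast, hLk]
  · intro g t q hq e
    set Q : ℤ_[p] := ⟨(q : ℚ_[p]), hq⟩ with hQ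
    have h1 : H g = (p : ℤ_[p]) ^ t * Q := by
      apply Subtype.ext
      change ((h g : ℚ) : ℚ_[p]) = _
      rw [e]; simp [hQ]
    refine ⟨L (PadicInt.toZModPow N Q), hLz _, ?_⟩
    rw [hψg, h1, map_mul, map_pow, map_natCast, ← map_nsmul]
    congr 1
    rw [nsmul_eq_mul]
    push_cast
    rfl

end Pool.Agent.Lib.C8da183
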