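import Pool.Agent.Lib.C8da183.Nec
import Pool.Agent.Lib.C8da183.Pint

/-!
# Groups with a cyclic regulating quotient: sufficiency of the chain condition at one prime
-/

namespace Pool.Agent.Lib.C8da183

open scoped Classical

set_option linter.unusedSectionVars false

variable {V : Type*} [AddCommGroup V] [Module ℚ V]
variable {J : Type*} [Fintype J] [DecidableEq J]

namespace CData

variable {G C : AddSubgroup V} {b : J → V} {f : J → V →ₗ[ℚ] ℚ} {p n' e : ℕ} {u : V}
  {a : J → ℕ} [Fact p.Prime]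

theorem fu_ne_zero (Δ : CData G C b f p n' e u a) {i : J} (h0 : 0 < a i) : f i u ≠ 0 := by
  intro h
  have h1 := Δ.A1 i 1 (by rw [h, mul_zero, zero_smul]; exact C.zero_mem)
  have h2 : p ^ a i ∣ 1 := by exact_mod_cast h1
  have h3 := Nat.le_of_dvd one_pos h2
  have h4 := Nat.one_lt_pow (by omega : a i ≠ 0) Δ.hp.one_lt
  omega

theorem coord_int (Δ : CData G C b f p n' e u a) {i : J} (h0 : 0 < a i) {q : ℚ}
    (hq : q • b i ∈ C) : ∃ r : ℚ, PI p r ∧ q / f i u = (p : ℚ) ^ a i * r := by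
  have hfu := Δ.fu_ne_zero h0
  set x := q / f i u with hx
  have hxd : x * x.den = x.num := Rat.mul_den_eq_num x
  have h1 : ((x.num : ℚ) * f i u) • b i ∈ C := by
    have h2 : (x.num : ℚ) * f i u = (x.den : ℚ) * q := by
      rw [← hxd, hx]; field_simp
    rw [h2, mul_smul, ← nsmul_eq]
    exact C.nsmul_mem hq _
  obtain ⟨m, hm⟩ := Δ.A1 i _ h1
  have hpn : p ∣ x.num.natAbs := by
    have h3 : (p : ℤ) ∣ x.num := by
      rw [hm]
      refine Dvd.dvd.mul_right ?_ m
      push_cast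
      exact dvd_pow_self _ (by omega)
    exact Int.natCast_dvd.mp h3
  have hpd : ¬ p ∣ x.den := by
    intro h
    have := Nat.dvd_gcd hpn h
    rw [Nat.Coprime.gcd_eq_one x.reduced] at this
    exact Δ.hp.one_lt.ne' (Nat.dvd_one.mp this)
  refine ⟨m / x.den, ?_, ?_⟩
  · apply PI.of_den
    intro h
    apply hpd
    refine h.trans ?_
    have : (m / x.den : ℚ) = Rat.divInt m x.den := by
      rw [Rat.divInt_eq_div]; simp
    rw [this]
    exact_mod_cast Rat.den_dvd m x.den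
  · have h4 : (x.den : ℚ) ≠ 0 := by exact_mod_cast x.den_ne_zero
    rw [← mul_div_assoc, eq_div_iff h4, hxd, hm]
    push_cast
    ring

/-- The main construction. -/
theorem exists_pi (Δ : CData G C b f p n' e u a) (he : 0 < e) {X : Type*} [AddCommGroup X]
    (nx : ℕ → ℕ) (hnx : ∀ s, s < e → nx s ∈ SB G b a e ∧ s < nx s ∧ ∀ t ∈ SB G b a e, s < t →
      nx s ≤ t)
    (w : ℕ → X) (W : ℕ → AddSubgroup X) (hw : ∀ s, p ^ e • w s = 0)
    (hW : ∀ s ∈ SB G b a e, s < e → w s ∈ W s ∧ W s ≤ W (nx s) ⊔ AddSubgroup.zmultiples (w s) ∧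
      W (nx s) ≤ W s ∧ p ^ (nx s - s) • w s ∈ W (nx s)) (hWe : W e = ⊥) :
    ∃ π : G →+ X, (∀ g, π g ∈ W 0) ∧ (∀ x ∈ W 0, ∃ g, π g = x) ∧
      ∀ x ∈ G, x ≠ 0 → im π (up G x) ≤ im π (sharp G x) := by
  have h0SB : 0 ∈ SB G b a e := Or.inl rfl
  have heSB : e ∈ SB G b a e := Or.inr (Or.inl rfl)
  obtain ⟨j0, _⟩ := Δ.sup_e he
  -- indices
  have hidx : ∀ t, ∃ i, (t ∈ SB G b a e → 0 < t →
      a i = t ∧ ∀ j, ¬ TypeLE G (b i) G (b j) → a j ≤ a i) := by
    intro t
    by_cases h : t ∈ SB G b a e ∧ 0 < t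
    · obtain ⟨i, hi⟩ := Δ.exists_index h.1 h.2
      exact ⟨i, fun _ _ => hi⟩
    · exact ⟨j0, fun h1 h2 => absurd ⟨h1, h2⟩ h⟩
  choose i hi using hidx
  -- the functions `γ`
  set γ : ℕ → V →ₗ[ℚ] ℚ := fun t => if 0 < t then (f (i t) u)⁻¹ • f (i t) else 0 with hγ
  have γ0 : γ 0 = 0 := by simp [hγ]
  have γt : ∀ t, 0 < t → ∀ v, γ t v = f (i t) v / f (i t) u := by
    intro t ht v
    rw [hγ]
    simp only [if_pos ht, LinearMap.smul_apply, smul_eq_mul]
    rw [div_eq_inv_mul]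
  have γint : ∀ t ∈ SB G b a e, 0 < t → ∀ c ∈ C, ∃ r, PI p r ∧ γ t c = (p : ℚ) ^ t * r := by
    intro t ht h0 c hc
    obtain ⟨h1, h2⟩ := hi t ht h0
    obtain ⟨r, hr, e1⟩ := Δ.coord_int (i := i t) (by omega) (Δ.R.coord c hc (i t))
    rw [h1] at e1
    exact ⟨r, hr, by rw [γt t h0]; exact e1⟩
  have γu : ∀ t ∈ SB G b a e, 0 < t → γ t u = 1 := by
    intro t ht h0
    rw [γt t h0]
    exact div_self (Δ.fu_ne_zero (by rw [(hi t ht h0).1]; exact h0))
  set h : ℕ → (G →+ ℚ) := fun s =>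
    ((((p : ℚ) ^ s)⁻¹ • (γ (nx s) - γ s) : V →ₗ[ℚ] ℚ).toAddMonoidHom).comp G.subtype with hh
  have hp0 : (p : ℚ) ≠ 0 := by exact_mod_cast Δ.hp.ne_zero
  have hval : ∀ s (g : G), h s g = ((p : ℚ) ^ s)⁻¹ * (γ (nx s) g - γ s g) := by
    intro s g
    rfl
  have hint : ∀ s ∈ SB G b a e, s < e → ∀ g, PI p (h s g) := by
    intro s hs hse g
    obtain ⟨n1, n2, n3⟩ := hnx s hse
    obtain ⟨c, hc, k, eg⟩ := Δ.gen g g.2
    obtain ⟨r', hr', e'⟩ := γint (nx s) n1 (by omega) c hc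
    have e1 : γ (nx s) g = (p : ℚ) ^ nx s * r' + k := by
      rw [eg, map_add, map_zsmul, e', γu _ n1 (by omega)]; simp
    rcases Nat.eq_zero_or_pos s with h0 | h0
    · rw [hval, e1, h0, γ0]
      simp only [pow_zero, inv_one, one_mul, LinearMap.zero_apply, sub_zero]
      refine PI.add (PI.mul ?_ hr') (PI.int k)
      exact_mod_cast PI.nat (p := p) (p ^ nx 0)
    · obtain ⟨r, hr, e2⟩ := γint s hs h0 c hc
      have e3 : γ s g = (p : ℚ) ^ s * r + k := by
        rw [eg, map_add, map_zsmul, e2, γu _ hs h0]; simp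
      have e4 : h s g = ((p ^ (nx s - s) : ℕ) : ℚ) * r' - r := by
        rw [hval, e1, e3]
        have : (p : ℚ) ^ nx s = (p : ℚ) ^ (nx s - s) * (p : ℚ) ^ s := by
          rw [← pow_add]; congr 1; omega
        rw [this]
        push_cast
        field_simp
        ring
      rw [e4]
      exact (PI.mul (PI.nat _) hr').sub hr
  have hψ : ∀ s, ∃ ψ : G →+ X, s ∈ SB G b a e → s < e →
      (∀ g, ψ g ∈ AddSubgroup.zmultiples (w s)) ∧
      (∀ g (k : ℤ), h s g = k → ψ g = k • w s) ∧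
      ∀ g (t : ℕ) (q : ℚ), PI p q → h s g = p ^ t * q →
        ∃ w' ∈ AddSubgroup.zmultiples (w s), ψ g = p ^ t • w' := by
    intro s
    by_cases hs : s ∈ SB G b a e ∧ s < e
    · obtain ⟨ψ, h1⟩ := exists_hom (h s) (hint s hs.1 hs.2) (hw s)
      exact ⟨ψ, fun _ _ => h1⟩
    · exact ⟨0, fun h1 h2 => absurd ⟨h1, h2⟩ hs⟩
  choose ψ hψ using hψ
  set T : Finset ℕ := (Finset.range e).filter fun s => s ∈ SB G b a e with hT
  have memT : ∀ s, s ∈ T ↔ s < e ∧ s ∈ SB G b a e := by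
    intro s; rw [hT, Finset.mem_filter, Finset.mem_range]
  set π : G →+ X := ∑ s ∈ T, ψ s with hπ
  have πg : ∀ g, π g = ∑ s ∈ T, ψ s g := by
    intro g; rw [hπ]; exact AddMonoidHom.finsetSum_apply _ _ _
  -- monotonicity of `W`
  have hWmono : ∀ d, ∀ s ∈ SB G b a e, s ≤ e → e - s = d → ∀ t ∈ SB G b a e, s ≤ t → t ≤ e →
      W t ≤ W s := by
    intro d
    induction d using Nat.strong_induction_on with
    | _ d ih =>
      intro s hs hse hd t ht hst hte
      rcases Nat.eq_or_lt_of_le hst with h1 | h1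
      · rw [h1]
      · have hse' : s < e := by omega
        obtain ⟨n1, n2, n3⟩ := hnx s hse'
        have h2 := n3 t ht h1
        exact (ih (e - nx s) (by omega) (nx s) n1 (by omega) rfl t ht h2 hte).trans
          (hW s hs hse').2.2.1
  have hW0 : ∀ t ∈ SB G b a e, W t ≤ W 0 := fun t ht =>
    hWmono _ 0 h0SB (by omega) rfl t ht (by omega) (Δ.SB_le_e ht)
  -- membership in `brk`
  have hbrk : ∀ s, ∀ t ∈ SB G b a e, 0 < t → (i t ∈ brk G b a s ↔ s < t) := by
    intro s t ht h0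
    obtain ⟨h1, h2⟩ := hi t ht h0
    constructor
    · intro h3
      by_contra h4
      exact Δ.not_mem_brk h1 h2 (by omega) h3
    · intro h3
      exact mem_brk.mpr ⟨i t, TypeLE.refl _ _, by omega⟩
  -- (K1)
  have hyG : ∀ s, yU b f p n' u (brk G b a s) s ∈ GU G f (brk G b a s) := fun s =>
    Δ.yU_mem (sU_brk_le s)
  have K1 : ∀ s ∈ SB G b a e, ∀ hse : s < e,
      π ⟨yU b f p n' u (brk G b a s) s, (hyG s).1⟩ = n' • w s := by
    intro s hs hse
    set y := yU b f p n' u (brk G b a s) s with hy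
    have hγy : ∀ t ∈ SB G b a e, γ t y = if s < t then ((n' * p ^ s : ℕ) : ℚ) else 0 := by
      intro t ht
      rcases Nat.eq_zero_or_pos t with h0 | h0
      · rw [h0, γ0, if_neg (by omega)]; rfl
      · rw [γt t h0, hy, Δ.f_yU]
        by_cases hst : s < t
        · rw [if_pos ((hbrk s t ht h0).mpr hst), if_pos hst, mul_div_assoc, div_self, mul_one]
          exact Δ.fu_ne_zero (by rw [(hi t ht h0).1]; exact h0)
        · rw [if_neg (fun h1 => hst ((hbrk s t ht h0).mp h1)), if_neg hst, zero_div]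
    rw [πg, Finset.sum_eq_single s]
    · have h1 : h s ⟨y, (hyG s).1⟩ = ((n' : ℤ) : ℚ) := by
        rw [hval]
        obtain ⟨n1, n2, n3⟩ := hnx s hse
        rw [hγy _ n1, hγy _ hs, if_pos n2, if_neg (lt_irrefl s), sub_zero]
        push_cast
        field_simp
      rw [(hψ s hs hse).2.1 _ _ h1, natCast_zsmul]
    · intro t ht hts
      obtain ⟨hte, htS⟩ := (memT t).mp ht
      obtain ⟨n1, n2, n3⟩ := hnx t hte
      have h1 : h t ⟨y, (hyG s).1⟩ = ((0 : ℤ) : ℚ) := by
        rw [hval, hγy _ n1, hγy _ htS]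
        rcases Nat.lt_or_gt_of_ne hts with h2 | h2
        · have := n3 s hs h2
          rw [if_neg (by omega), if_neg (by omega)]; simp
        · rw [if_pos (by omega), if_pos h2]; simp
      rw [(hψ t htS hte).2.1 _ _ h1, zero_smul]
    · intro h1
      exact absurd ((memT s).mpr ⟨hse, hs⟩) h1
  -- (K2)
  have K2 : ∀ (j : J) (q : ℚ) (hq : q • b j ∈ C),
      π ⟨q • b j, Δ.R.le hq⟩ = 0 ∨ ∃ r ∈ SB G b a e, 0 < r ∧ i r = j ∧
        π ⟨q • b j, Δ.R.le hq⟩ ∈ W r := by
    intro j q hq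
    have hγq : ∀ t ∈ SB G b a e, 0 < t → i t ≠ j → γ t (q • b j) = 0 := by
      intro t ht h0 hne
      rw [γt t h0, map_smul, Δ.R.dual, if_neg hne, smul_zero, zero_div]
    by_cases hj : ∃ r ∈ SB G b a e, 0 < r ∧ i r = j
    · obtain ⟨r, hr, h0, hrj⟩ := hj
      right
      refine ⟨r, hr, h0, hrj, ?_⟩
      have hre : r ≤ e := Δ.SB_le_e hr
      have hne : ∀ t ∈ SB G b a e, t ≠ r → γ t (q • b j) = 0 := by
        intro t ht htr
        rcases Nat.eq_zero_or_pos t with h2 | h2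
        · rw [h2, γ0]; rfl
        · refine hγq t ht h2 fun h3 => htr ?_
          rw [← (hi t ht h2).1, ← (hi r hr h0).1, h3, hrj]
      rw [πg]
      refine AddSubgroup.sum_mem _ fun t ht => ?_
      obtain ⟨hte, htS⟩ := (memT t).mp ht
      obtain ⟨n1, n2, n3⟩ := hnx t hte
      by_cases htr : t = r
      · subst htr
        exact (AddSubgroup.zmultiples_le.mpr (hW t htS hte).1) ((hψ t htS hte).1 _)
      · by_cases hnr : nx t = r
        · obtain ⟨ρ, hρ, e1⟩ := γint r hr h0 _ hq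
          have h5 : h t ⟨q • b j, Δ.R.le hq⟩ = (p : ℚ) ^ (nx t - t) * ρ := by
            rw [hval]
            change ((p : ℚ) ^ t)⁻¹ * (γ (nx t) (q • b j) - γ t (q • b j)) = _
            rw [hne t htS htr, hnr, e1, sub_zero]
            have : (p : ℚ) ^ r = (p : ℚ) ^ (r - t) * (p : ℚ) ^ t := by
              rw [← pow_add]; congr 1; omega
            rw [this]
            field_simp
          obtain ⟨w', hw', e2⟩ := (hψ t htS hte).2.2 _ _ _ hρ h5
          rw [e2]
          obtain ⟨k, rfl⟩ := hw'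
          change p ^ (nx t - t) • (k • w t) ∈ _
          rw [smul_comm, ← hnr]
          exact AddSubgroup.zsmul_mem _ (hW t htS hte).2.2.2 _
        · have h5 : h t ⟨q • b j, Δ.R.le hq⟩ = ((0 : ℤ) : ℚ) := by
            rw [hval]
            change ((p : ℚ) ^ t)⁻¹ * (γ (nx t) (q • b j) - γ t (q • b j)) = _
            rw [hne t htS htr, hne _ n1 hnr]; simp
          rw [(hψ t htS hte).2.1 _ _ h5, zero_smul]
          exact AddSubgroup.zero_mem _
    · left
      push Not at hj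
      have hz : ∀ t ∈ SB G b a e, γ t (q • b j) = 0 := by
        intro t ht
        rcases Nat.eq_zero_or_pos t with h2 | h2
        · rw [h2, γ0]; rfl
        · exact hγq t ht h2 (hj t ht h2)
      rw [πg]
      refine Finset.sum_eq_zero fun t ht => ?_
      obtain ⟨hte, htS⟩ := (memT t).mp ht
      obtain ⟨n1, n2, n3⟩ := hnx t hte
      have h5 : h t ⟨q • b j, Δ.R.le hq⟩ = ((0 : ℤ) : ℚ) := by
        rw [hval]
        change ((p : ℚ) ^ t)⁻¹ * (γ (nx t) (q • b j) - γ t (q • b j)) = _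
        rw [hz t htS, hz _ n1]; simp
      rw [(hψ t htS hte).2.1 _ _ h5, zero_smul]
  -- (K3)
  have K3 : ∀ d, ∀ s ∈ SB G b a e, e - s = d → W s ≤ im π (GU G f (brk G b a s)) := by
    intro d
    induction d using Nat.strong_induction_on with
    | _ d ih =>
      intro s hs hd
      have hse : s ≤ e := Δ.SB_le_e hs
      rcases Nat.eq_or_lt_of_le hse with h1 | h1
      · rw [h1, hWe]; exact bot_le
      · obtain ⟨n1, n2, n3⟩ := hnx s h1
        have hne : nx s ≤ e := Δ.SB_le_e n1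
        refine (hW s hs h1).2.1.trans (sup_le ?_ ?_)
        · refine (ih _ (by omega) (nx s) n1 rfl).trans (im_mono π (GU_mono ?_))
          intro j hj
          obtain ⟨k, hk, hk2⟩ := mem_brk.mp hj
          exact mem_brk.mpr ⟨k, hk, by omega⟩
        · rw [AddSubgroup.zmultiples_le]
          have h2 : n' • w s ∈ im π (GU G f (brk G b a s)) :=
            (mem_im π).mpr ⟨_, (hyG s).1, hyG s, K1 s hs h1⟩
          obtain ⟨α, β, h3⟩ : IsCoprime (n' : ℤ) ((p ^ e : ℕ) : ℤ) :=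
            Nat.isCoprime_iff_coprime.mpr (Nat.Coprime.pow_right _ Δ.cop)
          have h4 : w s = α • (n' • w s) + β • (p ^ e • w s) := by
            rw [← natCast_zsmul, ← natCast_zsmul, smul_smul, smul_smul, ← add_smul, h3, one_smul]
          rw [h4, hw s, smul_zero, add_zero]
          exact AddSubgroup.zsmul_mem _ h2 _
  refine ⟨π, ?_, ?_, ?_⟩
  · intro g
    rw [πg]
    refine AddSubgroup.sum_mem _ fun t ht => ?_
    obtain ⟨hte, htS⟩ := (memT t).mp ht
    exact hW0 t htS ((AddSubgroup.zmultiples_le.mpr (hW t htS hte).1) ((hψ t htS hte).1 _))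
  · intro x hx
    obtain ⟨y, hy, _, e1⟩ := (mem_im π).mp (K3 _ 0 h0SB rfl hx)
    exact ⟨_, e1⟩
  · intro x hx hx0
    rw [im_le_iff]
    intro y hyG' hy
    obtain ⟨c, hc, z, hz, eyz⟩ := AddSubgroup.mem_sup.mp (Δ.reg x hx hx0 hy)
    have hcup : c ∈ up G x := by
      have : c = y - z := by rw [← eyz]; abel
      rw [this]
      exact AddSubgroup.sub_mem _ hy (sharp_le_up hz)
    have hcG : c ∈ G := Δ.R.le hc
    have e1 : (⟨y, hyG'⟩ : G) = ⟨c, hcG⟩ + ⟨z, sharp_le hz⟩ := Subtype.ext eyz.symm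
    rw [e1, map_add]
    refine AddSubgroup.add_mem _ ?_ ((mem_im π).mpr ⟨z, sharp_le hz, hz, rfl⟩)
    have e2 : (⟨c, hcG⟩ : G) = ∑ j, ⟨f j c • b j, Δ.R.le (Δ.R.coord c hc j)⟩ := by
      apply Subtype.ext
      rw [AddSubgroup.val_finsetSum]
      exact Δ.R.expand c hcG
    rw [e2, map_sum]
    refine AddSubgroup.sum_mem _ fun j _ => ?_
    by_cases hfj : f j c = 0
    · have : (⟨f j c • b j, Δ.R.le (Δ.R.coord c hc j)⟩ : G) = 0 := by
        apply Subtype.ext
        change f j c • b j = 0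
        rw [hfj, zero_smul]
      rw [this, map_zero]
      exact AddSubgroup.zero_mem _
    · have hxj : TypeLE G x G (b j) := (Δ.R.mem_up_iff hcG).mp hcup j hfj
      rcases K2 j (f j c) (Δ.R.coord c hc j) with h1 | ⟨r, hr, h0, hrj, h1⟩
      · rw [h1]; exact AddSubgroup.zero_mem _
      · have h2 := K3 _ r hr rfl h1
        refine im_mono π ?_ h2
        have h3 : brk G b a r ⊆ shF G b (b (i r)) :=
          Δ.brk_subset_shF (hi r hr h0).1 (hi r hr h0).2
        rw [sharp_eq_GU Δ.R x]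
        refine (GU_mono h3).trans (GU_mono ?_)
        intro l hl
        rw [hrj, mem_shF] at hl
        rw [mem_shF]
        exact ⟨hxj.trans hl.1, fun h4 => hl.2 (h4.trans hxj)⟩

end CData

end Pool.Agent.Lib.C8da183
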