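import Pool.Agent.Lib.C8da183.DefsC
import Pool.Agent.Lib.C8da183.Suf
import Pool.Agent.Lib.C8da183.PPart

/-!
# The data at each prime, and the break values
-/

namespace Pool.Agent.Lib.C8da183

open scoped Classical

set_option linter.unusedSectionVars false

variable {V : Type*} [AddCommGroup V] [Module ℚ V]
variable {J : Type*} [Fintype J] [DecidableEq J]
variable {G C : AddSubgroup V} {b : J → V} {f : J → V →ₗ[ℚ] ℚ}

theorem exists_gen (hcyc : IsAddCyclic (G ⧸ C.addSubgroupOf G)) :
    ∃ u ∈ G, (∀ g ∈ G, ∃ c ∈ C, ∃ k : ℤ, g = c + k • u) ∧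
      ∀ k : ℤ, k • u ∈ C → (C.relIndex G : ℤ) ∣ k := by
  obtain ⟨q, hq⟩ := hcyc.exists_generator
  obtain ⟨⟨u, hu⟩, rfl⟩ := QuotientAddGroup.mk_surjective q
  refine ⟨u, hu, fun g hg => ?_, fun k hk => ?_⟩
  · obtain ⟨k, hk⟩ := hq ((⟨g, hg⟩ : G) : G ⧸ C.addSubgroupOf G)
    change k • ((⟨u, hu⟩ : G) : G ⧸ C.addSubgroupOf G) = _ at hk
    rw [← QuotientAddGroup.mk_zsmul, QuotientAddGroup.eq, AddSubgroup.mem_addSubgroupOf] at hk
    refine ⟨_, hk, k, ?_⟩
    change g = (-(k • u) + g) + k • u
    abel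
  · have h1 : addOrderOf ((⟨u, hu⟩ : G) : G ⧸ C.addSubgroupOf G) = C.relIndex G :=
      addOrderOf_eq_card_of_forall_mem_zmultiples hq
    rw [← h1, addOrderOf_dvd_iff_zsmul_eq_zero, ← QuotientAddGroup.mk_zsmul,
      QuotientAddGroup.eq_zero_iff, AddSubgroup.mem_addSubgroupOf]
    exact hk

theorem exists_cdata (R : Ref G C b f) (hreg : ∀ x ∈ G, x ≠ 0 → up G x ≤ C ⊔ sharp G x) {u : V}
    (hu : u ∈ G) (hgen : ∀ g ∈ G, ∃ c ∈ C, ∃ k : ℤ, g = c + k • u)
    (hord : ∀ k : ℤ, k • u ∈ C → (C.relIndex G : ℤ) ∣ k) {p : ℕ} (hp : p.Prime) :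
    ∃ a : J → ℕ, CData G C b f p (C.relIndex G / p ^ (C.relIndex G).factorization p)
      ((C.relIndex G).factorization p) u a := by
  set n := C.relIndex G with hn
  have hn0 : n ≠ 0 := R.fin
  set e := n.factorization p with he
  set n' := n / p ^ e with hn'
  have hnn : p ^ e * n' = n := Nat.ordProj_mul_ordCompl_eq_self n p
  have hcop : Nat.Coprime n' p := (Nat.coprime_ordCompl hp hn0).symm
  have hnu : n • u ∈ C := by
    obtain ⟨h1, h2⟩ := exists_nsmul_mem R.fin
    exact h2 u hu
  set o : J → ℕ := fun j => addOrderOf ((f j u • b j : V) : V ⧸ C) with ho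
  have hoC : ∀ j (k : ℤ), ((k : ℚ) * f j u) • b j ∈ C ↔ (o j : ℤ) ∣ k := by
    intro j k
    rw [ho]
    simp only
    rw [addOrderOf_dvd_iff_zsmul_eq_zero, ← QuotientAddGroup.mk_zsmul,
      QuotientAddGroup.eq_zero_iff, mul_smul, Int.cast_smul_eq_zsmul]
  have hodvd : ∀ j, o j ∣ n := by
    intro j
    have h1 := R.coord _ hnu j
    rw [map_nsmul, nsmul_eq_mul] at h1
    have h2 := (hoC j n).mp (by convert h1 using 3; exact Int.cast_natCast _)
    exact_mod_cast h2
  have ho0 : ∀ j, o j ≠ 0 := fun j h => hn0 (Nat.eq_zero_of_zero_dvd (h ▸ hodvd j))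
  have hole : ∀ j, (o j).factorization p ≤ e := fun j =>
    (Nat.factorization_le_iff_dvd (ho0 j) hn0).mpr (hodvd j) p
  have hon : ∀ j r, (o j).factorization p ≤ r → o j ∣ n' * p ^ r := by
    intro j r hr
    rw [← Nat.ordProj_mul_ordCompl_eq_self (o j) p, mul_comm n']
    refine Nat.mul_dvd_mul (pow_dvd_pow p hr) ?_
    have h1 : (o j) / p ^ (o j).factorization p ∣ p ^ e * n' := by
      rw [hnn]
      exact (Nat.ordCompl_dvd (o j) p).trans (hodvd j)
    exact ((Nat.coprime_ordCompl hp (ho0 j)).symm.pow_right e).dvd_of_dvd_mul_left h1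
  refine ⟨fun j => (o j).factorization p, R, hreg, hu, hgen, hp, hcop, ?_, ?_, hole, ?_⟩
  · intro j k hk
    have h1 := (hoC j k).mp hk
    refine dvd_trans ?_ h1
    exact_mod_cast Nat.ordProj_dvd (o j) p
  · intro j
    have h1 := (hoC j ((n' * p ^ (o j).factorization p : ℕ) : ℤ)).mpr
      (by exact_mod_cast hon j _ le_rfl)
    convert h1 using 3
    exact (Int.cast_natCast _).symm
  · intro he0
    by_contra hne
    push Not at hne
    have h1 : ∀ j, o j ∣ n' * p ^ (e - 1) := fun j => hon j _ (by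
      have := hole j
      have := hne j
      omega)
    have h2 : ((n' * p ^ (e - 1) : ℕ) : ℤ) • u ∈ C := by
      rw [R.expand u hu, Finset.smul_sum]
      refine AddSubgroup.sum_mem _ fun j _ => ?_
      have h3 := (hoC j ((n' * p ^ (e - 1) : ℕ) : ℤ)).mpr (by exact_mod_cast h1 j)
      rw [mul_smul, Int.cast_smul_eq_zsmul] at h3
      exact h3
    have h3 := hord _ h2
    have h4 : n ∣ n' * p ^ (e - 1) := by exact_mod_cast h3
    have h5 : n' * p ^ (e - 1) < n := by
      rw [← hnn, mul_comm n']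
      refine Nat.mul_lt_mul_of_pos_right ?_ (Nat.pos_of_ne_zero ?_)
      · exact Nat.pow_lt_pow_right hp.one_lt (by omega)
      · intro h; rw [h, mul_zero] at hnn; exact hn0 hnn.symm
    have h6 : 0 < n' * p ^ (e - 1) := Nat.mul_pos (Nat.pos_of_ne_zero (by
      intro h; rw [h, mul_zero] at hnn; exact hn0 hnn.symm)) (pow_pos hp.pos _)
    have := Nat.le_of_dvd h6 h4
    omega

theorem notLE_eq_GU (R : Ref G C b f) (x : V) :
    notLE G x = GU G f (Finset.univ.filter fun j => ¬ TypeLE G (b j) G x) := by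
  ext y
  have key : ∀ hy : y ∈ G, y ∈ notLE G x ↔ ∀ j, f j y ≠ 0 → ¬ TypeLE G (b j) G x := by
    intro hy
    have := R.mem_span_iff (P := fun z => ¬ TypeLE G z G x)
      (fun y _ z _ h1 h2 h3 => h1 (h2.trans h3)) hy
    rw [← this]
    exact ⟨fun h => h.2, fun h => ⟨hy, h⟩⟩
  constructor
  · intro hy
    refine ⟨hy.1, fun j hj => ?_⟩
    by_contra h
    exact hj (by simpa using (key hy.1).mp hy j h)
  · intro hy
    rw [key hy.1]
    intro j hj
    by_contra h
    exact hj (hy.2 j (by simpa using h))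

theorem isUp_notLE (x : V) :
    IsUp G b (Finset.univ.filter fun j => ¬ TypeLE G (b j) G x) := by
  intro j hj k hjk
  simp only [Finset.mem_filter, Finset.mem_univ, true_and] at hj ⊢
  exact fun h => hj (hjk.trans h)

namespace CData

variable {p n' e : ℕ} {u : V} {a : J → ℕ}

/-- The index of `G(U) + C` at `p`. -/
theorem factorization_GU (Δ : CData G C b f p n' e u a) (hn : C.relIndex G = p ^ e * n')
    {U : Finset J} (hU : IsUp G b U) :
    ((C ⊔ GU G f U).relIndex G).factorization p = sU a U := by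
  have hCG : C ≤ G := Δ.R.le
  set P : AddSubgroup V := G.map (nsmulAddMonoidHom (α := V) (p ^ e)) with hP
  have hPG : P ≤ G := by
    rintro _ ⟨y, hy, rfl⟩
    exact G.nsmul_mem hy _
  have hPof : P.addSubgroupOf G = (nsmulAddMonoidHom (α := G) (p ^ e)).range := by
    ext y
    rw [AddSubgroup.mem_addSubgroupOf]
    constructor
    · rintro ⟨z, hz, e1⟩
      exact ⟨⟨z, hz⟩, Subtype.ext e1⟩
    · rintro ⟨z, rfl⟩
      exact ⟨z, z.2, rfl⟩
  have key : ∀ L : AddSubgroup V, C ≤ L → L ≤ G →
      (L ⊔ P).relIndex G = p ^ (L.relIndex G).factorization p := by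
    intro L hCL hLG
    have h1 : L.relIndex G ∣ C.relIndex G := AddSubgroup.relIndex_dvd_of_le_left G hCL
    have h2 : L.relIndex G ≠ 0 := fun h => Δ.R.fin (by
      rw [h] at h1; exact Nat.eq_zero_of_zero_dvd h1)
    have h3 := index_sup_range (L.addSubgroupOf G) Δ.hp Δ.cop h2 (by
      rw [← hn]; exact h1)
    unfold AddSubgroup.relIndex at *
    rw [AddSubgroup.addSubgroupOf_sup hLG hPG, hPof]
    exact h3
  have hK := key C le_rfl hCG
  have hC : (C.relIndex G).factorization p = e := by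
    rw [hn, Nat.factorization_mul (pow_pos Δ.hp.pos e).ne' (by
      intro h
      have := Δ.cop
      rw [h, Nat.coprime_zero_left] at this
      exact Δ.hp.one_lt.ne' this), Finsupp.add_apply, Δ.hp.factorization_pow,
      Finsupp.single_eq_same, Nat.factorization_eq_zero_of_not_dvd, add_zero]
    intro h
    have h6 := Nat.dvd_gcd h dvd_rfl
    rw [Δ.cop.gcd_eq_one] at h6
    exact Δ.hp.one_lt.ne' (Nat.dvd_one.mp h6)
  rw [hC] at hK
  have h4 := Δ.relIndex_GU (K := C ⊔ P) (fun g hg => le_sup_right (a := C) (b := P) ⟨g, hg, rfl⟩)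
    (sup_le hCG hPG) (fun x hx hx0 => (Δ.reg x hx hx0).trans (sup_le_sup_right le_sup_left _))
    hK hU
  have h5 := key (C ⊔ GU G f U) le_sup_left (sup_le hCG (GU_le _))
  have h6 : GU G f U ⊔ (C ⊔ P) = C ⊔ GU G f U ⊔ P := by
    rw [← sup_assoc, sup_comm (GU G f U) C]
  rw [← h6, h4] at h5
  exact (Nat.pow_right_injective Δ.hp.two_le h5).symm

theorem breaks_eq (Δ : CData G C b f p n' e u a) (hn : C.relIndex G = p ^ e * n')
    (he : (C.relIndex G).factorization p = e) : breaks G C p = SB G b a e := by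
  have h1 : ∀ x, ((C ⊔ up G x).relIndex G).factorization p = sU a (upF G b x) := by
    intro x
    rw [up_eq_GU Δ.R]
    exact Δ.factorization_GU hn (isUp_upF x)
  have h2 : ∀ x, ((C ⊔ notLE G x).relIndex G).factorization p =
      sU a (Finset.univ.filter fun j => ¬ TypeLE G (b j) G x) := by
    intro x
    rw [notLE_eq_GU Δ.R]
    exact Δ.factorization_GU hn (isUp_notLE x)
  ext s
  constructor
  · rintro (h | h | ⟨x, hx, hx0, h3, h4⟩)
    · exact Or.inl h
    · exact Or.inr (Or.inl (h.trans he))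
    · rw [h1] at h3
      rw [h2] at h4
      rcases Nat.eq_zero_or_pos s with h0 | h0
      · exact Or.inl h0
      · right; right
        have hne : (Finset.univ.filter fun j => ¬ TypeLE G (b j) G x)ᶜ.Nonempty := by
          by_contra h5
          rw [Finset.not_nonempty_iff_eq_empty] at h5
          rw [sU, h5, Finset.sup_empty] at h4
          rw [← h4] at h0
          exact absurd h0 (lt_irrefl _)
        obtain ⟨k, hk, hk2⟩ := Finset.exists_mem_eq_sup _ hne a
        have hk3 : TypeLE G (b k) G x := by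
          simpa using hk
        have hak : a k = s := by rw [← hk2]; exact h4
        refine ⟨k, hak, fun j hj => ?_⟩
        rw [hak, ← h3]
        apply le_sU
        intro h5
        exact hj (hk3.trans (mem_upF.mp h5))
  · rintro (h | h | ⟨i, hi, hi2⟩)
    · exact Or.inl h
    · exact Or.inr (Or.inl (h.trans he.symm))
    · right; right
      refine ⟨b i, Δ.R.bG i, Δ.R.b_ne_zero i, ?_, ?_⟩
      · rw [h1]
        apply le_antisymm
        · refine sU_le fun j hj => ?_
          rw [← hi]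
          exact hi2 j fun h => hj (mem_upF.mpr h)
        · rw [← hi]
          exact Δ.A5 i
      · rw [h2]
        apply le_antisymm
        · refine sU_le fun j hj => ?_
          have hj' : TypeLE G (b j) G (b i) := by simpa using hj
          rw [← hi]
          exact Δ.le_of_equiv hi2 hj'
        · rw [← hi]
          exact le_sU (by simpa using TypeLE.refl _ _)

end CData

end Pool.Agent.Lib.C8da183
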