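import Pool.Agent.Lib.C8da183.Criterion

/-!
# Groups with a cyclic regulating quotient: the combinatorial data at a prime
-/

namespace Pool.Agent.Lib.C8da183

open scoped Classical

set_option linter.unusedSectionVars false

variable {V : Type*} [AddCommGroup V] [Module ℚ V]

section Im

variable {G : AddSubgroup V} {X : Type*} [AddCommGroup X] (π : G →+ X)

/-- The image in `X` of a subgroup of `V`. -/
def im (H : AddSubgroup V) : AddSubgroup X := (H.addSubgroupOf G).map π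

theorem mem_im {H : AddSubgroup V} {x : X} :
    x ∈ im π H ↔ ∃ y, ∃ hy : y ∈ G, y ∈ H ∧ π ⟨y, hy⟩ = x := by
  constructor
  · rintro ⟨y, hy, rfl⟩
    exact ⟨y, y.2, AddSubgroup.mem_addSubgroupOf.mp hy, rfl⟩
  · rintro ⟨y, hy, hyH, rfl⟩
    exact ⟨⟨y, hy⟩, AddSubgroup.mem_addSubgroupOf.mpr hyH, rfl⟩

theorem im_mono {H K : AddSubgroup V} (h : H ≤ K) : im π H ≤ im π K := by
  rintro x hx
  rw [mem_im] at hx ⊢
  obtain ⟨y, hy, hyH, e⟩ := hx
  exact ⟨y, hy, h hyH, e⟩

theorem im_le_iff {H : AddSubgroup V} {T : AddSubgroup X} :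
    im π H ≤ T ↔ ∀ y (hy : y ∈ G), y ∈ H → π ⟨y, hy⟩ ∈ T := by
  constructor
  · intro h y hy hyH
    exact h ((mem_im π).mpr ⟨y, hy, hyH, rfl⟩)
  · intro h x hx
    obtain ⟨y, hy, hyH, rfl⟩ := (mem_im π).mp hx
    exact h y hy hyH

end Im

section Sets

variable {J : Type*} [Fintype J] [DecidableEq J]

/-- indices of type at least that of `x` -/
noncomputable def upF (G : AddSubgroup V) (b : J → V) (x : V) : Finset J :=
  Finset.univ.filter fun j => TypeLE G x G (b j)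

/-- indices of type greater than that of `x` -/
noncomputable def shF (G : AddSubgroup V) (b : J → V) (x : V) : Finset J :=
  Finset.univ.filter fun j => TypeLE G x G (b j) ∧ ¬ TypeLE G (b j) G x

/-- indices above some index with `a k > s` -/
noncomputable def brk (G : AddSubgroup V) (b : J → V) (a : J → ℕ) (s : ℕ) : Finset J :=
  Finset.univ.filter fun j => ∃ k, TypeLE G (b k) G (b j) ∧ s < a k

variable {G C : AddSubgroup V} {b : J → V} {f : J → V →ₗ[ℚ] ℚ}

theorem isUp_upF (x : V) : IsUp G b (upF G b x) := by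
  intro j hj k hjk
  simp only [upF, Finset.mem_filter, Finset.mem_univ, true_and] at hj ⊢
  exact hj.trans hjk

theorem isUp_shF (x : V) : IsUp G b (shF G b x) := by
  intro j hj k hjk
  simp only [shF, Finset.mem_filter, Finset.mem_univ, true_and] at hj ⊢
  exact ⟨hj.1.trans hjk, fun h => hj.2 (hjk.trans h)⟩

theorem isUp_brk (a : J → ℕ) (s : ℕ) : IsUp G b (brk G b a s) := by
  intro j hj k hjk
  simp only [brk, Finset.mem_filter, Finset.mem_univ, true_and] at hj ⊢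
  obtain ⟨l, h1, h2⟩ := hj
  exact ⟨l, h1.trans hjk, h2⟩

theorem mem_upF {x : V} {j : J} : j ∈ upF G b x ↔ TypeLE G x G (b j) := by
  simp [upF]

theorem mem_shF {x : V} {j : J} :
    j ∈ shF G b x ↔ TypeLE G x G (b j) ∧ ¬ TypeLE G (b j) G x := by
  simp [shF]

theorem mem_brk {a : J → ℕ} {s : ℕ} {j : J} :
    j ∈ brk G b a s ↔ ∃ k, TypeLE G (b k) G (b j) ∧ s < a k := by
  simp [brk]

theorem up_eq_GU (R : Ref G C b f) (x : V) : up G x = GU G f (upF G b x) := by
  ext y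
  constructor
  · intro hy
    refine ⟨hy.1, fun j hj => ?_⟩
    by_contra h
    exact hj (mem_upF.mpr ((R.mem_up_iff hy.1).mp hy j h))
  · intro hy
    rw [R.mem_up_iff hy.1]
    intro j hj
    by_contra h
    exact hj (hy.2 j fun h' => h (mem_upF.mp h'))

theorem sharp_eq_GU (R : Ref G C b f) (x : V) : sharp G x = GU G f (shF G b x) := by
  ext y
  constructor
  · intro hy
    refine ⟨hy.1, fun j hj => ?_⟩
    by_contra h
    exact hj (mem_shF.mpr ((R.mem_sharp_iff hy.1).mp hy j h))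
  · intro hy
    rw [R.mem_sharp_iff hy.1]
    intro j hj
    by_contra h
    exact hj (hy.2 j fun h' => h (mem_shF.mp h'))

theorem shF_subset {U : Finset J} (hU : IsUp G b U) {j : J} (hj : j ∈ U) :
    shF G b (b j) ⊆ U := fun l hl => hU j hj l (mem_shF.mp hl).1

theorem shF_ssubset {U : Finset J} (hU : IsUp G b U) {j : J} (hj : j ∈ U) :
    shF G b (b j) ⊂ U := by
  refine Finset.ssubset_iff_subset_ne.mpr ⟨shF_subset hU hj, fun h => ?_⟩
  rw [← h, mem_shF] at hj
  exact hj.2 (TypeLE.refl _ _)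

end Sets

variable {J : Type*} [Fintype J] [DecidableEq J]

/-- The data at the prime `p` for a group `G = C + ℤ u`. -/
structure CData (G C : AddSubgroup V) (b : J → V) (f : J → V →ₗ[ℚ] ℚ) (p n' e : ℕ) (u : V)
    (a : J → ℕ) : Prop where
  R : Ref G C b f
  reg : ∀ x ∈ G, x ≠ 0 → up G x ≤ C ⊔ sharp G x
  hu : u ∈ G
  gen : ∀ g ∈ G, ∃ c ∈ C, ∃ k : ℤ, g = c + k • u
  hp : p.Prime
  cop : Nat.Coprime n' p
  A1 : ∀ j (k : ℤ), ((k : ℚ) * f j u) • b j ∈ C → ((p ^ a j : ℕ) : ℤ) ∣ k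
  A2 : ∀ j, (((n' * p ^ a j : ℕ) : ℚ) * f j u) • b j ∈ C
  le_e : ∀ j, a j ≤ e
  sup_e : 0 < e → ∃ j, a j = e

/-- the largest exponent outside `U` -/
def sU {J : Type*} [Fintype J] [DecidableEq J] (a : J → ℕ) (U : Finset J) : ℕ := Uᶜ.sup a

/-- the part of `n' p ^ r u` in `U` -/
noncomputable def yU (b : J → V) (f : J → V →ₗ[ℚ] ℚ) (p n' : ℕ) (u : V) (U : Finset J) (r : ℕ) :
    V := ∑ j ∈ U, (((n' * p ^ r : ℕ) : ℚ) * f j u) • b j

namespace CData

variable {G C : AddSubgroup V} {b : J → V} {f : J → V →ₗ[ℚ] ℚ} {p n' e : ℕ} {u : V}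
  {a : J → ℕ}

theorem le_sU {U : Finset J} {j : J} (hj : j ∉ U) : a j ≤ sU a U :=
  Finset.le_sup (f := a) (Finset.mem_compl.mpr hj)

theorem sU_le {U : Finset J} {s : ℕ} (h : ∀ j, j ∉ U → a j ≤ s) : sU a U ≤ s :=
  Finset.sup_le fun j hj => h j (Finset.mem_compl.mp hj)

theorem sU_anti {U W : Finset J} (h : U ⊆ W) : sU a W ≤ sU a U :=
  sU_le fun _ hj => le_sU fun h' => hj (h h')

theorem A2' (Δ : CData G C b f p n' e u a) {j : J} {r : ℕ} (h : a j ≤ r) :
    (((n' * p ^ r : ℕ) : ℚ) * f j u) • b j ∈ C := by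
  have h1 := C.nsmul_mem (Δ.A2 j) (p ^ (r - a j))
  rw [nsmul_eq, smul_smul] at h1
  convert h1 using 2
  have : p ^ r = p ^ (r - a j) * p ^ a j := by rw [← pow_add]; congr 1; omega
  rw [this]
  push_cast
  ring

theorem sU_le_e (Δ : CData G C b f p n' e u a) (U : Finset J) : sU a U ≤ e :=
  sU_le fun j _ => Δ.le_e j

theorem f_yU (Δ : CData G C b f p n' e u a) (U : Finset J) (r : ℕ) (j : J) :
    f j (yU b f p n' u U r) = if j ∈ U then ((n' * p ^ r : ℕ) : ℚ) * f j u else 0 := by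
  unfold yU
  rw [map_sum]
  simp only [map_smul, Δ.R.dual, smul_eq_mul, mul_ite, mul_one, mul_zero]
  rw [Finset.sum_ite_eq]

theorem yU_add_compl (Δ : CData G C b f p n' e u a) (U : Finset J) (r : ℕ) :
    yU b f p n' u U r + yU b f p n' u Uᶜ r = (n' * p ^ r) • u := by
  unfold yU
  rw [Finset.sum_add_sum_compl]
  conv_rhs => rw [Δ.R.expand u Δ.hu]
  rw [nsmul_eq, Finset.smul_sum]
  simp only [smul_smul]

theorem yU_mem (Δ : CData G C b f p n' e u a) {U : Finset J} {r : ℕ} (h : sU a U ≤ r) :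
    yU b f p n' u U r ∈ GU G f U := by
  have hc : yU b f p n' u Uᶜ r ∈ C := AddSubgroup.sum_mem _ fun j hj =>
    Δ.A2' ((le_sU (Finset.mem_compl.mp hj)).trans h)
  refine ⟨?_, fun j hj => ?_⟩
  · have h1 := Δ.yU_add_compl U r
    have h2 : yU b f p n' u U r = (n' * p ^ r) • u - yU b f p n' u Uᶜ r := by
      rw [← h1]; abel
    rw [h2]
    exact G.sub_mem (G.nsmul_mem Δ.hu _) (Δ.R.le hc)
  · rw [Δ.f_yU, if_neg hj]

theorem single_mem (Δ : CData G C b f p n' e u a) {j : J} {q : ℚ} (hq : q • b j ∈ C) :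
    q • b j ∈ up G (b j) := ⟨Δ.R.le hq, (TypeLE.refl _ _).smul_right q⟩

/-- Every element of `G(U)` is, up to a factor prime to `p`, generated by `yU` and `C`. -/
theorem GU_gen (Δ : CData G C b f p n' e u a) {U : Finset J} {g : V} (hg : g ∈ GU G f U) :
    ∃ k : ℤ, n' • g - k • yU b f p n' u U (sU a U) ∈ C ∧
      n' • g - k • yU b f p n' u U (sU a U) ∈ GU G f U := by
  obtain ⟨c, hc, k, e⟩ := Δ.gen g hg.1
  have hdiv : ∀ j, j ∉ U → ((p ^ a j : ℕ) : ℤ) ∣ k := by
    intro j hj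
    apply Δ.A1 j k
    have h1 := hg.2 j hj
    rw [e, map_add, map_zsmul, zsmul_eq_mul] at h1
    have h2 : ((k : ℚ) * f j u) • b j = -(f j c • b j) := by
      rw [← neg_smul]
      congr 1
      linarith
    rw [h2]
    exact C.neg_mem (Δ.R.coord c hc j)
  have hdiv2 : ((p ^ sU a U : ℕ) : ℤ) ∣ k := by
    rcases Nat.eq_zero_or_pos (sU a U) with h | h
    · rw [h]; simp
    · obtain ⟨j, hj, hj2⟩ := Finset.exists_mem_eq_sup Uᶜ (by
        by_contra h2
        rw [Finset.not_nonempty_iff_eq_empty] at h2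
        rw [sU, h2, Finset.sup_empty] at h
        exact absurd h (by simp)) a
      rw [sU, hj2]
      exact hdiv j (Finset.mem_compl.mp hj)
  obtain ⟨k', hk'⟩ := hdiv2
  have key : n' • g - k' • yU b f p n' u U (sU a U) =
      n' • c + k' • yU b f p n' u Uᶜ (sU a U) := by
    have h1 := Δ.yU_add_compl U (sU a U)
    have h2 : n' • (k • u) = k' • ((n' * p ^ sU a U) • u) := by
      rw [hk', ← Int.cast_smul_eq_zsmul ℚ, ← Int.cast_smul_eq_zsmul ℚ, nsmul_eq, nsmul_eq,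
        smul_smul, smul_smul]
      congr 1
      push_cast
      ring
    rw [e, smul_add, h2, ← h1, smul_add]
    abel
  refine ⟨k', ?_, ?_⟩
  · rw [key]
    exact C.add_mem (C.nsmul_mem hc _) (C.zsmul_mem (AddSubgroup.sum_mem _ fun j hj =>
      Δ.A2' (le_sU (Finset.mem_compl.mp hj))) _)
  · exact AddSubgroup.sub_mem _ (AddSubgroup.nsmul_mem _ hg _)
      (AddSubgroup.zsmul_mem _ (Δ.yU_mem le_rfl) _)

/-- The regulating condition in terms of exponents. -/
theorem A5 (Δ : CData G C b f p n' e u a) (k : J) : a k ≤ sU a (upF G b (b k)) := by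
  set r := sU a (upF G b (b k)) with hr
  have h1 : yU b f p n' u (upF G b (b k)) r ∈ GU G f (upF G b (b k)) := Δ.yU_mem le_rfl
  rw [← up_eq_GU Δ.R] at h1
  have h2 := Δ.reg _ (Δ.R.bG k) (Δ.R.b_ne_zero k) h1
  obtain ⟨c, hc, z, hz, e⟩ := AddSubgroup.mem_sup.mp h2
  have hfz : f k z = 0 := by
    by_contra h
    exact ((Δ.R.mem_sharp_iff hz.1).mp hz k h).2 (TypeLE.refl _ _)
  have hfc : f k c = ((n' * p ^ r : ℕ) : ℚ) * f k u := by
    have h3 := Δ.f_yU (upF G b (b k)) r k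
    rw [if_pos (mem_upF.mpr (TypeLE.refl _ _)), ← e, map_add, hfz, add_zero] at h3
    exact h3
  have h4 := Δ.R.coord c hc k
  rw [hfc] at h4
  have h5 : ((p ^ a k : ℕ) : ℤ) ∣ ((n' * p ^ r : ℕ) : ℤ) := Δ.A1 k _ (by
    convert h4 using 3
    exact Int.cast_natCast _)
  have h6 : p ^ a k ∣ n' * p ^ r := by exact_mod_cast h5
  have h7 : p ^ a k ∣ p ^ r :=
    (Nat.Coprime.pow_left _ Δ.cop.symm).dvd_of_dvd_mul_left h6
  exact (Nat.pow_dvd_pow_iff_le_right Δ.hp.one_lt).mp h7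

/-- If `s = a i` and `a j ≤ s` unless `j` is above `i`, then nothing in the class of `i`
exceeds `s`. -/
theorem le_of_equiv (Δ : CData G C b f p n' e u a) {i k : J}
    (hi : ∀ j, ¬ TypeLE G (b i) G (b j) → a j ≤ a i) (hki : TypeLE G (b k) G (b i)) :
    a k ≤ a i := by
  by_cases h : TypeLE G (b i) G (b k)
  · refine (Δ.A5 k).trans (sU_le fun j hj => hi j fun h2 => hj ?_)
    exact mem_upF.mpr (hki.trans h2)
  · exact hi k h

end CData

end Pool.Agent.Lib.C8da183
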