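import Pool.Agent.Lib.C8da183.Breaks

/-!
# The regulating quotients of a group with a cyclic regulating quotient
-/

namespace Pool.Agent.Lib.C8da183

open scoped Classical

set_option linter.unusedSectionVars false

variable {V : Type*} [AddCommGroup V] [Module ℚ V]
variable {G C : AddSubgroup V}

theorem map_mk_index {X : Type*} [AddCommGroup X] {π : G →+ X} (hπ : Function.Surjective π)
    {L : AddSubgroup V} (hL : ∀ g (hg : g ∈ G), π ⟨g, hg⟩ = 0 → g ∈ L) :
    (im π L).index = L.relIndex G := by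
  unfold im
  rw [AddSubgroup.index_map_eq _ hπ]
  · rfl
  · rintro ⟨g, hg⟩ h
    exact AddSubgroup.mem_addSubgroupOf.mpr (hL g hg h)

theorem chain_of_regQuot {J : Type*} [Fintype J] [DecidableEq J] {b : J → V}
    {f : J → V →ₗ[ℚ] ℚ} {p n' e : ℕ} {u : V} {a : J → ℕ}
    (Δ : CData G C b f p n' e u a) (hn : C.relIndex G = p ^ e * n')
    (he : (C.relIndex G).factorization p = e) (hG : IsACD G) (hC : IsRegulating G C)
    {X : Type*} [AddCommGroup X] {K : AddSubgroup V} (hK : IsRegulating G K)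
    (φ : (G ⧸ K.addSubgroupOf G) ≃+ X) : HasCyclicChain X p (breaks G C p) := by
  set π : G →+ X := φ.toAddMonoidHom.comp (QuotientAddGroup.mk' _) with hπ
  have hsurj : Function.Surjective π := φ.surjective.comp (QuotientAddGroup.mk'_surjective _)
  have hker : ∀ g (hg : g ∈ G), π ⟨g, hg⟩ = 0 → g ∈ K := by
    intro g hg h
    have h1 : φ (QuotientAddGroup.mk' (K.addSubgroupOf G) ⟨g, hg⟩) = 0 := h
    rw [map_eq_zero_iff φ φ.injective, QuotientAddGroup.mk'_apply,
      QuotientAddGroup.eq_zero_iff, AddSubgroup.mem_addSubgroupOf] at h1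
    exact h1
  have hKG : K ≤ G := hK.le
  set P : AddSubgroup V := G.map (nsmulAddMonoidHom (α := V) (p ^ e)) with hP
  have hPG : P ≤ G := by
    rintro _ ⟨y, hy, rfl⟩
    exact G.nsmul_mem hy _
  have hPof : P.addSubgroupOf G = (nsmulAddMonoidHom (α := G) (p ^ e)).range := by
    ext y
    rw [AddSubgroup.mem_addSubgroupOf]
    constructor
    · rintro ⟨z, hz, e1⟩
      exact ⟨⟨z, hz⟩, Subtype.ext e1⟩
    · rintro ⟨z, rfl⟩
      exact ⟨z, z.2, rfl⟩
  have hidx : (K ⊔ P).relIndex G = p ^ e := by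
    have h0 := (hK.relIndex_eq hG hC)
    have h3 := index_sup_range (K.addSubgroupOf G) Δ.hp Δ.cop h0.2 (by
      have : (K.addSubgroupOf G).index = C.relIndex G := h0.1
      rw [this, hn])
    have h4 : (K.addSubgroupOf G).index = C.relIndex G := h0.1
    rw [h4, he] at h3
    unfold AddSubgroup.relIndex
    rw [AddSubgroup.addSubgroupOf_sup hKG hPG, hPof]
    exact h3
  have hpe : ∀ g ∈ G, p ^ e • g ∈ K ⊔ P := fun g hg =>
    le_sup_right (a := K) (b := P) ⟨g, hg, rfl⟩
  have hup : ∀ x ∈ G, x ≠ 0 → up G x ≤ (K ⊔ P) ⊔ sharp G x := fun x hx hx0 =>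
    (hK.up_le_sup hx hx0).trans (sup_le_sup_right le_sup_left _)
  have hKPG : K ⊔ P ≤ G := sup_le hKG hPG
  rw [Δ.breaks_eq hn he]
  set L : ℕ → AddSubgroup V := fun s => GU G f (brk G b a s) ⊔ (K ⊔ P) with hL
  have hKL : ∀ s, K ≤ L s := fun s => le_sup_left.trans le_sup_right
  refine ⟨fun s => im π (L s), ?_, ?_⟩
  · intro s hs
    simp only
    rw [map_mk_index hsurj (fun g hg h => hKL s (hker g hg h)), hL]
    simp only
    rw [Δ.relIndex_GU hpe hKPG hup hidx (isUp_brk a s), Δ.sU_brk hs]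
  · intro s hs t ht hst hcons
    constructor
    · apply im_mono
      refine sup_le_sup_right (GU_mono ?_) _
      intro j hj
      obtain ⟨k, hk, hk2⟩ := mem_brk.mp hj
      exact mem_brk.mpr ⟨k, hk, by omega⟩
    · obtain ⟨z, hz, hz2⟩ := Δ.exists_cyclic hpe hKPG hup hst hs (fun r hr hsr => by
        by_contra h
        exact hcons r hr ⟨hsr, by omega⟩)
      have hzG : z ∈ G := (sup_le (GU_le _) hKPG : L s ≤ G) hz
      refine ⟨π ⟨z, hzG⟩, (mem_im π).mpr ⟨z, hzG, hz, rfl⟩, ?_⟩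
      rw [im_le_iff]
      intro y hy hyL
      obtain ⟨y1, hy1, y2, ⟨k, hk⟩, e1⟩ := AddSubgroup.mem_sup.mp (hz2 hyL)
      have hk' : k • z = y2 := hk
      have hy1G : y1 ∈ G := (sup_le (GU_le _) hKPG : L t ≤ G) hy1
      rw [AddSubgroup.mem_sup]
      refine ⟨π ⟨y1, hy1G⟩, (mem_im π).mpr ⟨y1, hy1G, hy1, rfl⟩, k • π ⟨z, hzG⟩, ⟨k, rfl⟩, ?_⟩
      rw [← map_zsmul, ← map_add]
      congr 1
      apply Subtype.ext
      change y1 + k • z = y
      rw [hk', e1]

/-- Orthogonal idempotents modulo `n`. -/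
theorem exists_idem (n : ℕ) (hn : n ≠ 0) : ∃ ε : ℕ → ℕ, ∀ p, p.Prime →
    ε p ≡ 1 [MOD p ^ n.factorization p] ∧ n / p ^ n.factorization p ∣ ε p := by
  have : ∀ p, ∃ k : ℕ, p.Prime → k ≡ 1 [MOD p ^ n.factorization p] ∧
      n / p ^ n.factorization p ∣ k := by
    intro p
    by_cases hp : p.Prime
    · have hcop : Nat.Coprime (p ^ n.factorization p) (n / p ^ n.factorization p) :=
        (Nat.coprime_ordCompl hp hn).pow_left _
      obtain ⟨k, hk1, hk2⟩ := Nat.chineseRemainder hcop 1 0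
      exact ⟨k, fun _ => ⟨hk1, (Nat.modEq_zero_iff_dvd).mp hk2⟩⟩
    · exact ⟨0, fun h => absurd h hp⟩
  choose ε hε using this
  exact ⟨ε, hε⟩

theorem regQuot_of_chain (hG : IsACD G) (hC : IsRegulating G C)
    {J : Type*} [Fintype J] [DecidableEq J] {b : J → V} {f : J → V →ₗ[ℚ] ℚ}
    (R : Ref G C b f) {u : V} (hu : u ∈ G)
    (hgen : ∀ g ∈ G, ∃ c ∈ C, ∃ k : ℤ, g = c + k • u)
    (hord : ∀ k : ℤ, k • u ∈ C → (C.relIndex G : ℤ) ∣ k)
    {X : Type*} [AddCommGroup X] [Finite X] (hcard : Nat.card X = C.relIndex G)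
    (hch : ∀ p, p.Prime → HasCyclicChain X p (breaks G C p)) : RegQuot G X := by
  have hreg : ∀ x ∈ G, x ≠ 0 → up G x ≤ C ⊔ sharp G x := fun x hx hx0 => hC.up_le_sup hx hx0
  set n := C.relIndex G with hn
  have hn0 : n ≠ 0 := R.fin
  have hX : ∀ x : X, n • x = 0 := fun x => by
    rw [← hcard]; exact card_nsmul_eq_zero'
  have hXd : ∀ (m : ℕ) (x : X), n ∣ m → m • x = 0 := by
    rintro m x ⟨k, rfl⟩
    rw [mul_comm, mul_smul, hX, smul_zero]
  have hXd' : ∀ (k l : ℕ) (x : X), k ≡ l [MOD n] → k • x = l • x := by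
    intro k l x h
    rw [nsmul_eq_nsmul_iff_modEq]
    exact h.of_dvd (by rw [← hcard]; exact addOrderOf_dvd_natCard x)
  obtain ⟨ε, hε⟩ := exists_idem n hn0
  -- one prime
  have hone : ∀ p, p.Prime → ∃ π : G →+ X, (∀ g, ∃ x, π g = ε p • x) ∧
      (∀ x, ∃ g, π g = ε p • x) ∧
      ∀ x ∈ G, x ≠ 0 → im π (up G x) ≤ im π (sharp G x) := by
    intro p hp
    have hpf : Fact p.Prime := ⟨hp⟩
    obtain ⟨a, Δ⟩ := exists_cdata R hreg hu hgen hord hp
    set e := n.factorization p with he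
    set n' := n / p ^ e with hn'
    have hnn : p ^ e * n' = n := Nat.ordProj_mul_ordCompl_eq_self n p
    obtain ⟨hε1, hε2⟩ := hε p hp
    rcases Nat.eq_zero_or_pos e with he0 | he0
    · have hε0 : ∀ x : X, ε p • x = 0 := fun x => hXd _ x (by
        rw [← hnn, he0, pow_zero, one_mul]; exact hε2)
      refine ⟨0, fun g => ⟨0, by simp⟩, fun x => ⟨0, by rw [hε0]; simp⟩, fun x _ _ => ?_⟩
      rw [im_le_iff]
      intro y _ _
      exact AddSubgroup.zero_mem _
    · obtain ⟨Z, hZ1, hZ2⟩ := hch p hp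
      rw [Δ.breaks_eq hnn.symm rfl] at hZ1 hZ2
      have heSB : e ∈ SB G b a e := Or.inr (Or.inl rfl)
      have h0SB : 0 ∈ SB G b a e := Or.inl rfl
      -- successor
      have hnx : ∀ s, ∃ t, s < e → t ∈ SB G b a e ∧ s < t ∧ ∀ r ∈ SB G b a e, s < r → t ≤ r := by
        intro s
        by_cases hs : s < e
        · have hex : ∃ t, t ∈ SB G b a e ∧ s < t := ⟨e, heSB, hs⟩
          refine ⟨Nat.find hex, fun _ => ⟨(Nat.find_spec hex).1, (Nat.find_spec hex).2, ?_⟩⟩
          intro r hr hsr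
          exact Nat.find_min' hex ⟨hr, hsr⟩
        · exact ⟨0, fun h => absurd h hs⟩
      choose nx hnx using hnx
      have hz : ∀ s, ∃ z, s ∈ SB G b a e → s < e →
          z ∈ Z s ∧ Z s ≤ Z (nx s) ⊔ AddSubgroup.zmultiples z := by
        intro s
        by_cases hs : s ∈ SB G b a e ∧ s < e
        · obtain ⟨n1, n2, n3⟩ := hnx s hs.2
          obtain ⟨_, z, hz1, hz2⟩ := hZ2 s hs.1 (nx s) n1 n2 (fun r hr h => by
            have := n3 r hr h.1
            omega)
          exact ⟨z, fun _ _ => ⟨hz1, hz2⟩⟩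
        · exact ⟨0, fun h1 h2 => absurd ⟨h1, h2⟩ hs⟩
      choose z hz using hz
      set μ : X →+ X := nsmulAddMonoidHom (ε p) with hμ
      have hμx : ∀ x, μ x = ε p • x := fun x => rfl
      obtain ⟨π, hπ1, hπ2, hπ3⟩ := Δ.exists_pi he0 nx hnx (fun s => ε p • z s)
        (fun s => (Z s).map μ)
        (by
          intro s
          rw [smul_smul]
          apply hXd
          rw [← hnn]
          exact Nat.mul_dvd_mul_left _ hε2)
        (by
          intro s hs hse
          obtain ⟨n1, n2, n3⟩ := hnx s hse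
          obtain ⟨hz1, hz2⟩ := hz s hs hse
          have hle : Z (nx s) ≤ Z s := (hZ2 s hs (nx s) n1 n2 (fun r hr h => by
            have := n3 r hr h.1
            omega)).1
          refine ⟨⟨z s, hz1, rfl⟩, ?_, AddSubgroup.map_mono hle, ?_⟩
          · refine (AddSubgroup.map_mono hz2).trans ?_
            rw [AddSubgroup.map_sup, AddMonoidHom.map_zmultiples]
            exact le_rfl
          · have h1 := AddSubgroup.relIndex_mul_index hle
            rw [hZ1 s hs, hZ1 _ n1] at h1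
            have h2 : (Z (nx s)).relIndex (Z s) = p ^ (nx s - s) := by
              have h3 : p ^ nx s = p ^ (nx s - s) * p ^ s := by
                rw [← pow_add]; congr 1; omega
              rw [h3] at h1
              exact Nat.eq_of_mul_eq_mul_right (pow_pos hp.pos s) h1
            obtain ⟨_, h4⟩ := exists_nsmul_mem (G := Z s) (H := Z (nx s)) (by
              rw [h2]; exact (pow_pos hp.pos _).ne')
            have h5 := h4 _ hz1
            rw [h2] at h5
            rw [smul_comm]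
            exact ⟨_, h5, rfl⟩)
        (by
          rw [eq_bot_iff]
          rintro _ ⟨x, hx, rfl⟩
          rw [AddSubgroup.mem_bot, hμx]
          have h1 : Nat.card (Z e) * (Z e).index = Nat.card X := AddSubgroup.card_mul_index _
          rw [hZ1 e heSB, hcard, ← hnn, mul_comm] at h1
          have h2 : Nat.card (Z e) = n' := Nat.eq_of_mul_eq_mul_left (pow_pos hp.pos e) h1
          have h3 : n' • x = 0 := by
            have h4 : Nat.card (Z e) • (⟨x, hx⟩ : Z e) = 0 := card_nsmul_eq_zero'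
            rw [h2] at h4
            exact congrArg Subtype.val h4
          obtain ⟨k, hk⟩ := hε2
          rw [hk, mul_comm, mul_smul, h3, smul_zero])
      have hZ0 : Z 0 = ⊤ := by
        have := hZ1 0 h0SB
        rw [pow_zero, AddSubgroup.index_eq_one] at this
        exact this
      refine ⟨π, fun g => ?_, fun x => ?_, hπ3⟩
      · obtain ⟨x, _, hx⟩ := hπ1 g
        exact ⟨x, hx.symm⟩
      · exact hπ2 (ε p • x) ⟨x, by simp [hZ0], rfl⟩
  have hone' : ∀ p, ∃ π : G →+ X, p.Prime → (∀ g, ∃ x, π g = ε p • x) ∧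
      (∀ x, ∃ g, π g = ε p • x) ∧
      ∀ x ∈ G, x ≠ 0 → im π (up G x) ≤ im π (sharp G x) := by
    intro p
    by_cases hp : p.Prime
    · obtain ⟨π, h⟩ := hone p hp
      exact ⟨π, fun _ => h⟩
    · exact ⟨0, fun h => absurd h hp⟩
  choose π hπ using hone'
  -- relations between the idempotents
  have hprime : ∀ p ∈ n.primeFactors, p.Prime := fun p hp => Nat.prime_of_mem_primeFactors hp
  have hdvdq : ∀ p ∈ n.primeFactors, ∀ q ∈ n.primeFactors, p ≠ q →
      p ^ n.factorization p ∣ n / q ^ n.factorization q := by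
    intro p hp q hq hpq
    have h1 : p ^ n.factorization p ∣ q ^ n.factorization q * (n / q ^ n.factorization q) := by
      rw [Nat.ordProj_mul_ordCompl_eq_self]; exact Nat.ordProj_dvd n p
    refine Nat.Coprime.dvd_of_dvd_mul_left ?_ h1
    exact Nat.Coprime.pow _ _ ((Nat.coprime_primes (hprime p hp) (hprime q hq)).mpr hpq)
  have hεε : ∀ p ∈ n.primeFactors, ∀ q ∈ n.primeFactors, p ≠ q → n ∣ ε p * ε q := by
    intro p hp q hq hpq
    have h1 := (hε p (hprime p hp)).2
    have h2 := (hε q (hprime q hq)).2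
    calc n = (n / p ^ n.factorization p) * p ^ n.factorization p := by
          rw [mul_comm]; exact (Nat.ordProj_mul_ordCompl_eq_self n p).symm
      _ ∣ ε p * ε q := Nat.mul_dvd_mul h1 ((hdvdq p hp q hq hpq).trans h2)
  have hmod : ∀ k l : ℕ, (∀ p ∈ n.primeFactors, k ≡ l [MOD p ^ n.factorization p]) →
      k ≡ l [MOD n] := by
    intro k l h
    rw [Nat.modEq_iff_dvd]
    have h1 : ((∏ p ∈ n.primeFactors, p ^ n.factorization p : ℕ) : ℤ) ∣ (l : ℤ) - k := by
      rw [Nat.cast_prod]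
      apply Finset.prod_dvd_of_coprime
      · intro p hp q hq hpq
        exact Nat.isCoprime_iff_coprime.mpr
          (Nat.Coprime.pow _ _ ((Nat.coprime_primes (hprime p hp) (hprime q hq)).mpr hpq))
      · intro p hp
        exact (Nat.modEq_iff_dvd).mp (h p hp)
    have h2 : (∏ p ∈ n.primeFactors, p ^ n.factorization p : ℕ) = n :=
      Nat.prod_factorization_pow_eq_self hn0
    rwa [h2] at h1
  have hεid : ∀ p ∈ n.primeFactors, ε p * ε p ≡ ε p [MOD n] := by
    intro p hp
    apply hmod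
    intro q hq
    by_cases hpq : q = p
    · subst hpq
      have h1 := (hε q (hprime q hp)).1
      simpa using h1.mul_left (ε q)
    · have h1 : ε p ≡ 0 [MOD q ^ n.factorization q] :=
        (Nat.modEq_zero_iff_dvd).mpr ((hdvdq q hq p hp hpq).trans (hε p (hprime p hp)).2)
      exact (h1.mul_left (ε p)).trans h1.symm
  have hεsum : (∑ p ∈ n.primeFactors, ε p) ≡ 1 [MOD n] := by
    apply hmod
    intro p hp
    have h1 : (∑ q ∈ n.primeFactors, ε q) ≡ ∑ q ∈ n.primeFactors, (if q = p then 1 else 0)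
        [MOD p ^ n.factorization p] := by
      apply Nat.ModEq.sum
      intro q hq
      by_cases hpq : q = p
      · subst hpq
        rw [if_pos rfl]
        exact (hε q (hprime q hp)).1
      · rw [if_neg hpq]
        exact (Nat.modEq_zero_iff_dvd).mpr
          ((hdvdq p hp q hq (Ne.symm hpq)).trans (hε q (hprime q hq)).2)
    rw [Finset.sum_ite_eq' n.primeFactors p, if_pos hp] at h1
    exact h1
  -- actions on the images
  have act1 : ∀ p ∈ n.primeFactors, ∀ g, ε p • π p g = π p g := by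
    intro p hp g
    obtain ⟨x, hx⟩ := (hπ p (hprime p hp)).1 g
    rw [hx, smul_smul]
    exact hXd' _ _ x (hεid p hp)
  have act0 : ∀ p ∈ n.primeFactors, ∀ q ∈ n.primeFactors, p ≠ q → ∀ g, ε p • π q g = 0 := by
    intro p hp q hq hpq g
    obtain ⟨x, hx⟩ := (hπ q (hprime q hq)).1 g
    rw [hx, smul_smul]
    exact hXd _ x (hεε p hp q hq hpq)
  set Pt : G →+ X := ∑ p ∈ n.primeFactors, π p with hPt
  have hPtg : ∀ g, Pt g = ∑ p ∈ n.primeFactors, π p g := fun g => by
    rw [hPt]; exact AddMonoidHom.finsetSum_apply _ _ _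
  have hcomb : ∀ z : ℕ → G, Pt (∑ p ∈ n.primeFactors, ε p • z p) =
      ∑ p ∈ n.primeFactors, π p (z p) := by
    intro z
    rw [hPtg]
    refine Finset.sum_congr rfl fun q hq => ?_
    rw [map_sum, Finset.sum_eq_single q]
    · rw [map_nsmul, act1 q hq]
    · intro p hp hpq
      rw [map_nsmul, act0 p hp q hq hpq]
    · intro h; exact absurd hq h
  rw [regQuot_iff hG hC]
  refine ⟨hcard, Pt, ?_, ?_⟩
  · intro x
    have h1 : ∀ p, ∃ g, p ∈ n.primeFactors → π p g = ε p • x := by
      intro p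
      by_cases hp : p ∈ n.primeFactors
      · obtain ⟨g, hg⟩ := (hπ p (hprime p hp)).2.1 x
        exact ⟨g, fun _ => hg⟩
      · exact ⟨0, fun h => absurd h hp⟩
    choose g hg using h1
    refine ⟨∑ p ∈ n.primeFactors, ε p • g p, ?_⟩
    rw [hcomb]
    calc ∑ p ∈ n.primeFactors, π p (g p) = ∑ p ∈ n.primeFactors, ε p • x :=
          Finset.sum_congr rfl fun p hp => hg p hp
      _ = (∑ p ∈ n.primeFactors, ε p) • x := (Finset.sum_smul ..).symm
      _ = 1 • x := hXd' _ _ x hεsum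
      _ = x := one_smul _ x
  · intro x hx hx0
    change im Pt (up G x) ≤ im Pt (sharp G x)
    rw [im_le_iff]
    intro y hyG hy
    have h1 : ∀ p, ∃ z : G, (z : V) ∈ sharp G x ∧
        (p ∈ n.primeFactors → π p z = π p ⟨y, hyG⟩) := by
      intro p
      by_cases hp : p ∈ n.primeFactors
      · have h2 := (hπ p (hprime p hp)).2.2 x hx hx0
          ((mem_im (π p)).mpr ⟨y, hyG, hy, rfl⟩)
        obtain ⟨z, hzG, hz, e1⟩ := (mem_im (π p)).mp h2
        exact ⟨⟨z, hzG⟩, hz, fun _ => e1⟩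
      · exact ⟨0, AddSubgroup.zero_mem _, fun h => absurd h hp⟩
    choose z hz1 hz2 using h1
    have h3 : Pt ⟨y, hyG⟩ = Pt (∑ p ∈ n.primeFactors, ε p • z p) := by
      rw [hcomb, hPtg]
      exact (Finset.sum_congr rfl fun p hp => hz2 p hp).symm
    rw [h3, mem_im]
    refine ⟨_, (∑ p ∈ n.primeFactors, ε p • z p : G).2, ?_, rfl⟩
    rw [AddSubgroup.val_finsetSum]
    refine AddSubgroup.sum_mem _ fun p _ => ?_
    exact AddSubgroup.nsmul_mem _ (hz1 p) _

/-- The regulating quotients of `G` when `G / C` is cyclic: chain form. -/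
theorem regQuot_iff_chain (hG : IsACD G) (hC : IsRegulating G C)
    (hcyc : IsAddCyclic (G ⧸ C.addSubgroupOf G)) {X : Type*} [AddCommGroup X] [Finite X] :
    RegQuot G X ↔ Nat.card X = C.relIndex G ∧
      ∀ p, p.Prime → HasCyclicChain X p (breaks G C p) := by
  obtain ⟨J, _, _, b, f, R⟩ := hC.exists_ref hG
  obtain ⟨u, hu, hgen, hord⟩ := exists_gen hcyc
  have hreg : ∀ x ∈ G, x ≠ 0 → up G x ≤ C ⊔ sharp G x := fun x hx hx0 => hC.up_le_sup hx hx0
  constructor
  · intro h
    have h1 := ((regQuot_iff hG hC).mp h).1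
    refine ⟨h1, fun p hp => ?_⟩
    obtain ⟨K, hK, ⟨φ⟩⟩ := h
    obtain ⟨a, Δ⟩ := exists_cdata R hreg hu hgen hord hp
    exact chain_of_regQuot Δ (Nat.ordProj_mul_ordCompl_eq_self _ p).symm rfl hG hC hK φ
  · rintro ⟨h1, h2⟩
    exact regQuot_of_chain hG hC R hu hgen hord h1 h2

end Pool.Agent.Lib.C8da183
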