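import Pool.Agent.Lib.C8da183.RefC

/-!
# A criterion for regulating subgroups
-/

namespace Pool.Agent.Lib.C8da183

open scoped Classical

set_option linter.unusedSectionVars false

variable {V : Type*} [AddCommGroup V] [Module ℚ V] {G C : AddSubgroup V}

theorem isHomogCD_congr {H : AddSubgroup V} {x y : V} (h1 : TypeLE G x G y)
    (h2 : TypeLE G y G x) (h : IsHomogCD H G x) : IsHomogCD H G y := by
  obtain ⟨n, b, li, hb, ht, hd⟩ := h
  exact ⟨n, b, li, hb, fun k => ⟨(ht k).1.trans h1, h2.trans (ht k).2⟩, hd⟩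

/-- A subgroup `K` of finite index in `G` is regulating if and only if it has the right index and
`G(τ) ≤ K + G^#(τ)` for all types `τ`. -/
theorem isRegulating_iff_index (hG : IsACD G) (hC : IsRegulating G C) {K : AddSubgroup V}
    (hK : K ≤ G) : IsRegulating G K ↔
      K.relIndex G = C.relIndex G ∧ ∀ x ∈ G, x ≠ 0 → up G x ≤ K ⊔ sharp G x := by
  constructor
  · intro h
    exact ⟨(h.relIndex_eq hG hC).1, fun x hx hx0 => h.up_le_sup hx hx0⟩
  · rintro ⟨hidx, hup⟩
    have hC0 := (hC.relIndex_eq hG hC).2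
    have hK0 : K.relIndex G ≠ 0 := by rw [hidx]; exact hC0
    obtain ⟨D, hD, hCD⟩ := isRegulating_iff.mp hC
    set P : V → AddSubgroup V → Prop := fun x H =>
      IsHomogCD H G x ∧ H ⊔ sharp G x = up G x ∧ H ⊓ sharp G x = ⊥ ∧ H ≤ K with hP
    have hex : ∀ x ∈ G, x ≠ 0 → ∃ H, P x H := by
      intro x hx hx0
      obtain ⟨h1, h2, h3⟩ := hD.prop x hx hx0
      exact lift_homog h1 h2 h3 hK0 (hup x hx hx0)
    have hPeq : ∀ x ∈ G, ∀ y ∈ G, TypeLE G x G y → TypeLE G y G x → P x = P y := by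
      intro x _ y _ h1 h2
      ext H
      simp only [hP]
      rw [up_eq_of_equiv h1 h2, sharp_eq_of_equiv h1 h2]
      constructor
      · rintro ⟨a, b⟩; exact ⟨isHomogCD_congr h1 h2 a, b⟩
      · rintro ⟨a, b⟩; exact ⟨isHomogCD_congr h2 h1 a, b⟩
    set D' : V → AddSubgroup V := fun x => Classical.epsilon (P x) with hD'
    have hspec : ∀ x ∈ G, x ≠ 0 → P x (D' x) := fun x hx hx0 =>
      Classical.epsilon_spec (hex x hx hx0)
    have hfam : Fam G D' :=
      ⟨fun x hx hx0 => ⟨(hspec x hx hx0).1, (hspec x hx hx0).2.1, (hspec x hx hx0).2.2.1⟩,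
        fun x hx y hy _ _ h1 h2 => by rw [hD']; simp only; rw [hPeq x hx y hy h1 h2]⟩
    set C' : AddSubgroup V := ⨆ x : {x : V // x ∈ G ∧ x ≠ 0}, D' x with hC'
    have hreg : IsRegulating G C' := isRegulating_iff.mpr ⟨D', hfam, rfl⟩
    have hle : C' ≤ K := by
      refine iSup_le ?_
      rintro ⟨x, hx, hx0⟩
      exact (hspec x hx hx0).2.2.2
    have h1 := AddSubgroup.relIndex_mul_relIndex C' K G hle hK
    rw [(hreg.relIndex_eq hG hC).1, ← hidx] at h1
    have h2 : C'.relIndex K = 1 := by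
      have : C'.relIndex K * K.relIndex G = 1 * K.relIndex G := by rw [h1, one_mul]
      exact Nat.eq_of_mul_eq_mul_right (Nat.pos_of_ne_zero hK0) this
    rw [AddSubgroup.relIndex_eq_one] at h2
    rw [le_antisymm h2 hle]
    exact hreg

theorem addSubgroupOf_sup_of_le {A B K : AddSubgroup V} (hK : K ≤ G) (hB : B ≤ G)
    (h : A ≤ K ⊔ B) : A.addSubgroupOf G ≤ K.addSubgroupOf G ⊔ B.addSubgroupOf G := by
  rintro ⟨y, hyG⟩ hy
  rw [AddSubgroup.mem_addSubgroupOf] at hy
  obtain ⟨k, hk, z, hz, e⟩ := AddSubgroup.mem_sup.mp (h hy)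
  rw [AddSubgroup.mem_sup]
  exact ⟨⟨k, hK hk⟩, AddSubgroup.mem_addSubgroupOf.mpr hk, ⟨z, hB hz⟩,
    AddSubgroup.mem_addSubgroupOf.mpr hz, Subtype.ext e⟩

/-- Regulating quotients in terms of epimorphisms. -/
theorem regQuot_iff (hG : IsACD G) (hC : IsRegulating G C) {X : Type*} [AddCommGroup X]
    [Finite X] : RegQuot G X ↔ Nat.card X = C.relIndex G ∧
      ∃ π : G →+ X, Function.Surjective π ∧ ∀ x ∈ G, x ≠ 0 →
        ((up G x).addSubgroupOf G).map π ≤ ((sharp G x).addSubgroupOf G).map π := by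
  constructor
  · rintro ⟨K, hK, ⟨e⟩⟩
    have h1 := ((isRegulating_iff_index hG hC hK.le).mp hK)
    have hcard : Nat.card X = K.relIndex G := by
      rw [← Nat.card_congr e.toEquiv]; rfl
    refine ⟨hcard.trans h1.1, e.toAddMonoidHom.comp (QuotientAddGroup.mk' _), ?_, ?_⟩
    · exact e.surjective.comp (QuotientAddGroup.mk'_surjective _)
    · intro x hx hx0
      rw [AddSubgroup.map_le_iff_le_comap]
      refine (addSubgroupOf_sup_of_le hK.le sharp_le (h1.2 x hx hx0)).trans ?_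
      refine sup_le ?_ ?_
      · intro y hy
        rw [AddSubgroup.mem_comap]
        have : (e.toAddMonoidHom.comp (QuotientAddGroup.mk' (K.addSubgroupOf G))) y = 0 := by
          have h2 : (QuotientAddGroup.mk' (K.addSubgroupOf G)) y = 0 := by
            rw [QuotientAddGroup.mk'_apply, QuotientAddGroup.eq_zero_iff]; exact hy
          rw [AddMonoidHom.comp_apply, h2, map_zero]
        rw [this]
        exact AddSubgroup.zero_mem _
      · exact AddSubgroup.le_comap_map _ _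
  · rintro ⟨hcard, π, hsurj, hup⟩
    set K : AddSubgroup V := π.ker.map G.subtype with hKdef
    have hKG : K ≤ G := by
      rintro _ ⟨y, _, rfl⟩
      exact y.2
    have hKof : K.addSubgroupOf G = π.ker := by
      ext y
      rw [AddSubgroup.mem_addSubgroupOf, hKdef, AddSubgroup.mem_map]
      constructor
      · rintro ⟨z, hz, e⟩
        rwa [← Subtype.ext e]
      · intro h; exact ⟨y, h, rfl⟩
    have equiv : (G ⧸ K.addSubgroupOf G) ≃+ X := by
      rw [hKof]
      exact QuotientAddGroup.quotientKerEquivOfSurjective π hsurj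
    refine ⟨K, ?_, ⟨equiv⟩⟩
    rw [isRegulating_iff_index hG hC hKG]
    refine ⟨?_, fun x hx hx0 => ?_⟩
    · rw [← hcard, ← Nat.card_congr equiv.toEquiv]; rfl
    · intro y hy
      have hyG : y ∈ G := up_le hy
      have h2 : π ⟨y, hyG⟩ ∈ ((up G x).addSubgroupOf G).map π :=
        ⟨⟨y, hyG⟩, AddSubgroup.mem_addSubgroupOf.mpr hy, rfl⟩
      obtain ⟨z, hz, e⟩ := hup x hx hx0 h2
      have hz' : (z : V) ∈ sharp G x := AddSubgroup.mem_addSubgroupOf.mp hz
      rw [AddSubgroup.mem_sup]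
      refine ⟨y - z, ⟨⟨y, hyG⟩ - z, ?_, rfl⟩, z, hz', by abel⟩
      change π (⟨y, hyG⟩ - z) = 0
      rw [map_sub, e, sub_self]

end Pool.Agent.Lib.C8da183
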