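import Mathlib

/-!
# Finite abelian groups are pure-injective
-/

namespace Pool.Agent.Lib.C8da183

open CharacterModule in
theorem extend_zmod {B : Type*} [AddCommGroup B] (A : AddSubgroup B)
    (htf : ∀ (k : ℕ) (x : B), k ≠ 0 → k • x ∈ A → x ∈ A) (N : ℕ) (hN : N ≠ 0)
    (δ : A →+ ZMod N) : ∃ Δ : B →+ ZMod N, ∀ a : A, Δ a = δ a := by
  have hNQ : (N : ℚ) ≠ 0 := by exact_mod_cast hN
  set T := AddCircle (1 : ℚ) with hT
  set t0 : T := (((N : ℚ)⁻¹ : ℚ) : T) with ht0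
  have hNt0 : N • t0 = 0 := by
    rw [ht0, ← AddCircle.coe_nsmul, nsmul_eq_mul, mul_inv_cancel₀ hNQ]
    exact AddCircle.coe_period 1
  set ι : ZMod N →+ T := ZMod.lift N ⟨zmultiplesHom T t0, by
    rw [zmultiplesHom_apply, natCast_zsmul]; exact hNt0⟩ with hι
  have hιk : ∀ k : ℤ, ι (k : ZMod N) = k • t0 := fun k => by
    rw [hι, ZMod.lift_coe]; rfl
  have hιtors : ∀ z, N • ι z = 0 := by
    intro z
    obtain ⟨k, rfl⟩ := ZMod.intCast_surjective z
    rw [hιk, smul_comm, hNt0, smul_zero]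
  have hιinj : Function.Injective ι := by
    rw [injective_iff_map_eq_zero]
    intro z hz
    obtain ⟨k, rfl⟩ := ZMod.intCast_surjective z
    rw [hιk, ht0, ← AddCircle.coe_zsmul, AddCircle.coe_eq_zero_iff] at hz
    obtain ⟨m, hm⟩ := hz
    rw [ZMod.intCast_zmod_eq_zero_iff_dvd]
    refine ⟨m, ?_⟩
    have h1 : (m : ℚ) = k * (N : ℚ)⁻¹ := by simpa using hm
    have h2 : (k : ℚ) = N * m := by rw [h1]; field_simp
    exact_mod_cast h2
  have hιsurj : ∀ t : T, N • t = 0 → ∃ z, ι z = t := by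
    intro t ht
    obtain ⟨q, rfl⟩ := QuotientAddGroup.mk_surjective t
    change N • ((q : ℚ) : T) = 0 at ht
    rw [← AddCircle.coe_nsmul, AddCircle.coe_eq_zero_iff] at ht
    obtain ⟨m, hm⟩ := ht
    refine ⟨(m : ZMod N), ?_⟩
    rw [hιk, ht0, ← AddCircle.coe_zsmul]
    change ((_ : ℚ) : T) = ((q : ℚ) : T)
    congr 1
    have h1 : (m : ℚ) = N * q := by simpa using hm
    rw [zsmul_eq_mul, h1]
    field_simp
  -- extend the character `ι ∘ δ`
  obtain ⟨Χ, hΧ⟩ := dual_surjective_of_injective (R := ℤ) (A.subtype.toIntLinearMap)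
    (Subtype.val_injective) (ι.comp δ : A →+ T)
  have hΧ' : ∀ a : A, (Χ : B →+ T) a = ι (δ a) := fun a => DFunLike.congr_fun hΧ a
  -- `N Χ` factors through `B / A`
  set X' : (B ⧸ A) →+ T := QuotientAddGroup.lift A (N • (Χ : B →+ T)) (by
    intro a ha
    change N • (Χ : B →+ T) a = 0
    rw [hΧ' ⟨a, ha⟩]
    exact hιtors _) with hX'
  have hinj : Function.Injective ((nsmulAddMonoidHom (α := B ⧸ A) N).toIntLinearMap) := by
    rw [injective_iff_map_eq_zero]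
    intro x hx
    obtain ⟨b, rfl⟩ := QuotientAddGroup.mk_surjective x
    change N • (b : B ⧸ A) = 0 at hx
    rw [← QuotientAddGroup.mk_nsmul, QuotientAddGroup.eq_zero_iff] at hx
    rw [QuotientAddGroup.eq_zero_iff]
    exact htf N b hN hx
  obtain ⟨X'', hX''⟩ := dual_surjective_of_injective (R := ℤ) _ hinj (X' : (B ⧸ A) →+ T)
  have hX3 : ∀ x : B ⧸ A, (X'' : (B ⧸ A) →+ T) (N • x) = X' x := fun x =>
    DFunLike.congr_fun hX'' x
  let Y1 : B →+ T := Χ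
  let Y2 : (B ⧸ A) →+ T := X''
  set E : B →+ T := Y1 - Y2.comp (QuotientAddGroup.mk' A) with hE
  have hEA : ∀ a : A, E a = ι (δ a) := by
    intro a
    have h1 : QuotientAddGroup.mk' A (a : B) = 0 := by
      rw [QuotientAddGroup.mk'_apply, QuotientAddGroup.eq_zero_iff]; exact a.2
    rw [hE, AddMonoidHom.sub_apply, AddMonoidHom.comp_apply, h1, map_zero, sub_zero]
    exact hΧ' a
  have hEN : ∀ x, N • E x = 0 := by
    intro x
    have h2 : Y2 (N • QuotientAddGroup.mk' A x) = N • Y1 x := hX3 _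
    rw [hE, AddMonoidHom.sub_apply, AddMonoidHom.comp_apply, smul_sub, ← map_nsmul Y2, h2,
      sub_self]
  have h1 : ∀ x, ∃ z, ι z = E x := fun x => hιsurj _ (hEN x)
  choose F hF using h1
  refine ⟨AddMonoidHom.mk' F (fun x y => hιinj (by rw [map_add, hF, hF, hF, map_add])), ?_⟩
  intro a
  apply hιinj
  change ι (F a) = _
  rw [hF, hEA]

/-- Homomorphisms into a finite group extend from a subgroup with torsion-free quotient. -/
theorem exists_extension {B : Type*} [AddCommGroup B] (A : AddSubgroup B)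
    (htf : ∀ (k : ℕ) (x : B), k ≠ 0 → k • x ∈ A → x ∈ A) {Y : Type*} [AddCommGroup Y] [Finite Y]
    (δ : A →+ Y) : ∃ Δ : B →+ Y, ∀ a : A, Δ a = δ a := by
  classical
  obtain ⟨ι, _, n, hn, ⟨φ⟩⟩ := AddCommGroup.equiv_directSum_zmod_of_finite' Y
  set ψ : Y ≃+ (∀ i, ZMod (n i)) := φ.trans (DirectSum.addEquivProd _) with hψ
  have h1 : ∀ i, ∃ Δ : B →+ ZMod (n i), ∀ a : A, Δ a = ψ (δ a) i := by
    intro i
    obtain ⟨Δ, hΔ⟩ := extend_zmod A htf (n i) (by have := hn i; omega)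
      ((Pi.evalAddMonoidHom _ i).comp (ψ.toAddMonoidHom.comp δ))
    exact ⟨Δ, hΔ⟩
  choose Δ hΔ using h1
  refine ⟨ψ.symm.toAddMonoidHom.comp (AddMonoidHom.pi Δ), fun a => ?_⟩
  change ψ.symm (fun i => Δ i a) = δ a
  rw [AddEquiv.symm_apply_eq]
  ext i
  exact hΔ i a

/-- Lifting a homomorphism on a torsion-free quotient. -/
theorem exists_lift {G X : Type*} [AddCommGroup G] [AddCommGroup X] (H : AddSubgroup G)
    (htf : ∀ (k : ℕ) (x : G), k ≠ 0 → k • x ∈ H → x ∈ H) (Y : AddSubgroup X) [Finite Y]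
    (πH : H →+ Y) (ρ : G →+ X ⧸ Y) (hρ : ∀ h : H, ρ h = 0) :
    ∃ π : G →+ X, (∀ h : H, π h = πH h) ∧ ∀ g, (π g : X ⧸ Y) = ρ g := by
  set E : AddSubgroup (X × G) := ((QuotientAddGroup.mk' Y).comp (AddMonoidHom.fst X G) -
    ρ.comp (AddMonoidHom.snd X G)).ker with hE
  have memE : ∀ x g, (x, g) ∈ E ↔ (x : X ⧸ Y) = ρ g := by
    intro x g
    rw [hE, AddMonoidHom.mem_ker, AddMonoidHom.sub_apply, sub_eq_zero]
    rfl
  set A : AddSubgroup E := ((Y.prod H).addSubgroupOf E) with hA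
  have memA : ∀ v : E, v ∈ A ↔ (v : X × G).1 ∈ Y ∧ (v : X × G).2 ∈ H := by
    intro v
    rw [hA, AddSubgroup.mem_addSubgroupOf, AddSubgroup.mem_prod]
  have htfA : ∀ (k : ℕ) (v : E), k ≠ 0 → k • v ∈ A → v ∈ A := by
    rintro k ⟨⟨x, g⟩, hv⟩ hk hkv
    rw [memA] at hkv ⊢
    have h1 : g ∈ H := htf k g hk hkv.2
    refine ⟨?_, h1⟩
    have h2 := (memE x g).mp hv
    rw [hρ ⟨g, h1⟩, QuotientAddGroup.eq_zero_iff] at h2
    exact h2
  set δ : A →+ Y := AddMonoidHom.mk' (fun v =>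
      (⟨(v : E).1.1, ((memA v).mp v.2).1⟩ : Y) - πH ⟨(v : E).1.2, ((memA v).mp v.2).2⟩)
    (by
      intro v w
      have h1 : (⟨((v + w : A) : E).1.1, ((memA (v + w : A)).mp (v + w).2).1⟩ : Y) =
          ⟨(v : E).1.1, ((memA v).mp v.2).1⟩ + ⟨(w : E).1.1, ((memA w).mp w.2).1⟩ :=
        Subtype.ext rfl
      have h2 : (⟨((v + w : A) : E).1.2, ((memA (v + w : A)).mp (v + w).2).2⟩ : H) =
          ⟨(v : E).1.2, ((memA v).mp v.2).2⟩ + ⟨(w : E).1.2, ((memA w).mp w.2).2⟩ :=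
        Subtype.ext rfl
      rw [h1, h2, map_add]
      abel) with hδ
  obtain ⟨r, hr⟩ := exists_extension A htfA δ
  have hex : ∀ g, ∃ x : X, (x : X ⧸ Y) = ρ g := fun g => QuotientAddGroup.mk_surjective (ρ g)
  choose s hs using hex
  -- the value does not depend on the choice
  have hval : ∀ (x : X) (g : G) (h : (x : X ⧸ Y) = ρ g),
      x - (r ⟨(x, g), (memE x g).mpr h⟩ : Y) =
        s g - (r ⟨(s g, g), (memE _ g).mpr (hs g)⟩ : Y) := by
    intro x g h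
    have hy : x - s g ∈ Y := by
      rw [← QuotientAddGroup.eq_zero_iff, QuotientAddGroup.mk_sub, h, hs, sub_self]
    have h0 : ((x - s g, (0 : G)) : X × G) ∈ E := by
      rw [memE, map_zero]
      exact (QuotientAddGroup.eq_zero_iff _).mpr hy
    have hA0 : (⟨(x - s g, 0), h0⟩ : E) ∈ A := (memA _).mpr ⟨hy, H.zero_mem⟩
    have e1 : (⟨(x, g), (memE x g).mpr h⟩ : E) =
        ⟨(s g, g), (memE _ g).mpr (hs g)⟩ + ⟨(x - s g, 0), h0⟩ := by
      apply Subtype.ext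
      change ((x, g) : X × G) = (s g, g) + (x - s g, 0)
      ext <;> simp
    have e2 : r ⟨(x - s g, 0), h0⟩ = (⟨x - s g, hy⟩ : Y) := by
      rw [hr ⟨_, hA0⟩]
      change (⟨x - s g, _⟩ : Y) - πH ⟨0, _⟩ = _
      have : (⟨0, ((memA _).mp hA0).2⟩ : H) = 0 := rfl
      rw [this, map_zero, sub_zero]
    rw [e1, map_add, e2, AddSubgroup.coe_add]
    change x - (_ + (x - s g)) = _
    abel
  refine ⟨AddMonoidHom.mk' (fun g => s g - (r ⟨(s g, g), (memE _ g).mpr (hs g)⟩ : Y)) ?_,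
    ?_, ?_⟩
  · intro g g'
    have h1 : ((s g + s g' : X) : X ⧸ Y) = ρ (g + g') := by
      rw [QuotientAddGroup.mk_add, hs, hs, map_add]
    rw [← hval (s g + s g') (g + g') h1]
    have e1 : (⟨(s g + s g', g + g'), (memE _ _).mpr h1⟩ : E) =
        ⟨(s g, g), (memE _ g).mpr (hs g)⟩ + ⟨(s g', g'), (memE _ g').mpr (hs g')⟩ := rfl
    rw [e1, map_add, AddSubgroup.coe_add]
    abel
  · intro h
    change s h - (r ⟨(s h, h), _⟩ : Y) = _
    have h1 : (((πH h : Y) : X) : X ⧸ Y) = ρ h := by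
      rw [hρ, QuotientAddGroup.eq_zero_iff]
      exact (πH h).2
    rw [← hval _ _ h1]
    have hA0 : (⟨((πH h : Y), (h : G)), (memE _ _).mpr h1⟩ : E) ∈ A :=
      (memA _).mpr ⟨(πH h).2, h.2⟩
    rw [hr ⟨_, hA0⟩]
    change ((πH h : Y) : X) - (((⟨(πH h : Y), _⟩ : Y) - πH ⟨h, _⟩ : Y) : X) = _
    have : (⟨(h : G), ((memA _).mp hA0).2⟩ : H) = h := rfl
    rw [this]
    simp
  · intro g
    obtain ⟨y, hy⟩ : ∃ y : Y, y = r ⟨(s g, g), (memE _ g).mpr (hs g)⟩ := ⟨_, rfl⟩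
    change ((s g - (r ⟨(s g, g), (memE _ g).mpr (hs g)⟩ : Y) : X) : X ⧸ Y) = ρ g
    rw [← hy, QuotientAddGroup.mk_sub, hs, sub_eq_self, QuotientAddGroup.eq_zero_iff]
    exact y.2

end Pool.Agent.Lib.C8da183
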