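import Pool.Agent.Lib.C8da183.DefsO
import Pool.Agent.Lib.C8da183.CData
import Pool.Agent.Lib.C8da183.PureInj

/-!
# Cuts and regulating subgroups
-/

namespace Pool.Agent.Lib.C8da183

open scoped Classical

set_option linter.unusedSectionVars false

variable {V : Type*} [AddCommGroup V] [Module ℚ V]

theorem sum_sub {J M : Type*} [Fintype J] [AddCommMonoid M] (P : J → Prop)
    [Fintype {j // P j}] (F : J → M) (h : ∀ j, ¬ P j → F j = 0) : ∑ j, F j = ∑ j : {j // P j}, F j := by
  rw [← Finset.sum_subtype (Finset.univ.filter P) (by simp) F]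
  exact (Finset.sum_filter_of_ne (fun j _ hj => by_contra fun hp => hj (h j hp))).symm

theorem isHomogCD_of_fintype {H G : AddSubgroup V} {x : V} {I : Type*} [Fintype I] {b : I → V}
    (li : LinearIndependent ℚ b) (hb : ∀ k, b k ∈ H)
    (ht : ∀ k, TypeLE H (b k) G x ∧ TypeLE G x H (b k))
    (hd : ∀ h ∈ H, ∃ q : I → ℚ, (∀ k, q k • b k ∈ H) ∧ h = ∑ k, q k • b k) :
    IsHomogCD H G x := by
  set e := (Fintype.equivFin I).symm
  refine ⟨Fintype.card I, b ∘ e, li.comp _ e.injective, fun k => hb _, fun k => ht _,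
    fun h hh => ?_⟩
  obtain ⟨q, hq, e1⟩ := hd h hh
  refine ⟨q ∘ e, fun k => hq _, ?_⟩
  rw [e1]
  exact (Equiv.sum_comp e fun k => q k • b k).symm

theorem isCD_of_fintype {H : AddSubgroup V} {I : Type*} [Fintype I] {b : I → V}
    (li : LinearIndependent ℚ b) (hb : ∀ k, b k ∈ H)
    (hd : ∀ h ∈ H, ∃ q : I → ℚ, (∀ k, q k • b k ∈ H) ∧ h = ∑ k, q k • b k) :
    IsCD H := by
  set e := (Fintype.equivFin I).symm
  refine ⟨Fintype.card I, b ∘ e, li.comp _ e.injective, fun k => hb _, fun h hh => ?_⟩
  obtain ⟨q, hq, e1⟩ := hd h hh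
  refine ⟨q ∘ e, fun k => hq _, ?_⟩
  rw [e1]
  exact (Equiv.sum_comp e fun k => q k • b k).symm

namespace Ref

variable {G C : AddSubgroup V} {J : Type*} [Fintype J] [DecidableEq J] {b : J → V}
  {f : J → V →ₗ[ℚ] ℚ}

theorem li (R : Ref G C b f) : LinearIndependent ℚ b := by
  rw [Fintype.linearIndependent_iff]
  intro g hg j
  have := R.f_sum g j
  rw [hg, map_zero] at this
  exact this.symm

theorem isACD (R : Ref G C b f) : IsACD G :=
  ⟨C, R.le, isCD_of_fintype R.li R.mem fun c hc => ⟨fun j => f j c, fun j => R.coord c hc j,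
    R.expand c (R.le hc)⟩, R.fin⟩

/-- A completely decomposable subgroup of finite index satisfying the regulating condition is
regulating. -/
theorem isRegulating (R : Ref G C b f) (hreg : ∀ j, up G (b j) ≤ C ⊔ sharp G (b j)) :
    IsRegulating G C := by
  set D : V → AddSubgroup V := fun x =>
    { carrier := {k | k ∈ C ∧ ∀ j, f j k ≠ 0 → TypeLE G x G (b j) ∧ TypeLE G (b j) G x}
      add_mem' := by
        rintro k l ⟨hk, hk2⟩ ⟨hl, hl2⟩
        refine ⟨C.add_mem hk hl, fun j hj => ?_⟩
        by_cases h : f j k = 0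
        · exact hl2 j (fun h2 => hj (by rw [map_add, h, h2, add_zero]))
        · exact hk2 j h
      zero_mem' := ⟨C.zero_mem, fun j hj => absurd (map_zero _) hj⟩
      neg_mem' := by
        rintro k ⟨hk, hk2⟩
        exact ⟨C.neg_mem hk, fun j hj => hk2 j (fun h => hj (by rw [map_neg, h, neg_zero]))⟩ }
    with hD
  have memD : ∀ x k, k ∈ D x ↔ k ∈ C ∧ ∀ j, f j k ≠ 0 →
      TypeLE G x G (b j) ∧ TypeLE G (b j) G x := fun x k => Iff.rfl
  have hsingle : ∀ x j, (TypeLE G x G (b j) ∧ TypeLE G (b j) G x) → ∀ q : ℚ, q • b j ∈ C →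
      q • b j ∈ D x := by
    intro x j hj q hq
    refine ⟨hq, fun i hi => ?_⟩
    rw [map_smul, R.dual] at hi
    by_cases hij : i = j
    · rw [hij]; exact hj
    · rw [if_neg hij, smul_zero] at hi
      exact absurd rfl hi
  have hDup : ∀ x, D x ≤ up G x := by
    intro x k hk
    rw [R.mem_up_iff (R.le hk.1)]
    exact fun j hj => (hk.2 j hj).1
  refine ⟨D, ?_, ?_, ?_⟩
  · intro x hx hx0
    refine ⟨?_, ?_, ?_⟩
    · refine isHomogCD_of_fintype
        (b := fun j : {j // TypeLE G x G (b j) ∧ TypeLE G (b j) G x} => b j)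
        (R.li.comp _ Subtype.val_injective) ?_ ?_ ?_
      · rintro ⟨j, hj⟩
        have := hsingle x j hj 1 (by rw [one_smul]; exact R.mem j)
        rwa [one_smul] at this
      · rintro ⟨j, hj⟩
        constructor
        · obtain ⟨n, hn, h⟩ := hj.2
          exact ⟨n, hn, fun q hq => h q (R.le hq.1)⟩
        · obtain ⟨m, hm, h1, h2⟩ := R.exists_m
          obtain ⟨n, hn, h⟩ := hj.1
          refine ⟨m * n, Nat.mul_pos hm hn, fun q hq => ?_⟩
          have h3 := h1 _ (h q hq)
          have h4 : q • ((m * n) • b j) = m • (q • (n • b j)) := by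
            rw [mul_smul, smul_comm q m]
          change q • ((m * n) • b j) ∈ D x
          have h5 : q • ((m * n) • b j) = (q * ((m * n : ℕ) : ℚ)) • b j := by
            rw [nsmul_eq, smul_smul]
          rw [h5]
          refine hsingle x j hj _ ?_
          rw [← h5, h4]
          exact h3
      · intro k hk
        refine ⟨fun j => f j k, fun j => hsingle x j j.2 _ (R.coord k hk.1 j), ?_⟩
        conv_lhs => rw [R.expand k (R.le hk.1)]
        refine sum_sub (fun j => TypeLE G x G (b j) ∧ TypeLE G (b j) G x)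
          (fun j => f j k • b j) fun j hj => ?_
        have : f j k = 0 := by
          by_contra h
          exact hj (hk.2 j h)
        simp only [this, zero_smul]
    · apply le_antisymm
      · exact sup_le (hDup x) sharp_le_up
      · intro y hy
        by_cases hex : ∃ j, TypeLE G x G (b j) ∧ TypeLE G (b j) G x
        · obtain ⟨j, h1, h2⟩ := hex
          rw [up_eq_of_equiv h1 h2] at hy
          obtain ⟨k, hk, z, hz, e⟩ := AddSubgroup.mem_sup.mp (hreg j hy)
          rw [sharp_eq_of_equiv h1 h2]
          have hkup : k ∈ up G (b j) := by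
            have : k = y - z := by rw [← e]; abel
            rw [this]
            exact AddSubgroup.sub_mem _ hy (sharp_le_up hz)
          have hkG := R.le hk
          rw [← e, R.expand k hkG]
          refine AddSubgroup.add_mem _ ?_ (le_sup_right (a := D x) hz)
          refine AddSubgroup.sum_mem _ fun l _ => ?_
          by_cases hl : f l k = 0
          · rw [hl, zero_smul]; exact AddSubgroup.zero_mem _
          have hjl : TypeLE G (b j) G (b l) := (R.mem_up_iff hkG).mp hkup l hl
          have hCl := R.coord k hk l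
          by_cases hlj : TypeLE G (b l) G (b j)
          · exact le_sup_left (a := D x) (hsingle x l ⟨h1.trans hjl, hlj.trans h2⟩ _ hCl)
          · refine le_sup_right (a := D x) ?_
            rw [R.mem_sharp_iff (R.le hCl)]
            intro i hi
            rw [map_smul, R.dual] at hi
            by_cases hil : i = l
            · rw [hil]; exact ⟨hjl, hlj⟩
            · rw [if_neg hil, smul_zero] at hi
              exact absurd rfl hi
        · refine le_sup_right (a := D x) ?_
          rw [R.mem_sharp_iff hy.1]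
          intro j hj
          have h1 := (R.mem_up_iff hy.1).mp hy j hj
          exact ⟨h1, fun h2 => hex ⟨j, h1, h2⟩⟩
    · rw [eq_bot_iff]
      rintro y ⟨hy1, hy2⟩
      rw [AddSubgroup.mem_bot]
      refine R.ext' hy2.1 G.zero_mem fun j => ?_
      rw [map_zero]
      by_contra h
      exact ((R.mem_sharp_iff hy2.1).mp hy2 j h).2 (hy1.2 j h).2
  · intro x _ y _ _ _ h1 h2
    ext k
    rw [memD, memD]
    refine and_congr_right fun _ => forall_congr' fun j => forall_congr' fun _ => ?_
    exact ⟨fun h => ⟨h2.trans h.1, h.2.trans h1⟩, fun h => ⟨h1.trans h.1, h.2.trans h2⟩⟩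
  · apply le_antisymm
    · intro k hk
      rw [R.expand k (R.le hk)]
      refine AddSubgroup.sum_mem _ fun j _ => ?_
      exact (le_iSup (fun x : {x : V // x ∈ G ∧ x ≠ 0} => D x) ⟨b j, R.bG j, R.b_ne_zero j⟩)
        (hsingle (b j) j ⟨TypeLE.refl _ _, TypeLE.refl _ _⟩ _ (R.coord k hk j))
    · refine iSup_le ?_
      rintro ⟨x, _⟩ k hk
      exact hk.1

end Ref

end Pool.Agent.Lib.C8da183
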