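import Pool.Agent.Lib.C8da183.Cut

/-!
# Regulating subgroups and cuts
-/

namespace Pool.Agent.Lib.C8da183

open scoped Classical

set_option linter.unusedSectionVars false

variable {V : Type*} [AddCommGroup V] [Module ℚ V]

section

variable {G K H : AddSubgroup V} {J : Type*} [Fintype J] [DecidableEq J] {b : J → V}
  {f : J → V →ₗ[ℚ] ℚ}

theorem Ref.not_mem_sharp (R : Ref G K b f) (j : J) : b j ∉ sharp G (b j) := by
  intro h
  refine ((R.mem_sharp_iff (R.bG j)).mp h j ?_).2 (TypeLE.refl _ _)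
  rw [R.dual, if_pos rfl]; exact one_ne_zero

theorem cut_up (R : Ref G K b f) (hcut : IsCut G H) {j : J} (hj : b j ∈ H) :
    up G (b j) ≤ H := by
  rcases hcut.2.2 _ (R.bG j) (R.b_ne_zero j) with h | h
  · exact h
  · exact absurd (h hj) (R.not_mem_sharp j)

theorem cut_sharp (R : Ref G K b f) (hcut : IsCut G H) {j : J} (hj : b j ∉ H) :
    H ≤ sharp G (b j) := by
  rcases hcut.2.2 _ (R.bG j) (R.b_ne_zero j) with h | h
  · exact absurd (h (self_mem_up (R.bG j))) hj
  · exact h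

theorem cut_f (R : Ref G K b f) (hcut : IsCut G H) {j : J} (hj : b j ∉ H) {h : V} (hh : h ∈ H) :
    f j h = 0 := by
  by_contra h0
  have h1 := cut_sharp R hcut hj hh
  exact ((R.mem_sharp_iff h1.1).mp h1 j h0).2 (TypeLE.refl _ _)

theorem cut_smul (hcut : IsCut G H) {x : V} (hx : x ∈ H) {q : ℚ} (hq : q • x ∈ G) :
    q • x ∈ H := by
  apply hcut.2.1 _ hq q.den q.den_ne_zero
  have : q.den • (q • x) = q.num • x := by
    rw [nsmul_eq, smul_smul, mul_comm, Rat.mul_den_eq_num, Int.cast_smul_eq_zsmul]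
  rw [this]
  exact H.zsmul_mem hx _

theorem cut_mem_of (R : Ref G K b f) (hcut : IsCut G H) {g : V} (hg : g ∈ G)
    (h : ∀ j, b j ∉ H → f j g = 0) : g ∈ H := by
  obtain ⟨m, hm, h1, h2⟩ := R.exists_m
  apply hcut.2.1 g hg m hm.ne'
  have : m • g = ∑ j, (m * f j g) • b j := by
    conv_lhs => rw [R.expand g hg]
    rw [nsmul_eq, Finset.smul_sum]
    simp [smul_smul]
  rw [this]
  refine AddSubgroup.sum_mem _ fun j _ => ?_
  by_cases hj : b j ∈ H
  · exact cut_smul hcut hj (R.le (h2 g hg j))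
  · rw [h j hj, mul_zero, zero_smul]; exact H.zero_mem

theorem cut_typeLE (hcut : IsCut G H) {x y : V} (hx : x ∈ H) (hy : y ∈ H) :
    TypeLE H x H y ↔ TypeLE G x G y := by
  constructor
  · rintro ⟨n, hn, h⟩
    exact ⟨n, hn, fun q hq => hcut.1 (h q (cut_smul hcut hx hq))⟩
  · rintro ⟨n, hn, h⟩
    exact ⟨n, hn, fun q hq => cut_smul hcut (H.nsmul_mem hy n) (h q (hcut.1 hq))⟩

/-- Restriction to a cut. -/
theorem Ref.restrict (R : Ref G K b f) (hcut : IsCut G H) :
    Ref H (K ⊓ H) (fun j : {j // b j ∈ H} => b j) (fun j => f j) := by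
  refine ⟨?_, ?_, inf_le_right, ?_, ?_, ?_⟩
  · intro j k
    rw [R.dual]
    simp only [Subtype.ext_iff]
  · intro h hh
    conv_lhs => rw [R.expand h (hcut.1 hh)]
    exact sum_sub _ _ fun j hj => by rw [cut_f R hcut hj hh, zero_smul]
  · exact fun j => ⟨R.mem j, j.2⟩
  · intro c hc j
    have h1 := R.coord c hc.1 j
    exact ⟨h1, cut_smul hcut j.2 (R.le h1)⟩
  · rw [AddSubgroup.inf_relIndex_right]
    exact fun h => R.fin (AddSubgroup.relIndex_eq_zero_of_le_right hcut.1 h)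

theorem sharp_le_of_cut (hcut : IsCut G H) {x : V} (hx : x ∈ H) : sharp H x ≤ sharp G x := by
  rintro y ⟨hy, hy2⟩
  refine ⟨hcut.1 hy, Submodule.span_mono ?_ hy2⟩
  rintro z ⟨hz, h1, h2⟩
  exact ⟨hcut.1 hz, (cut_typeLE hcut hx hz).mp h1, fun h => h2 ((cut_typeLE hcut hz hx).mpr h)⟩

theorem Ref.restrict_reg (R : Ref G K b f) (hcut : IsCut G H)
    (hreg : ∀ j, up G (b j) ≤ K ⊔ sharp G (b j)) : IsRegulating H (K ⊓ H) := by
  have RH := R.restrict hcut
  refine RH.isRegulating ?_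
  rintro ⟨j, hj⟩ y hy
  change y ∈ (K ⊓ H) ⊔ sharp H (b j)
  have hyG : y ∈ up G (b j) := ⟨hcut.1 hy.1, (cut_typeLE hcut hj hy.1).mp hy.2⟩
  obtain ⟨k, hk, z, hz, e⟩ := AddSubgroup.mem_sup.mp (hreg j hyG)
  have hzH : z ∈ H := cut_up R hcut hj (sharp_le_up hz)
  have hkH : k ∈ H := by
    have : k = y - z := by rw [← e]; abel
    rw [this]; exact H.sub_mem hy.1 hzH
  rw [AddSubgroup.mem_sup]
  refine ⟨k, ⟨hk, hkH⟩, z, ?_, e⟩
  change z ∈ sharp H (b j)
  have := (RH.mem_sharp_iff (x := b j) hzH).mpr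
  refine this ?_
  rintro ⟨i, hi⟩ hfi
  have h1 := (R.mem_sharp_iff hz.1).mp hz i hfi
  exact ⟨(cut_typeLE hcut hj hi).mpr h1.1, fun h => h1.2 ((cut_typeLE hcut hi hj).mp h)⟩

/-- The quotient map. -/
abbrev qm (H : AddSubgroup V) : V →ₗ[ℚ] (V ⧸ Submodule.span ℚ (H : Set V)) :=
  Submodule.mkQ (Submodule.span ℚ (H : Set V))

theorem qm_eq_zero {x : V} : qm H x = 0 ↔ x ∈ Submodule.span ℚ (H : Set V) :=
  Submodule.Quotient.mk_eq_zero _

theorem cut_qm (R : Ref G K b f) (hcut : IsCut G H) {g : V} (hg : g ∈ G) (h : qm H g = 0) :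
    g ∈ H := by
  obtain ⟨N, hN, h1⟩ := exists_smul_mem_of_span (qm_eq_zero.mp h)
  exact hcut.2.1 g hg N hN.ne' h1

theorem mem_quo {x : V ⧸ Submodule.span ℚ (H : Set V)} :
    x ∈ quo G H ↔ ∃ g ∈ G, qm H g = x := Iff.rfl

theorem exists_fbar (R : Ref G K b f) (hcut : IsCut G H) :
    ∃ fb : {j // b j ∉ H} → (V ⧸ Submodule.span ℚ (H : Set V)) →ₗ[ℚ] ℚ,
      ∀ j v, fb j (qm H v) = f j v := by
  refine ⟨fun j => Submodule.liftQ _ (f j) ?_, ?_⟩
  · rw [Submodule.span_le]
    intro h hh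
    exact cut_f R hcut j.2 hh
  · intro j v
    exact Submodule.liftQ_apply _ _ _

theorem Ref.quot (R : Ref G K b f) (hcut : IsCut G H)
    {fb : {j // b j ∉ H} → (V ⧸ Submodule.span ℚ (H : Set V)) →ₗ[ℚ] ℚ}
    (hfb : ∀ j v, fb j (qm H v) = f j v) :
    Ref (quo G H) (quo K H) (fun j : {j // b j ∉ H} => qm H (b j)) fb := by
  refine ⟨?_, ?_, AddSubgroup.map_mono R.le, ?_, ?_, ?_⟩
  · intro j k
    rw [hfb, R.dual]
    simp only [Subtype.ext_iff]
  · rintro _ ⟨g, hg, rfl⟩
    change qm H g = ∑ j : {j // b j ∉ H}, fb j (qm H g) • qm H (b j)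
    conv_lhs => rw [R.expand g hg]
    rw [map_sum]
    simp only [map_smul, hfb]
    refine sum_sub (fun j => b j ∉ H) (fun j => f j g • qm H (b j)) fun j hj => ?_
    rw [not_not] at hj
    have : qm H (b j) = 0 := qm_eq_zero.mpr (Submodule.subset_span hj)
    rw [this, smul_zero]
  · exact fun j => ⟨b j, R.mem j, rfl⟩
  · rintro _ ⟨c, hc, rfl⟩ j
    refine ⟨f j c • b j, R.coord c hc j, ?_⟩
    change qm H (f j c • b j) = fb j (qm H c) • qm H (b j)
    rw [map_smul, hfb]
  · unfold quo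
    rw [AddSubgroup.relIndex_map_map]
    set P := (Submodule.mkQ (Submodule.span ℚ (H : Set V))).toAddMonoidHom.ker
    have h1 : (K ⊔ P).relIndex (G ⊔ P) = (K ⊔ P).relIndex G := by
      have : G ⊔ P = G ⊔ (K ⊔ P) := by
        rw [← sup_assoc, sup_eq_left.mpr R.le]
      rw [this, AddSubgroup.relIndex_sup_right]
    rw [h1]
    exact fun h => R.fin (AddSubgroup.relIndex_eq_zero_of_le_left le_sup_left h)

theorem quot_typeLE (R : Ref G K b f) (hcut : IsCut G H) {i j : J} (hi : b i ∉ H) (_hj : b j ∉ H) :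
    TypeLE (quo G H) (qm H (b i)) (quo G H) (qm H (b j)) ↔ TypeLE G (b i) G (b j) := by
  obtain ⟨fb, hfb⟩ := exists_fbar R hcut
  obtain ⟨m, hm, h1, h2⟩ := R.exists_m
  have key : ∀ l, b l ∉ H → ∀ r : ℚ, r • qm H (b l) ∈ quo G H → (m * r) • b l ∈ G := by
    intro l hl r hr
    obtain ⟨g, hg, e⟩ := mem_quo.mp hr
    have h3 : f l g = r := by
      have h4 := hfb ⟨l, hl⟩ g
      rw [e, map_smul, hfb, R.dual, if_pos rfl, smul_eq_mul, mul_one] at h4
      exact h4.symm
    have h5 := R.le (h2 g hg l)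
    rwa [h3] at h5
  constructor
  · intro h
    rw [typeLE_iff] at h ⊢
    obtain ⟨n, hn, h⟩ := h
    refine ⟨m * n, Nat.mul_pos hm hn, fun q hq => ?_⟩
    have hq' : q • qm H (b i) ∈ quo G H := ⟨q • b i, hq, map_smul (qm H) _ _⟩
    have h3 := key j _hj _ (h q hq')
    convert h3 using 2
    push_cast
    ring
  · intro h
    rw [typeLE_iff] at h ⊢
    obtain ⟨n, hn, h⟩ := h
    refine ⟨m * n, Nat.mul_pos hm hn, fun q hq => ?_⟩
    have h3 := h _ (key i hi q hq)
    refine ⟨_, h3, ?_⟩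
    change qm H (((m : ℚ) * q * n) • b j) = _
    rw [map_smul]
    congr 1
    push_cast
    ring

/-- If `q(g)` has type at least that of `q(b j)` then `g` has type at least that of `b j`. -/
theorem quot_up (R : Ref G K b f) (hcut : IsCut G H) {j : J} (hj : b j ∉ H) {g : V} (hg : g ∈ G) :
    qm H g ∈ up (quo G H) (qm H (b j)) ↔ g ∈ up G (b j) := by
  obtain ⟨fb, hfb⟩ := exists_fbar R hcut
  have RQ := R.quot hcut hfb
  have hq : qm H g ∈ quo G H := ⟨g, hg, rfl⟩
  rw [RQ.mem_up_iff hq, R.mem_up_iff hg]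
  constructor
  · intro h l hl
    by_cases hlH : b l ∈ H
    · have h1 := cut_sharp R hcut hj hlH
      refine ((R.mem_sharp_iff h1.1).mp h1 l ?_).1
      rw [R.dual, if_pos rfl]; exact one_ne_zero
    · exact (quot_typeLE R hcut hj hlH).mp (h ⟨l, hlH⟩ (by rw [hfb]; exact hl))
  · rintro h ⟨l, hlH⟩ hl
    rw [hfb] at hl
    exact (quot_typeLE R hcut hj hlH).mpr (h l hl)

theorem quot_sharp (R : Ref G K b f) (hcut : IsCut G H) {j : J} (hj : b j ∉ H) {g : V}
    (hg : g ∈ G) : qm H g ∈ sharp (quo G H) (qm H (b j)) ↔ g ∈ sharp G (b j) := by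
  obtain ⟨fb, hfb⟩ := exists_fbar R hcut
  have RQ := R.quot hcut hfb
  have hq : qm H g ∈ quo G H := ⟨g, hg, rfl⟩
  rw [RQ.mem_sharp_iff hq, R.mem_sharp_iff hg]
  constructor
  · intro h l hl
    by_cases hlH : b l ∈ H
    · have h1 := cut_sharp R hcut hj hlH
      refine (R.mem_sharp_iff h1.1).mp h1 l ?_
      rw [R.dual, if_pos rfl]; exact one_ne_zero
    · have h1 := h ⟨l, hlH⟩ (by rw [hfb]; exact hl)
      exact ⟨(quot_typeLE R hcut hj hlH).mp h1.1,
        fun h2 => h1.2 ((quot_typeLE R hcut hlH hj).mpr h2)⟩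
  · rintro h ⟨l, hlH⟩ hl
    rw [hfb] at hl
    have h1 := h l hl
    exact ⟨(quot_typeLE R hcut hj hlH).mpr h1.1,
      fun h2 => h1.2 ((quot_typeLE R hcut hlH hj).mp h2)⟩

theorem Ref.quot_reg (R : Ref G K b f) (hcut : IsCut G H)
    (hreg : ∀ j, up G (b j) ≤ K ⊔ sharp G (b j)) : IsRegulating (quo G H) (quo K H) := by
  obtain ⟨fb, hfb⟩ := exists_fbar R hcut
  refine (R.quot hcut hfb).isRegulating ?_
  rintro ⟨j, hj⟩ y hy
  obtain ⟨g, hg, rfl⟩ := mem_quo.mp hy.1
  have hgup := (quot_up R hcut hj hg).mp hy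
  obtain ⟨k, hk, z, hz, e⟩ := AddSubgroup.mem_sup.mp (hreg j hgup)
  rw [AddSubgroup.mem_sup]
  exact ⟨qm H k, ⟨k, hk, rfl⟩, qm H z, (quot_sharp R hcut hj hz.1).mpr hz,
    by rw [← map_add, e]⟩

end

variable {G C H : AddSubgroup V}

/-- The regulating quotients of a group with a cut. -/
theorem regQuot_cut (hG : IsACD G) (hC : IsRegulating G C) (hcut : IsCut G H) {X : Type*}
    [AddCommGroup X] [Finite X] :
    RegQuot G X ↔ ∃ Y : AddSubgroup X, RegQuot H Y ∧ RegQuot (quo G H) (X ⧸ Y) := by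
  constructor
  · rintro ⟨K, hK, ⟨φ⟩⟩
    obtain ⟨J, _, _, b, f, R⟩ := hK.exists_ref hG
    have hreg : ∀ j, up G (b j) ≤ K ⊔ sharp G (b j) := fun j =>
      hK.up_le_sup (R.bG j) (R.b_ne_zero j)
    set π : G →+ X := φ.toAddMonoidHom.comp (QuotientAddGroup.mk' _) with hπ
    have hsurj : Function.Surjective π := φ.surjective.comp (QuotientAddGroup.mk'_surjective _)
    have hker : ∀ g : G, π g = 0 ↔ (g : V) ∈ K := by
      intro g
      change φ (QuotientAddGroup.mk' (K.addSubgroupOf G) g) = 0 ↔ _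
      rw [map_eq_zero_iff φ φ.injective, QuotientAddGroup.mk'_apply,
        QuotientAddGroup.eq_zero_iff, AddSubgroup.mem_addSubgroupOf]
    set Y : AddSubgroup X := im π H with hY
    refine ⟨Y, ⟨K ⊓ H, R.restrict_reg hcut hreg, ?_⟩, ⟨quo K H, R.quot_reg hcut hreg, ?_⟩⟩
    · -- `H / (K ∩ H) ≃ Y`
      set α : H →+ Y := AddMonoidHom.mk' (fun h => (⟨π ⟨h, hcut.1 h.2⟩,
        (mem_im π).mpr ⟨h, hcut.1 h.2, h.2, rfl⟩⟩ : Y)) (by
          intro x y
          apply Subtype.ext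
          change π (⟨x + y, _⟩ : G) = π ⟨x, _⟩ + π ⟨y, _⟩
          rw [← map_add]
          rfl) with hα
      have hαsurj : Function.Surjective α := by
        rintro ⟨x, hx⟩
        obtain ⟨h, hhG, hh, rfl⟩ := (mem_im π).mp hx
        exact ⟨⟨h, hh⟩, rfl⟩
      have hαker : (K ⊓ H).addSubgroupOf H = α.ker := by
        ext h
        rw [AddSubgroup.mem_addSubgroupOf, AddMonoidHom.mem_ker]
        constructor
        · rintro ⟨h1, _⟩
          apply Subtype.ext
          exact (hker ⟨h, hcut.1 h.2⟩).mpr h1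
        · intro h1
          exact ⟨(hker ⟨h, hcut.1 h.2⟩).mp (congrArg Subtype.val h1), h.2⟩
      rw [hαker]
      exact ⟨QuotientAddGroup.quotientKerEquivOfSurjective α hαsurj⟩
    · -- `quo G H / quo K H ≃ X / Y`
      set α : G →+ X ⧸ Y := (QuotientAddGroup.mk' Y).comp π with hα
      have hαsurj : Function.Surjective α := (QuotientAddGroup.mk'_surjective Y).comp hsurj
      set β0 : G →+ quo G H := AddMonoidHom.mk' (fun g => (⟨qm H g, ⟨g, g.2, rfl⟩⟩ : quo G H))
        (fun x y => Subtype.ext (map_add _ _ _)) with hβ0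
      have hβ0surj : Function.Surjective β0 := by
        rintro ⟨_, g, hg, rfl⟩
        exact ⟨⟨g, hg⟩, rfl⟩
      set β : G →+ (quo G H) ⧸ (quo K H).addSubgroupOf (quo G H) :=
        (QuotientAddGroup.mk' _).comp β0 with hβ
      have hβsurj : Function.Surjective β := (QuotientAddGroup.mk'_surjective _).comp hβ0surj
      have hαβ : β.ker = α.ker := by
        ext g
        rw [AddMonoidHom.mem_ker, AddMonoidHom.mem_ker, hβ, hα, AddMonoidHom.comp_apply,
          AddMonoidHom.comp_apply, QuotientAddGroup.mk'_apply, QuotientAddGroup.mk'_apply,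
          QuotientAddGroup.eq_zero_iff, QuotientAddGroup.eq_zero_iff,
          AddSubgroup.mem_addSubgroupOf]
        constructor
        · rintro ⟨k, hk, e⟩
          have h1 : qm H ((g : V) - k) = 0 := by
            rw [map_sub, sub_eq_zero]
            exact e.symm
          have h2 : (g : V) - k ∈ H := cut_qm R hcut (G.sub_mem g.2 (R.le hk)) h1
          have h3 : g = ⟨k, R.le hk⟩ + ⟨(g : V) - k, hcut.1 h2⟩ := by
            apply Subtype.ext
            change (g : V) = k + (g - k)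
            abel
          rw [h3, map_add, (hker ⟨k, R.le hk⟩).mpr hk, zero_add]
          exact (mem_im π).mpr ⟨_, _, h2, rfl⟩
        · intro h
          obtain ⟨y, hyG, hy, e⟩ := (mem_im π).mp h
          have h1 : (g : V) - y ∈ K := by
            refine (hker (g - ⟨y, hyG⟩)).mp ?_
            rw [map_sub, e, sub_self]
          refine ⟨(g : V) - y, h1, ?_⟩
          change qm H ((g : V) - y) = qm H g
          rw [map_sub, qm_eq_zero.mpr (Submodule.subset_span hy), sub_zero]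
      have e1 := QuotientAddGroup.quotientKerEquivOfSurjective β hβsurj
      have e2 := QuotientAddGroup.quotientKerEquivOfSurjective α hαsurj
      exact ⟨e1.symm.trans ((QuotientAddGroup.quotientAddEquivOfEq hαβ).trans e2)⟩
  · rintro ⟨Y, hYR, hQR⟩
    obtain ⟨J, _, _, b, f, R⟩ := hC.exists_ref hG
    have hreg : ∀ j, up G (b j) ≤ C ⊔ sharp G (b j) := fun j =>
      hC.up_le_sup (R.bG j) (R.b_ne_zero j)
    obtain ⟨fb, hfb⟩ := exists_fbar R hcut
    have RH := R.restrict hcut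
    have RQ := R.quot hcut hfb
    have hHacd := RH.isACD
    have hQacd := RQ.isACD
    have hCH := R.restrict_reg hcut hreg
    have hCQ := R.quot_reg hcut hreg
    have hcY := ((regQuot_iff hHacd hCH).mp hYR).1
    have hcQ := ((regQuot_iff hQacd hCQ).mp hQR).1
    obtain ⟨K1, hK1, ⟨φ1⟩⟩ := hYR
    obtain ⟨K2, hK2, ⟨φ2⟩⟩ := hQR
    -- the two maps
    set πH : H →+ Y := φ1.toAddMonoidHom.comp (QuotientAddGroup.mk' _) with hπH
    have hπHsurj : Function.Surjective πH :=
      φ1.surjective.comp (QuotientAddGroup.mk'_surjective _)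
    have hπHker : ∀ h : H, (h : V) ∈ K1 → πH h = 0 := by
      intro h hh
      change φ1 (QuotientAddGroup.mk' (K1.addSubgroupOf H) h) = 0
      rw [map_eq_zero_iff φ1 φ1.injective, QuotientAddGroup.mk'_apply,
        QuotientAddGroup.eq_zero_iff, AddSubgroup.mem_addSubgroupOf]
      exact hh
    set β0 : G →+ quo G H := AddMonoidHom.mk' (fun g => (⟨qm H g, ⟨g, g.2, rfl⟩⟩ : quo G H))
      (fun x y => Subtype.ext (map_add _ _ _)) with hβ0
    have hβ0surj : Function.Surjective β0 := by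
      rintro ⟨_, g, hg, rfl⟩
      exact ⟨⟨g, hg⟩, rfl⟩
    set ρ2 : (quo G H) →+ X ⧸ Y := φ2.toAddMonoidHom.comp (QuotientAddGroup.mk' _) with hρ2
    have hρ2surj : Function.Surjective ρ2 :=
      φ2.surjective.comp (QuotientAddGroup.mk'_surjective _)
    have hρ2ker : ∀ h : quo G H, (h : V ⧸ Submodule.span ℚ (H : Set V)) ∈ K2 → ρ2 h = 0 := by
      intro h hh
      change φ2 (QuotientAddGroup.mk' (K2.addSubgroupOf (quo G H)) h) = 0
      rw [map_eq_zero_iff φ2 φ2.injective, QuotientAddGroup.mk'_apply,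
        QuotientAddGroup.eq_zero_iff, AddSubgroup.mem_addSubgroupOf]
      exact hh
    set ρ : G →+ X ⧸ Y := ρ2.comp β0 with hρ
    have hρsurj : Function.Surjective ρ := hρ2surj.comp hβ0surj
    set HG := H.addSubgroupOf G with hHG
    set πH' : HG →+ Y := πH.comp (AddMonoidHom.mk' (fun h : HG => (⟨(h : G), h.2⟩ : H))
      (fun x y => rfl)) with hπH'
    obtain ⟨π, hπ1, hπ2⟩ := exists_lift HG (fun k x hk hkx => hcut.2.1 _ x.2 k hk hkx) Y πH' ρ
      (by
        intro h
        have : β0 (h : G) = 0 := Subtype.ext (qm_eq_zero.mpr (Submodule.subset_span h.2))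
        rw [hρ, AddMonoidHom.comp_apply, this, map_zero])
    have hπH1 : ∀ h (hh : h ∈ H), π ⟨h, hcut.1 hh⟩ = πH ⟨h, hh⟩ := fun h hh =>
      hπ1 ⟨⟨h, hcut.1 hh⟩, hh⟩
    have hYim : ∀ y ∈ Y, ∃ h, ∃ hh : h ∈ H, π ⟨h, hcut.1 hh⟩ = y := by
      intro y hy
      obtain ⟨⟨h, hh⟩, e⟩ := hπHsurj ⟨y, hy⟩
      refine ⟨h, hh, ?_⟩
      rw [hπH1 h hh, e]
    rw [regQuot_iff hG hC]
    refine ⟨?_, π, ?_, ?_⟩
    · -- orders
      have h1 : Nat.card X = Nat.card Y * Nat.card (X ⧸ Y) := by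
        have := AddSubgroup.card_mul_index Y
        exact this.symm
      rw [h1, hcY, hcQ]
      rw [AddSubgroup.inf_relIndex_right]
      unfold quo
      rw [AddSubgroup.relIndex_map_map]
      set P := (Submodule.mkQ (Submodule.span ℚ (H : Set V))).toAddMonoidHom.ker with hP
      have h2 : (C ⊔ P).relIndex (G ⊔ P) = (C ⊔ H).relIndex G := by
        have e1 : G ⊔ P = G ⊔ (C ⊔ P) := by
          rw [← sup_assoc, sup_eq_left.mpr R.le]
        rw [e1, AddSubgroup.relIndex_sup_right, ← AddSubgroup.inf_relIndex_right,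
          ← AddSubgroup.inf_relIndex_right (C ⊔ H)]
        congr 1
        ext y
        constructor
        · rintro ⟨hy1, hy2⟩
          refine ⟨?_, hy2⟩
          obtain ⟨c, hc, z, hz, e⟩ := AddSubgroup.mem_sup.mp hy1
          have hzG : z ∈ G := by
            have : z = y - c := by rw [← e]; abel
            rw [this]; exact G.sub_mem hy2 (R.le hc)
          exact AddSubgroup.mem_sup.mpr ⟨c, hc, z, cut_qm R hcut hzG hz, e⟩
        · rintro ⟨hy1, hy2⟩
          refine ⟨?_, hy2⟩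
          obtain ⟨c, hc, z, hz, e⟩ := AddSubgroup.mem_sup.mp hy1
          exact AddSubgroup.mem_sup.mpr
            ⟨c, hc, z, qm_eq_zero.mpr (Submodule.subset_span hz), e⟩
      rw [h2]
      have h3 := AddSubgroup.relIndex_mul_relIndex C (C ⊔ H) G le_sup_left
        (sup_le R.le hcut.1)
      rw [← h3, sup_comm C H, AddSubgroup.relIndex_sup_right]
    · intro x
      obtain ⟨g, hg⟩ := hρsurj (x : X ⧸ Y)
      have h1 : x - π g ∈ Y := by
        rw [← QuotientAddGroup.eq_zero_iff, QuotientAddGroup.mk_sub, hπ2, hg, sub_self]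
      obtain ⟨h, hh, e⟩ := hYim _ h1
      exact ⟨⟨h, hcut.1 hh⟩ + g, by rw [map_add, e]; abel⟩
    · intro x hx hx0
      change im π (up G x) ≤ im π (sharp G x)
      rw [im_le_iff]
      intro y hyG hy
      rcases hcut.2.2 x hx hx0 with hcase | hcase
      · -- inside `H`
        have hxH : x ∈ H := hcase (self_mem_up hx)
        have hyH : y ∈ H := hcase hy
        have hyup : y ∈ up H x := ⟨hyH, (cut_typeLE hcut hxH hyH).mpr hy.2⟩
        obtain ⟨k, hk, z, hz, e⟩ := AddSubgroup.mem_sup.mp (hK1.up_le_sup hxH hx0 hyup)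
        have hkH : k ∈ H := hK1.le hk
        have hzH : z ∈ H := hz.1
        have hzs : z ∈ sharp G x := sharp_le_of_cut hcut hxH hz
        refine (mem_im π).mpr ⟨z, hcut.1 hzH, hzs, ?_⟩
        rw [hπH1 z hzH, hπH1 y hyH]
        have e1 : (⟨y, hyH⟩ : H) = ⟨k, hkH⟩ + ⟨z, hzH⟩ := Subtype.ext e.symm
        rw [e1, map_add, hπHker ⟨k, hkH⟩ hk, zero_add]
      · -- above `H`
        by_cases hex : ∃ j, TypeLE G x G (b j) ∧ TypeLE G (b j) G x
        · obtain ⟨j, h1, h2⟩ := hex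
          rw [up_eq_of_equiv h1 h2] at hy
          rw [sharp_eq_of_equiv h1 h2] at hcase ⊢
          have hj : b j ∉ H := fun h => R.not_mem_sharp j (hcase h)
          have hyq := (quot_up R hcut hj hyG).mpr hy
          have hbq : qm H (b j) ∈ quo G H := ⟨b j, R.bG j, rfl⟩
          have hbq0 : qm H (b j) ≠ 0 := fun h => hj (cut_qm R hcut (R.bG j) h)
          obtain ⟨k2, hk2, z, hz, e⟩ :=
            AddSubgroup.mem_sup.mp (hK2.up_le_sup hbq hbq0 hyq)
          obtain ⟨g', hg', rfl⟩ := mem_quo.mp hz.1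
          have hg's : g' ∈ sharp G (b j) := (quot_sharp R hcut hj hg').mp hz
          have h3 : π ⟨y, hyG⟩ - π ⟨g', hg'⟩ ∈ Y := by
            rw [← QuotientAddGroup.eq_zero_iff, QuotientAddGroup.mk_sub, hπ2, hπ2, ← map_sub,
              hρ, AddMonoidHom.comp_apply]
            apply hρ2ker
            change qm H (y - g') ∈ K2
            rw [map_sub, ← e]
            simpa using hk2
          obtain ⟨h, hh, e2⟩ := hYim _ h3
          refine (mem_im π).mpr ⟨h + g', G.add_mem (hcut.1 hh) hg',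
            AddSubgroup.add_mem _ (hcase hh) hg's, ?_⟩
          have e3 : (⟨h + g', G.add_mem (hcut.1 hh) hg'⟩ : G) =
              ⟨h, hcut.1 hh⟩ + ⟨g', hg'⟩ := rfl
          rw [e3, map_add, e2]
          abel
        · refine (mem_im π).mpr ⟨y, hyG, ?_, rfl⟩
          rw [R.mem_sharp_iff hyG]
          intro j hj
          have h1 := (R.mem_up_iff hyG).mp hy j hj
          exact ⟨h1, fun h2 => hex ⟨j, h1, h2⟩⟩

end Pool.Agent.Lib.C8da183
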