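import Mathlib

/-!
# Definitions for regulating quotients of almost completely decomposable groups

Torsion-free abelian groups are subgroups `G` of a rational vector space `V`.
-/

namespace Pool.Agent.Lib.C8da183

variable {V : Type*} [AddCommGroup V] [Module ℚ V]

/-- `TypeLE A a B b`: the type of `a` in the group `A` is at most the type of `b` in the group `B`,
that is, for some positive integer `n` every rational number `q` with `q a ∈ A` satisfies
`q (n b) ∈ B`. -/
def TypeLE (A : AddSubgroup V) (a : V) (B : AddSubgroup V) (b : V) : Prop :=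
  ∃ n : ℕ, 0 < n ∧ ∀ q : ℚ, q • a ∈ A → q • (n • b) ∈ B

/-- `H` is completely decomposable: a finite direct sum of rank one groups. -/
def IsCD (H : AddSubgroup V) : Prop :=
  ∃ (n : ℕ) (b : Fin n → V), LinearIndependent ℚ b ∧ (∀ k, b k ∈ H) ∧
    ∀ h ∈ H, ∃ q : Fin n → ℚ, (∀ k, q k • b k ∈ H) ∧ h = ∑ k, q k • b k

/-- `H` is homogeneous completely decomposable, of type the type of `x` in `G`: a finite direct
sum of rank one groups of that type (the zero group is allowed). -/
def IsHomogCD (H G : AddSubgroup V) (x : V) : Prop :=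
  ∃ (n : ℕ) (b : Fin n → V), LinearIndependent ℚ b ∧ (∀ k, b k ∈ H) ∧
    (∀ k, TypeLE H (b k) G x ∧ TypeLE G x H (b k)) ∧
    ∀ h ∈ H, ∃ q : Fin n → ℚ, (∀ k, q k • b k ∈ H) ∧ h = ∑ k, q k • b k

/-- `G` is almost completely decomposable: it has a completely decomposable subgroup of finite
index. -/
def IsACD (G : AddSubgroup V) : Prop :=
  ∃ H : AddSubgroup V, H ≤ G ∧ IsCD H ∧ H.relIndex G ≠ 0

theorem up_add {G : AddSubgroup V} {x y z : V} (hy : y ∈ G ∧ TypeLE G x G y)
    (hz : z ∈ G ∧ TypeLE G x G z) : y + z ∈ G ∧ TypeLE G x G (y + z) := by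
  obtain ⟨hy, n, hn, h1⟩ := hy
  obtain ⟨hz, m, hm, h2⟩ := hz
  refine ⟨G.add_mem hy hz, n * m, Nat.mul_pos hn hm, fun q hq => ?_⟩
  have e1 : q • ((n * m) • (y + z)) = m • (q • (n • y)) + n • (q • (m • z)) := by
    simp only [smul_add, mul_smul]
    congr 1
    · rw [smul_comm n m y, smul_comm q m]
    · rw [smul_comm q n]
  rw [e1]
  exact G.add_mem (G.nsmul_mem (h1 q hq) m) (G.nsmul_mem (h2 q hq) n)

theorem up_zero {G : AddSubgroup V} {x : V} : (0 : V) ∈ G ∧ TypeLE G x G 0 :=
  ⟨G.zero_mem, 1, one_pos, fun q _ => by simp [G.zero_mem]⟩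

theorem up_neg {G : AddSubgroup V} {x y : V} (hy : y ∈ G ∧ TypeLE G x G y) :
    -y ∈ G ∧ TypeLE G x G (-y) := by
  obtain ⟨hy, n, hn, h1⟩ := hy
  refine ⟨G.neg_mem hy, n, hn, fun q hq => ?_⟩
  have e1 : q • (n • (-y)) = -(q • (n • y)) := by simp
  rw [e1]
  exact G.neg_mem (h1 q hq)

/-- `G(τ)` for `τ` the type of `x` in `G`: all `y ∈ G` whose type is at least `τ`
(together with `0`). -/
def up (G : AddSubgroup V) (x : V) : AddSubgroup V where
  carrier := {y | y ∈ G ∧ TypeLE G x G y}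
  add_mem' := up_add
  zero_mem' := up_zero
  neg_mem' := up_neg

/-- `G^#(τ)` for `τ` the type of `x` in `G`: the pure subgroup of `G` generated by the elements
of type strictly greater than `τ`. -/
def sharp (G : AddSubgroup V) (x : V) : AddSubgroup V :=
  G ⊓ (Submodule.span ℚ {z | z ∈ G ∧ TypeLE G x G z ∧ ¬ TypeLE G z G x}).toAddSubgroup

/-- `C` is a regulating subgroup of `G`: for every type `τ` of a nonzero element `x` of `G` there
is a homogeneous completely decomposable group `D x` of type `τ`, depending only on `τ`, with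
`G(τ) = D x ⊕ G^#(τ)`, and `C` is the sum of all these groups. -/
def IsRegulating (G C : AddSubgroup V) : Prop :=
  ∃ D : V → AddSubgroup V,
    (∀ x ∈ G, x ≠ 0 → IsHomogCD (D x) G x ∧ D x ⊔ sharp G x = up G x ∧
      D x ⊓ sharp G x = ⊥) ∧
    (∀ x ∈ G, ∀ y ∈ G, x ≠ 0 → y ≠ 0 → TypeLE G x G y → TypeLE G y G x → D x = D y) ∧
    C = ⨆ x : {x : V // x ∈ G ∧ x ≠ 0}, D x

/-- `X` is (isomorphic to) a regulating quotient of `G`. -/
def RegQuot (G : AddSubgroup V) (X : Type*) [AddCommGroup X] : Prop :=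
  ∃ C : AddSubgroup V, IsRegulating G C ∧ Nonempty ((G ⧸ C.addSubgroupOf G) ≃+ X)

end Pool.Agent.Lib.C8da183
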