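import Pool.Agent.Lib.C8da183.Defs

/-!
# Break values
-/

namespace Pool.Agent.Lib.C8da183

variable {V : Type*} [AddCommGroup V] [Module ℚ V]

/-- The pure subgroup of `G` generated by the elements of `G` whose type is not at most the type
of `x`. -/
def notLE (G : AddSubgroup V) (x : V) : AddSubgroup V :=
  G ⊓ (Submodule.span ℚ {z | z ∈ G ∧ ¬ TypeLE G z G x}).toAddSubgroup

/-- The break values at `p`: the numbers `0` and `v_p [G : C]`, and the numbers `s` for which
there is a type `τ` with `v_p [G : C + G(τ)] = v_p [G : C + G(≰τ)] = s`. -/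
def breaks (G C : AddSubgroup V) (p : ℕ) : Set ℕ :=
  {s | s = 0 ∨ s = (C.relIndex G).factorization p ∨ ∃ x ∈ G, x ≠ 0 ∧
    ((C ⊔ up G x).relIndex G).factorization p = s ∧
    ((C ⊔ notLE G x).relIndex G).factorization p = s}

/-- `X` has subgroups `Z s`, `s ∈ S`, of index `p ^ s`, decreasing, with `Z s / Z t` cyclic for
consecutive members `s < t` of `S`. -/
def HasCyclicChain (X : Type*) [AddCommGroup X] (p : ℕ) (S : Set ℕ) : Prop :=
  ∃ Z : ℕ → AddSubgroup X, (∀ s ∈ S, (Z s).index = p ^ s) ∧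
    ∀ s ∈ S, ∀ t ∈ S, s < t → (∀ r ∈ S, ¬ (s < r ∧ r < t)) →
      Z t ≤ Z s ∧ ∃ z ∈ Z s, Z s ≤ Z t ⊔ AddSubgroup.zmultiples z

/-- The number of integers `m` with `0 < m ≤ e` such that `r < m ≤ r + k` for some `r ∈ S`. If
`0, e ∈ S ⊆ [0, e]` this is the sum of `min g k` over the gaps `g` between consecutive members
of `S`. -/
noncomputable def gapSum (S : Set ℕ) (e k : ℕ) : ℕ :=
  Set.ncard {m : ℕ | 0 < m ∧ m ≤ e ∧ ∃ r ∈ S, r < m ∧ m ≤ r + k}

end Pool.Agent.Lib.C8da183
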