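import Pool.Agent.Lib.C8da183.Defs

/-!
# Cuts
-/

namespace Pool.Agent.Lib.C8da183

variable {V : Type*} [AddCommGroup V] [Module ℚ V]

/-- `H` is a cut of `G`: a pure subgroup such that every type `τ` of a nonzero element of `G`
satisfies `G(τ) ≤ H` or `H ≤ G^#(τ)`. -/
def IsCut (G H : AddSubgroup V) : Prop :=
  H ≤ G ∧ (∀ x ∈ G, ∀ n : ℕ, n ≠ 0 → n • x ∈ H → x ∈ H) ∧
    ∀ x ∈ G, x ≠ 0 → up G x ≤ H ∨ H ≤ sharp G x

/-- The torsion-free group `G / H`, for `H` pure in `G`, as the image of `G` in the quotient of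
the vector space by the span of `H`. -/
def quo (G H : AddSubgroup V) : AddSubgroup (V ⧸ Submodule.span ℚ (H : Set V)) :=
  G.map (Submodule.mkQ (Submodule.span ℚ (H : Set V))).toAddMonoidHom

end Pool.Agent.Lib.C8da183
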