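import Pool.Agent.Lib.C8da183.DefsO

/-!
# Critical types, ranks and layers
-/

namespace Pool.Agent.Lib.C8da183

variable {V : Type*} [AddCommGroup V] [Module ℚ V]

/-- `x` is a nonzero element of `G` whose type `τ` is critical: `G^#(τ) ≠ G(τ)`. -/
def IsCritical (G : AddSubgroup V) (x : V) : Prop :=
  x ∈ G ∧ x ≠ 0 ∧ sharp G x ≠ up G x

/-- For every critical type `τ` of `G`, the critical types `≥ τ` form a chain. -/
def IsForest (G : AddSubgroup V) : Prop :=
  ∀ x y z, IsCritical G x → IsCritical G y → IsCritical G z → TypeLE G x G y → TypeLE G x G z →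
    TypeLE G y G z ∨ TypeLE G z G y

/-- The subgroup of `G` generated by all `G(τ)`, `τ` a critical type of `G`. -/
def critSum (G : AddSubgroup V) : AddSubgroup V :=
  ⨆ x : {x : V // IsCritical G x}, up G x

/-- The factor `B / A` for subgroups `A ≤ B` of a group `X`. -/
abbrev factor {X : Type*} [AddCommGroup X] (B A : AddSubgroup X) : Type _ :=
  B ⧸ A.addSubgroupOf B

/-- The pure subgroup of `G` generated by the critical elements `x` with `ρ x < i`. -/
def part (G : AddSubgroup V) (ρ : V → ℕ) (i : ℕ) : AddSubgroup V :=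
  G ⊓ (Submodule.span ℚ {x | IsCritical G x ∧ ρ x < i}).toAddSubgroup

/-- The `i`-th layer of `G` for the function `ρ`: the torsion-free group
`part G ρ (i + 1) / part G ρ i`. -/
def layer (G : AddSubgroup V) (ρ : V → ℕ) (i : ℕ) :
    AddSubgroup (V ⧸ Submodule.span ℚ (part G ρ i : Set V)) :=
  quo (part G ρ (i + 1)) (part G ρ i)

end Pool.Agent.Lib.C8da183
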