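import Pool.Agent.Lib.C8da183.Cut

/-!
# Every almost completely decomposable group has a regulating subgroup
-/

namespace Pool.Agent.Lib.C8da183

open scoped Classical

set_option linter.unusedSectionVars false

theorem exists_cyc_of {A : AddSubgroup ℚ} (h1 : (1 : ℚ) ∈ A) {p : ℕ} (hp : p.Prime) {a : ℚ}
    (ha : a ∈ A) (hpa : ∀ a' ∈ A, a ≠ p * a') :
    ∀ q ∈ A, ∃ z : ℤ, ∃ a' ∈ A, q = z * a + p * a' := by
  obtain ⟨a0, ha0, _, hcyc⟩ := exists_cyc A h1 hp.pos
  obtain ⟨z0, a1, ha1, e⟩ := hcyc a ha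
  have hz0 : ¬ (p : ℤ) ∣ z0 := by
    rintro ⟨t, rfl⟩
    refine hpa (t * a0 + a1) (A.add_mem ?_ ha1) ?_
    · have := A.zsmul_mem ha0 t
      rwa [zsmul_eq_mul] at this
    · rw [e]; push_cast; ring
  have hcop : IsCoprime z0 (p : ℤ) := by
    rw [Int.isCoprime_iff_gcd_eq_one]
    have h2 : Int.gcd z0 p ∣ p := by
      have := Int.gcd_dvd_right (a := z0) (b := (p : ℤ))
      exact_mod_cast this
    rcases (Nat.dvd_prime hp).mp h2 with h3 | h3
    · exact h3
    · exfalso
      apply hz0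
      rw [← h3]
      exact Int.gcd_dvd_left ..
  obtain ⟨α, β, h2⟩ := hcop
  intro q hq
  obtain ⟨z, a2, ha2, e2⟩ := hcyc q hq
  refine ⟨z * α, (z * β : ℤ) * a0 - (z * α : ℤ) * a1 + a2, ?_, ?_⟩
  · refine A.add_mem (A.sub_mem ?_ ?_) ha2
    · have := A.zsmul_mem ha0 (z * β)
      rwa [zsmul_eq_mul] at this
    · have := A.zsmul_mem ha1 (z * α)
      rwa [zsmul_eq_mul] at this
  · have h3 : (α : ℚ) * z0 + β * p = 1 := by exact_mod_cast h2
    rw [e2, e]
    push_cast
    linear_combination (-(z : ℚ) * a0) * h3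

variable {V : Type*} [AddCommGroup V] [Module ℚ V]
variable {G C0 : AddSubgroup V} {J : Type*} [Fintype J] [DecidableEq J] {b : J → V}
  {f : J → V →ₗ[ℚ] ℚ}

/-- The key element. -/
theorem exists_w (R : Ref G C0 b f) {j : J} (hj : ¬ up G (b j) ≤ C0 ⊔ sharp G (b j)) :
    ∃ (l : J) (p : ℕ) (a : ℚ) (w : V), p.Prime ∧ a • b l ∈ C0 ∧
      (∀ q : ℚ, q • b l ∈ C0 → a ≠ p * q) ∧ (∀ q : ℚ, q • b l ∈ C0 → q • w ∈ G) ∧
      f l w = (p : ℚ)⁻¹ := by
  rw [SetLike.not_le_iff_exists] at hj
  obtain ⟨y0, hy0, hy0M⟩ := hj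
  set M := C0 ⊔ sharp G (b j) with hM
  -- an element of prime order modulo `M`
  obtain ⟨hm, hmC⟩ := exists_nsmul_mem R.fin
  set m := C0.relIndex G
  have hord : addOrderOf (y0 : V ⧸ M) ∣ m := by
    apply addOrderOf_dvd_of_nsmul_eq_zero
    rw [← QuotientAddGroup.mk_nsmul, QuotientAddGroup.eq_zero_iff]
    exact le_sup_left (a := C0) (hmC y0 hy0.1)
  have hord1 : addOrderOf (y0 : V ⧸ M) ≠ 1 := by
    rw [Ne, AddMonoid.addOrderOf_eq_one_iff, QuotientAddGroup.eq_zero_iff]
    exact hy0M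
  obtain ⟨p, hp, hpd⟩ := Nat.exists_prime_and_dvd hord1
  obtain ⟨t, ht⟩ := hpd
  have ho0 : addOrderOf (y0 : V ⧸ M) ≠ 0 := fun h => hm.ne' (Nat.eq_zero_of_zero_dvd (h ▸ hord))
  have ht0 : 0 < t := by
    rcases Nat.eq_zero_or_pos t with h | h
    · rw [h, mul_zero] at ht; exact absurd ht ho0
    · exact h
  set y := t • y0 with hy
  have hyup : y ∈ up G (b j) := AddSubgroup.nsmul_mem _ hy0 _
  have hyM : y ∉ M := by
    intro h
    have h2 : addOrderOf (y0 : V ⧸ M) ∣ t := by
      apply addOrderOf_dvd_of_nsmul_eq_zero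
      rw [← QuotientAddGroup.mk_nsmul, QuotientAddGroup.eq_zero_iff]
      exact h
    have h3 := Nat.le_of_dvd ht0 h2
    rw [ht] at h3
    have := hp.two_le
    nlinarith
  have hpyM : p • y ∈ M := by
    have h2 := addOrderOf_nsmul_eq_zero (y0 : V ⧸ M)
    rw [ht, ← QuotientAddGroup.mk_nsmul, QuotientAddGroup.eq_zero_iff, mul_smul] at h2
    exact h2
  obtain ⟨c, hc, z, hz, e⟩ := AddSubgroup.mem_sup.mp hpyM
  have hyG : y ∈ G := hyup.1
  have hcup : c ∈ up G (b j) := by
    have : c = p • y - z := by rw [← e]; abel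
    rw [this]
    exact AddSubgroup.sub_mem _ (AddSubgroup.nsmul_mem _ hyup _) (sharp_le_up hz)
  have hcG : c ∈ G := R.le hc
  -- a component which is not divisible by `p`
  have hex : ∃ l, TypeLE G (b l) G (b j) ∧ ∀ q : ℚ, q • b l ∈ C0 → f l c ≠ p * q := by
    by_contra hcon
    push Not at hcon
    have hq : ∀ l, ∃ q : ℚ, TypeLE G (b l) G (b j) → q • b l ∈ C0 ∧ f l c = p * q := by
      intro l
      by_cases hl : TypeLE G (b l) G (b j)
      · obtain ⟨q, hq⟩ := hcon l hl
        exact ⟨q, fun _ => hq⟩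
      · exact ⟨0, fun h => absurd h hl⟩
    choose q hq using hq
    apply hyM
    set L := Finset.univ.filter fun l => TypeLE G (b l) G (b j) with hL
    set c' := ∑ l ∈ L, q l • b l with hc'
    have hc'C : c' ∈ C0 := AddSubgroup.sum_mem _ fun l hl =>
      (hq l (Finset.mem_filter.mp hl).2).1
    have h2 : y - c' ∈ sharp G (b j) := by
      have hpQ : (p : ℚ) ≠ 0 := by exact_mod_cast hp.ne_zero
      refine mem_sharp_of_smul (G.sub_mem hyG (R.le hc'C)) hpQ ?_
      have h3 : (p : ℚ) • (y - c') = z + ∑ l ∈ Lᶜ, f l c • b l := by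
        have h4 : (p : ℚ) • y = c + z := by rw [← nsmul_eq, e]
        have h5 : (p : ℚ) • c' = ∑ l ∈ L, f l c • b l := by
          rw [hc', Finset.smul_sum]
          refine Finset.sum_congr rfl fun l hl => ?_
          rw [smul_smul, (hq l (Finset.mem_filter.mp hl).2).2]
        have h6 : c = ∑ l ∈ L, f l c • b l + ∑ l ∈ Lᶜ, f l c • b l := by
          rw [Finset.sum_add_sum_compl]
          exact R.expand c hcG
        have h7 : c - ∑ l ∈ L, f l c • b l = ∑ l ∈ Lᶜ, f l c • b l := by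
          rw [sub_eq_iff_eq_add']; exact h6
        rw [smul_sub, h4, h5, ← h7]
        abel
      rw [h3]
      refine AddSubgroup.add_mem _ hz (AddSubgroup.sum_mem _ fun l hl => ?_)
      by_cases hfl : f l c = 0
      · rw [hfl, zero_smul]; exact AddSubgroup.zero_mem _
      have hCl := R.coord c hc l
      rw [R.mem_sharp_iff (R.le hCl)]
      intro i hi
      rw [map_smul, R.dual] at hi
      by_cases hil : i = l
      · rw [hil]
        refine ⟨(R.mem_up_iff hcG).mp hcup l hfl, fun h => ?_⟩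
        rw [Finset.mem_compl, hL, Finset.mem_filter] at hl
        exact hl ⟨Finset.mem_univ _, h⟩
      · rw [if_neg hil, smul_zero] at hi
        exact absurd rfl hi
    have h3 : y = c' + (y - c') := by abel
    rw [h3]
    exact AddSubgroup.add_mem _ (le_sup_left (a := C0) hc'C) (le_sup_right (a := C0) h2)
  clear_value y
  obtain ⟨l, hlj, hl⟩ := hex
  set a := f l c with ha
  have haC : a • b l ∈ C0 := R.coord c hc l
  have ha0 : a ≠ 0 := fun h => hl 0 (by rw [zero_smul]; exact C0.zero_mem) (by rw [h, mul_zero])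
  have hjl : TypeLE G (b j) G (b l) := (R.mem_up_iff hcG).mp hcup l ha0
  have hflz : f l z = 0 := by
    by_contra h
    exact ((R.mem_sharp_iff hz.1).mp hz l h).2 hlj
  have hpQ : (p : ℚ) ≠ 0 := by exact_mod_cast hp.ne_zero
  have hfly : f l y = a / p := by
    have h2 : f l (p • y) = a := by rw [← e, map_add, hflz, add_zero]
    rw [map_nsmul, nsmul_eq_mul] at h2
    rw [eq_div_iff hpQ, mul_comm]
    exact h2
  -- the group of coefficients
  set A : AddSubgroup ℚ := C0.comap (LinearMap.toSpanSingleton ℚ V (b l)).toAddMonoidHom with hA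
  have memA : ∀ q, q ∈ A ↔ q • b l ∈ C0 := fun q => by simp [hA, AddSubgroup.mem_comap]
  have h1A : (1 : ℚ) ∈ A := (memA 1).mpr (by rw [one_smul]; exact R.mem l)
  have haA : a ∈ A := (memA a).mpr haC
  have hcyc := exists_cyc_of h1A hp haA (fun a' ha' => hl a' ((memA a').mp ha'))
  have htype : TypeLE C0 (b l) G y := by
    have h2 : TypeLE C0 (b l) G (b l) := ⟨1, one_pos, fun q hq => by
      rw [one_smul]; exact R.le hq⟩
    exact (h2.trans hlj).trans hyup.2
  obtain ⟨n', hn', hn'A⟩ := htype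
  set n : ℕ := n' * a.num.natAbs with hn
  have hnum : a.num ≠ 0 := Rat.num_ne_zero.mpr ha0
  have hn0 : 0 < n := Nat.mul_pos hn' (Int.natAbs_pos.mpr hnum)
  have hden : a * a.den = a.num := Rat.mul_den_eq_num a
  have hB : ∀ q ∈ A, (q / a * n) • y ∈ G := by
    intro q hq
    have h2 := hn'A q ((memA q).mp hq)
    rw [nsmul_eq, smul_smul] at h2
    obtain ⟨s, hs⟩ : ∃ s : ℤ, (a.num.natAbs : ℤ) = s * a.num := by
      rcases Int.natAbs_eq a.num with h | h
      · exact ⟨1, by rw [one_mul]; exact h.symm⟩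
      · exact ⟨-1, by omega⟩
    have hsQ : ((a.num.natAbs : ℕ) : ℚ) = s * a.num := by
      rw [← Int.cast_natCast (R := ℚ), hs, Int.cast_mul]
    have : q / a * n = ((s * a.den : ℤ) : ℚ) * (q * n') := by
      rw [hn]
      push_cast
      rw [hsQ, ← hden]
      field_simp
    rw [this, mul_smul, Int.cast_smul_eq_zsmul]
    exact G.zsmul_mem h2 _
  obtain ⟨n1, n2, k, hn12, hcop, hdvd⟩ := exists_split p n hn0
  have hcyck : ∀ k : ℕ, ∀ q ∈ A, ∃ z : ℤ, ∃ a' ∈ A, q = z * a + (p ^ k : ℕ) * a' := by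
    intro k
    induction k with
    | zero => intro q hq; exact ⟨0, q, hq, by simp⟩
    | succ k ih =>
      intro q hq
      obtain ⟨z, a', ha', e⟩ := ih q hq
      obtain ⟨z', a'', ha'', e'⟩ := hcyc a' ha'
      refine ⟨z + p ^ k * z', a'', ha'', ?_⟩
      rw [e, e']
      push_cast
      ring
  have hn2 : ∀ q ∈ A, (q / a * n2) • y ∈ G := by
    intro q hq
    obtain ⟨z, a', ha', e⟩ := hcyck k q hq
    obtain ⟨t, ht⟩ := hdvd
    have h3 := hB _ (A.nsmul_mem ha' t)
    have h4 : q / a * n2 = ((z * n2 : ℤ) : ℚ) + (t • a') / a * n := by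
      rw [e, hn12, ht, nsmul_eq_mul]
      push_cast
      field_simp
      try ring
    rw [h4, add_smul, Int.cast_smul_eq_zsmul]
    exact G.add_mem (G.zsmul_mem hyG _) h3
  obtain ⟨α, β, hαβ⟩ : IsCoprime (n2 : ℤ) (p : ℤ) := Nat.isCoprime_iff_coprime.mpr hcop
  have hαβQ : (α : ℚ) * n2 + β * p = 1 := by exact_mod_cast hαβ
  refine ⟨l, p, a, ((α * n2 : ℤ) / a : ℚ) • y + (β : ℚ) • b l, hp, haC, hl, ?_, ?_⟩
  · intro q hq
    have h2 := hn2 q ((memA q).mpr hq)
    have h3 : q • (((α * n2 : ℤ) / a : ℚ) • y + (β : ℚ) • b l) =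
        α • ((q / a * n2) • y) + β • (q • b l) := by
      rw [smul_add, smul_smul, smul_smul, ← Int.cast_smul_eq_zsmul ℚ α,
        ← Int.cast_smul_eq_zsmul ℚ β, smul_smul, smul_smul]
      congr 2
      · push_cast; ring
      · ring
    rw [h3]
    exact G.add_mem (G.zsmul_mem h2 _) (G.zsmul_mem (R.le hq) _)
  · rw [map_add, map_smul, map_smul, hfly, R.dual, if_pos rfl, smul_eq_mul, smul_eq_mul, mul_one]
    push_cast
    field_simp
    linarith

/-- A completely decomposable subgroup of smaller index. -/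
theorem exists_smaller (R : Ref G C0 b f) {j : J} (hj : ¬ up G (b j) ≤ C0 ⊔ sharp G (b j)) :
    ∃ (C1 : AddSubgroup V) (b' : J → V) (f' : J → V →ₗ[ℚ] ℚ), Ref G C1 b' f' ∧
      C1.relIndex G < C0.relIndex G := by
  obtain ⟨l, p, a, w, hp, haC, hl, hw, hfw⟩ := exists_w R hj
  have hpQ : (p : ℚ) ≠ 0 := by exact_mod_cast hp.ne_zero
  set P : AddSubgroup V := (LinearMap.ker (f l)).toAddSubgroup with hP
  have memP : ∀ v, v ∈ P ↔ f l v = 0 := fun v => Iff.rfl
  set A : AddSubgroup ℚ := C0.comap (LinearMap.toSpanSingleton ℚ V (b l)).toAddMonoidHom with hA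
  have memA : ∀ q, q ∈ A ↔ q • b l ∈ C0 := fun q => by simp [hA, AddSubgroup.mem_comap]
  have h1A : (1 : ℚ) ∈ A := (memA 1).mpr (by rw [one_smul]; exact R.mem l)
  set Aw : AddSubgroup V := A.map (LinearMap.toSpanSingleton ℚ V w).toAddMonoidHom with hAw
  have memAw : ∀ v, v ∈ Aw ↔ ∃ q ∈ A, q • w = v := fun v => Iff.rfl
  set N : AddSubgroup V := C0 ⊓ P with hN
  set C1 : AddSubgroup V := N ⊔ Aw with hC1
  have hwG : w ∈ G := by
    have := hw 1 (by rw [one_smul]; exact R.mem l)
    rwa [one_smul] at this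
  have hAwG : Aw ≤ G := by
    rintro _ ⟨q, hq, rfl⟩
    exact hw q ((memA q).mp hq)
  have hNG : N ≤ G := inf_le_left.trans R.le
  have hC1G : C1 ≤ G := sup_le hNG hAwG
  -- the intersection with the kernel
  set G' : AddSubgroup V := G ⊓ P with hG'
  have hNG' : N ≤ G' := inf_le_inf_right _ R.le
  have hsup : C0 ⊔ G' ≤ C1 ⊔ G' := by
    refine sup_le ?_ le_sup_right
    intro c hc
    have hq := R.coord c hc l
    have h1 : (f l c) ∈ A := (memA _).mpr hq
    have h2 : (p * f l c) • w ∈ Aw := by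
      refine (memAw _).mpr ⟨p * f l c, ?_, rfl⟩
      have := A.nsmul_mem h1 p
      rwa [nsmul_eq_mul] at this
    have h3 : c - (p * f l c) • w ∈ G' := by
      refine ⟨G.sub_mem (R.le hc) (hAwG h2), ?_⟩
      change c - (p * f l c) • w ∈ P
      rw [memP, map_sub, map_smul, hfw, smul_eq_mul]
      field_simp
      ring
    have h4 : c = (p * f l c) • w + (c - (p * f l c) • w) := by abel
    rw [h4]
    exact AddSubgroup.add_mem _ (le_sup_left (a := C1) (le_sup_right (a := N) h2))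
      (le_sup_right (a := C1) h3)
  have hne : ¬ C1 ⊔ G' ≤ C0 ⊔ G' := by
    intro h
    have h1 : a • w ∈ C1 ⊔ G' := le_sup_left (a := C1) (le_sup_right (a := N)
      ((memAw _).mpr ⟨a, (memA a).mpr haC, rfl⟩))
    obtain ⟨c, hc, g, hg, e⟩ := AddSubgroup.mem_sup.mp (h h1)
    have h2 : f l c = a / p := by
      have h3 : f l (a • w) = f l c := by
        rw [← e, map_add, (memP g).mp hg.2, add_zero]
      rw [map_smul, hfw, smul_eq_mul] at h3
      rw [← h3, div_eq_mul_inv]
    refine hl (f l c) (R.coord c hc l) ?_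
    rw [h2]; field_simp
  -- indices
  have hC0G' : C0.relIndex G = C0.relIndex G' * (C0 ⊔ G').relIndex G := by
    rw [← AddSubgroup.relIndex_mul_relIndex C0 (C0 ⊔ G') G le_sup_left
      (sup_le R.le inf_le_left), sup_comm C0 G', AddSubgroup.relIndex_sup_right]
  have hC1G' : C1.relIndex G = C1.relIndex G' * (C1 ⊔ G').relIndex G := by
    rw [← AddSubgroup.relIndex_mul_relIndex C1 (C1 ⊔ G') G le_sup_left
      (sup_le hC1G inf_le_left), sup_comm C1 G', AddSubgroup.relIndex_sup_right]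
  have hNi : C0.relIndex G' = N.relIndex G' := by
    rw [← AddSubgroup.inf_relIndex_right C0 G', ← AddSubgroup.inf_relIndex_right N G']
    congr 1
    ext v
    constructor
    · rintro ⟨h1, h2⟩; exact ⟨⟨h1, h2.2⟩, h2⟩
    · rintro ⟨h1, h2⟩; exact ⟨h1.1, h2⟩
  have h0 : C0.relIndex G' ≠ 0 ∧ (C0 ⊔ G').relIndex G ≠ 0 := by
    have := R.fin
    rw [hC0G'] at this
    exact ⟨left_ne_zero_of_mul this, right_ne_zero_of_mul this⟩
  have h1 : C1.relIndex G' ∣ C0.relIndex G' := by
    rw [hNi]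
    exact AddSubgroup.relIndex_dvd_of_le_left G' le_sup_left
  have h2 : (C0 ⊔ G').relIndex (C1 ⊔ G') * (C1 ⊔ G').relIndex G = (C0 ⊔ G').relIndex G :=
    AddSubgroup.relIndex_mul_relIndex _ _ _ hsup (sup_le hC1G inf_le_left)
  have h3 : (C0 ⊔ G').relIndex (C1 ⊔ G') ≠ 1 := by
    rw [Ne, AddSubgroup.relIndex_eq_one]; exact hne
  have h4 : (C1 ⊔ G').relIndex G ≠ 0 := fun h => h0.2 (by rw [← h2, h, mul_zero])
  have h5 : (C0 ⊔ G').relIndex (C1 ⊔ G') ≠ 0 := fun h => h0.2 (by rw [← h2, h, zero_mul])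
  have h6 : C1.relIndex G' ≠ 0 := fun h => h0.1 (Nat.eq_zero_of_zero_dvd (h ▸ h1))
  have hlt : C1.relIndex G < C0.relIndex G := by
    rw [hC1G', hC0G', ← h2]
    have h7 := Nat.le_of_dvd (Nat.pos_of_ne_zero h0.1) h1
    have h8 : 1 < (C0 ⊔ G').relIndex (C1 ⊔ G') := by omega
    calc C1.relIndex G' * (C1 ⊔ G').relIndex G
        ≤ C0.relIndex G' * (C1 ⊔ G').relIndex G := Nat.mul_le_mul_right _ h7
      _ < C0.relIndex G' * ((C0 ⊔ G').relIndex (C1 ⊔ G') * (C1 ⊔ G').relIndex G) := by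
          refine Nat.mul_lt_mul_of_pos_left ?_ (Nat.pos_of_ne_zero h0.1)
          calc (C1 ⊔ G').relIndex G = 1 * (C1 ⊔ G').relIndex G := (one_mul _).symm
            _ < (C0 ⊔ G').relIndex (C1 ⊔ G') * (C1 ⊔ G').relIndex G :=
              Nat.mul_lt_mul_of_pos_right h8 (Nat.pos_of_ne_zero h4)
  refine ⟨C1, Function.update b l w,
    fun i => if i = l then (p : ℚ) • f l else f i - (p * f i w) • f l, ?_, hlt⟩
  have hb : ∀ i, i ≠ l → Function.update b l w i = b i := fun i hi => Function.update_of_ne hi _ _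
  have hbl : Function.update b l w l = w := Function.update_self _ _ _
  have hbN : ∀ i, i ≠ l → ∀ q : ℚ, q • b i ∈ C0 → q • b i ∈ N := by
    intro i hi q hq
    refine ⟨hq, ?_⟩
    change q • b i ∈ P
    rw [memP, map_smul, R.dual, if_neg (Ne.symm hi), smul_zero]
  refine ⟨?_, ?_, hC1G, ?_, ?_, ?_⟩
  · intro i k
    by_cases hk : k = l
    · subst hk
      rw [hbl]
      by_cases hi : i = k
      · rw [if_pos hi, if_pos hi, LinearMap.smul_apply, hfw, smul_eq_mul, mul_inv_cancel₀ hpQ]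
      · rw [if_neg hi, if_neg hi, LinearMap.sub_apply, LinearMap.smul_apply, hfw, smul_eq_mul]
        field_simp
        ring
    · rw [hb k hk]
      by_cases hi : i = l
      · rw [if_pos hi, LinearMap.smul_apply, R.dual, if_neg (Ne.symm hk), smul_zero, if_neg]
        rw [hi]; exact Ne.symm hk
      · rw [if_neg hi, LinearMap.sub_apply, LinearMap.smul_apply, R.dual, R.dual,
          if_neg (Ne.symm hk), smul_zero, sub_zero]
  · intro g hg
    have hwexp := R.expand w hwG
    have hgexp := R.expand g hg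
    rw [← Finset.add_sum_erase _ _ (Finset.mem_univ l)]
    simp only [if_true, hbl]
    have e1 : ∑ i ∈ Finset.univ.erase l,
        (if i = l then (p : ℚ) • f l else f i - (p * f i w) • f l) g • Function.update b l w i =
        ∑ i ∈ Finset.univ.erase l, (f i g • b i - (p * f l g) • (f i w • b i)) := by
      refine Finset.sum_congr rfl fun i hi => ?_
      have hil := Finset.ne_of_mem_erase hi
      rw [if_neg hil, hb i hil, LinearMap.sub_apply, LinearMap.smul_apply, smul_eq_mul, sub_smul,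
        smul_smul]
      congr 2
      ring
    rw [e1, Finset.sum_sub_distrib, ← Finset.smul_sum, LinearMap.smul_apply, smul_eq_mul]
    have e2 : ∑ i ∈ Finset.univ.erase l, f i g • b i = g - f l g • b l := by
      rw [eq_sub_iff_add_eq, add_comm, Finset.add_sum_erase _ (fun i => f i g • b i)
        (Finset.mem_univ l)]
      exact hgexp.symm
    have e3 : ∑ i ∈ Finset.univ.erase l, f i w • b i = w - f l w • b l := by
      rw [eq_sub_iff_add_eq, add_comm, Finset.add_sum_erase _ (fun i => f i w • b i)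
        (Finset.mem_univ l)]
      exact hwexp.symm
    rw [e2, e3, hfw, smul_sub, smul_smul]
    have e4 : (p : ℚ) * f l g * (p : ℚ)⁻¹ = f l g := by field_simp
    rw [e4]
    abel
  · intro i
    by_cases hi : i = l
    · rw [hi, hbl]
      exact le_sup_right (a := N) ((memAw _).mpr ⟨1, h1A, one_smul _ _⟩)
    · rw [hb i hi]
      have := hbN i hi 1 (by rw [one_smul]; exact R.mem i)
      rw [one_smul] at this
      exact le_sup_left (a := N) this
  · intro c hc i
    obtain ⟨n, hn, v, hv, e⟩ := AddSubgroup.mem_sup.mp hc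
    obtain ⟨q, hq, rfl⟩ := (memAw v).mp hv
    have hnl : f l n = 0 := (memP n).mp hn.2
    have hfc : f l c = q * (p : ℚ)⁻¹ := by
      rw [← e, map_add, hnl, map_smul, hfw, zero_add, smul_eq_mul]
    by_cases hi : i = l
    · rw [if_pos hi, hi, hbl, LinearMap.smul_apply, hfc, smul_eq_mul]
      have : (p : ℚ) * (q * (p : ℚ)⁻¹) = q := by field_simp
      rw [this]
      exact le_sup_right (a := N) hv
    · rw [if_neg hi, hb i hi, LinearMap.sub_apply, LinearMap.smul_apply, hfc, smul_eq_mul]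
      have h7 : f i c = f i n + q * f i w := by
        rw [← e, map_add, map_smul, smul_eq_mul]
      have h8 : f i c - (p : ℚ) * f i w * (q * (p : ℚ)⁻¹) = f i n := by
        rw [h7]; field_simp; ring
      rw [h8]
      exact le_sup_left (a := N) (hbN i hi _ (R.coord n hn.1 i))
  · rw [hC1G']
    exact mul_ne_zero h6 h4

/-- Every almost completely decomposable group has a regulating subgroup. -/
theorem exists_regulating (hG : IsACD G) : ∃ C, IsRegulating G C := by
  obtain ⟨H, n, b, f, R⟩ := exists_ref_of_acd hG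
  have key : ∀ (N : ℕ) (C : AddSubgroup V) (b : Fin n → V) (f : Fin n → V →ₗ[ℚ] ℚ),
      Ref G C b f → C.relIndex G = N → ∃ C, IsRegulating G C := by
    intro N
    induction N using Nat.strong_induction_on with
    | _ N ih =>
      intro C b f R hN
      by_cases h : ∀ j, up G (b j) ≤ C ⊔ sharp G (b j)
      · exact ⟨C, R.isRegulating h⟩
      · push Not at h
        obtain ⟨j, hj⟩ := h
        obtain ⟨C1, b', f', R', hlt⟩ := exists_smaller R hj
        exact ih _ (by omega) C1 b' f' R' rfl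
  exact key _ H b f R rfl

end Pool.Agent.Lib.C8da183
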