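import Pool.Agent.Lib.C8da183.Num2

/-!
# The chain condition in terms of the orders of `X / p ^ k X`
-/

namespace Pool.Agent.Lib.C8da183

open scoped Classical

theorem exists_nx {S : Set ℕ} {e : ℕ} (heS : e ∈ S) : ∃ nx : ℕ → ℕ,
    ∀ s, s < e → nx s ∈ S ∧ s < nx s ∧ ∀ t ∈ S, s < t → nx s ≤ t := by
  have : ∀ s, ∃ t, s < e → t ∈ S ∧ s < t ∧ ∀ r ∈ S, s < r → t ≤ r := by
    intro s
    by_cases hs : s < e
    · have hex : ∃ t, t ∈ S ∧ s < t := ⟨e, heS, hs⟩
      refine ⟨Nat.find hex, fun _ => ⟨(Nat.find_spec hex).1, (Nat.find_spec hex).2, ?_⟩⟩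
      intro r hr hsr
      exact Nat.find_min' hex ⟨hr, hsr⟩
    · exact ⟨0, fun h => absurd h hs⟩
  choose nx hnx using this
  exact ⟨nx, hnx⟩

variable {X : Type*} [AddCommGroup X] [Finite X] {p e n' : ℕ} {S : Set ℕ}

theorem index_dvd_of_chain (hp : p.Prime) (cop : n'.Coprime p) (hcard : Nat.card X = p ^ e * n')
    (h0S : 0 ∈ S) (heS : e ∈ S) (hSe : ∀ s ∈ S, s ≤ e) (hch : HasCyclicChain X p S) (k : ℕ) :
    (nsmulAddMonoidHom (α := X) (p ^ k)).range.index ∣ p ^ cnt S 0 e k := by
  obtain ⟨Z, hZ1, hZ2⟩ := hch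
  obtain ⟨nx, hnx⟩ := exists_nx heS
  set pk : AddSubgroup X → AddSubgroup X := fun L => L.map (nsmulAddMonoidHom (α := X) (p ^ k))
    with hpk
  have key : ∀ d, ∀ s ∈ S, e - s = d → (Z e ⊔ pk (Z s)).relIndex (Z s) ∣ p ^ cnt S s e k := by
    intro d
    induction d using Nat.strong_induction_on with
    | _ d ih =>
      intro s hs hd
      rcases Nat.eq_or_lt_of_le (hSe s hs) with h | h
      · subst h
        have : (Z s ⊔ pk (Z s)).relIndex (Z s) = 1 :=
          (AddSubgroup.relIndex_eq_one).mpr le_sup_left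
        rw [this]; exact one_dvd _
      · obtain ⟨n1, n2, n3⟩ := hnx s h
        have hne := hSe _ n1
        obtain ⟨hle, z, hz, hz2⟩ := hZ2 s hs (nx s) n1 n2 (fun r hr h => by
          have := n3 r hr h.1
          omega)
        have hZeZs : ∀ d, ∀ t ∈ S, e - t = d → Z e ≤ Z t := by
          intro d
          induction d using Nat.strong_induction_on with
          | _ d ih2 =>
            intro t ht hd
            rcases Nat.eq_or_lt_of_le (hSe t ht) with h' | h'
            · rw [h']
            · obtain ⟨m1, m2, m3⟩ := hnx t h'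
              have := hSe _ m1
              exact (ih2 _ (by omega) (nx t) m1 rfl).trans (hZ2 t ht (nx t) m1 m2
                (fun r hr h => by
                  have := m3 r hr h.1
                  omega)).1
        have hpks : pk (Z s) ≤ Z s := by
          rintro _ ⟨x, hx, rfl⟩
          exact (Z s).nsmul_mem hx _
        set A := Z e ⊔ pk (Z s) with hA
        have hAs : A ≤ Z s := sup_le (hZeZs _ s hs rfl) hpks
        have h1 : A ≤ A ⊔ Z (nx s) := le_sup_left
        have h2 : A ⊔ Z (nx s) ≤ Z s := sup_le hAs hle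
        rw [← AddSubgroup.relIndex_mul_relIndex _ _ _ h1 h2, cnt_step hs n2 hne n3, pow_add,
          mul_comm (p ^ _)]
        refine Nat.mul_dvd_mul ?_ ?_
        · rw [sup_comm, AddSubgroup.relIndex_sup_right]
          refine (AddSubgroup.relIndex_dvd_of_le_left (Z (nx s)) ?_).trans
            (ih _ (by omega) (nx s) n1 rfl)
          exact sup_le_sup_left (AddSubgroup.map_mono hle) _
        · have h3 : (A ⊔ Z (nx s)).relIndex (Z s) ∣ p ^ (nx s - s) := by
            refine (AddSubgroup.relIndex_dvd_of_le_left (Z s) le_sup_right).trans ?_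
            have h4 := AddSubgroup.relIndex_mul_index hle
            rw [hZ1 s hs, hZ1 _ n1] at h4
            have h5 : p ^ nx s = p ^ (nx s - s) * p ^ s := by
              rw [← pow_add]; congr 1; omega
            rw [h5] at h4
            exact dvd_of_eq (Nat.eq_of_mul_eq_mul_right (pow_pos hp.pos s) h4)
          have h4 : (A ⊔ Z (nx s)).relIndex (Z s) ∣ p ^ k := by
            have h5 : Z s = (A ⊔ Z (nx s)) ⊔ AddSubgroup.zmultiples z := by
              apply le_antisymm
              · exact hz2.trans (sup_le_sup_right le_sup_right _)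
              · exact sup_le h2 (AddSubgroup.zmultiples_le.mpr hz)
            conv_lhs => rw [h5]
            rw [sup_comm _ (AddSubgroup.zmultiples z), AddSubgroup.relIndex_sup_right,
              addOrderOf_relIndex]
            apply addOrderOf_dvd_of_nsmul_eq_zero
            rw [← QuotientAddGroup.mk_nsmul, QuotientAddGroup.eq_zero_iff]
            exact le_sup_left (a := A) (le_sup_right (a := Z e) ⟨z, hz, rfl⟩)
          rcases le_total k (nx s - s) with h5 | h5
          · rw [min_eq_left h5]; exact h4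
          · rw [min_eq_right h5]; exact h3
  have h1 := key _ 0 h0S rfl
  have hZ0 : Z 0 = ⊤ := by
    have := hZ1 0 h0S
    rw [pow_zero, AddSubgroup.index_eq_one] at this
    exact this
  rw [hZ0, AddSubgroup.relIndex_top_right] at h1
  have h2 : Z e ⊔ pk ⊤ = (nsmulAddMonoidHom (α := X) (p ^ k)).range := by
    rw [hpk]
    simp only
    rw [← AddMonoidHom.range_eq_map, sup_eq_right]
    intro x hx
    have hc : Nat.card (Z e) * (Z e).index = Nat.card X := AddSubgroup.card_mul_index _
    rw [hZ1 e heS, hcard, mul_comm] at hc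
    have h2 : Nat.card (Z e) = n' := Nat.eq_of_mul_eq_mul_left (pow_pos hp.pos e) hc
    have h3 : n' • x = 0 := by
      have h4 : Nat.card (Z e) • (⟨x, hx⟩ : Z e) = 0 := card_nsmul_eq_zero'
      rw [h2] at h4
      exact congrArg Subtype.val h4
    obtain ⟨α, β, h5⟩ : IsCoprime (n' : ℤ) ((p ^ k : ℕ) : ℤ) :=
      Nat.isCoprime_iff_coprime.mpr (Nat.Coprime.pow_right _ cop)
    have h6 : x = α • (n' • x) + β • (p ^ k • x) := by
      rw [← natCast_zsmul, ← natCast_zsmul, smul_smul, smul_smul, ← add_smul, h5, one_smul]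
    refine ⟨β • x, ?_⟩
    change p ^ k • (β • x) = x
    rw [smul_comm]
    rw [h3, smul_zero, zero_add] at h6
    exact h6.symm
  rwa [h2] at h1

theorem chain_of_index_le (hp : p.Prime) (cop : n'.Coprime p) (hcard : Nat.card X = p ^ e * n')
    (h0S : 0 ∈ S) (heS : e ∈ S) (hSe : ∀ s ∈ S, s ≤ e)
    (hle : ∀ k, (nsmulAddMonoidHom (α := X) (p ^ k)).range.index ≤ p ^ cnt S 0 e k) :
    HasCyclicChain X p S := by
  obtain ⟨nx, hnx⟩ := exists_nx heS
  set P := (nsmulAddMonoidHom (α := X) (p ^ e)).range with hP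
  have hfac : (Nat.card X).factorization p = e := by
    rw [hcard, Nat.factorization_mul (pow_pos hp.pos e).ne' (by
      intro h
      rw [h, Nat.coprime_zero_left] at cop
      exact hp.one_lt.ne' cop), Finsupp.add_apply, hp.factorization_pow,
      Finsupp.single_eq_same, Nat.factorization_eq_zero_of_not_dvd, add_zero]
    intro h
    have h6 := Nat.dvd_gcd h dvd_rfl
    rw [cop.gcd_eq_one] at h6
    exact hp.one_lt.ne' (Nat.dvd_one.mp h6)
  have hPi : P.index = p ^ e := by
    rw [hP, index_range_nsmul, card_ker_nsmul hp cop (dvd_of_eq hcard), hfac]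
  have hYcard : Nat.card (X ⧸ P) = p ^ e := hPi
  obtain ⟨ι, _, _, x, l, B⟩ := exists_BD hp hYcard
  have hl : ∑ i, l i = e := by
    have h1 := B.card
    rw [hYcard] at h1
    exact (Nat.pow_right_injective hp.two_le h1).symm
  have hF : ∀ k, ∑ i, min (l i) k ≤ cnt S 0 e k := by
    intro k
    have h1 := B.prod_le hp k
    have h2 : (nsmulAddMonoidHom (α := X ⧸ P) (p ^ k)).range =
        (nsmulAddMonoidHom (α := X) (p ^ k)).range.map (QuotientAddGroup.mk' P) := by
      apply le_antisymm
      · rintro _ ⟨y, rfl⟩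
        obtain ⟨y, rfl⟩ := QuotientAddGroup.mk'_surjective P y
        exact ⟨_, ⟨y, rfl⟩, map_nsmul _ _ _⟩
      · rintro _ ⟨_, ⟨y, rfl⟩, rfl⟩
        exact ⟨QuotientAddGroup.mk' P y, (map_nsmul _ _ _).symm⟩
    have h3 : (nsmulAddMonoidHom (α := X ⧸ P) (p ^ k)).range.index ∣
        (nsmulAddMonoidHom (α := X) (p ^ k)).range.index := by
      rw [h2]
      exact AddSubgroup.index_map_dvd _ (QuotientAddGroup.mk'_surjective P)
    have h4 : 0 < (nsmulAddMonoidHom (α := X) (p ^ k)).range.index := by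
      rw [index_range_nsmul]; exact Nat.card_pos
    have h5 := (h1.trans (Nat.le_of_dvd h4 h3)).trans (hle k)
    exact (Nat.pow_le_pow_iff_right hp.one_lt).mp h5
  obtain ⟨W, hW1, hW2⟩ := chain_of_BD hp nx hnx hSe _ 0 h0S rfl (X ⧸ P) ι x l B (by omega) hF
  refine ⟨fun s => (W s).comap (QuotientAddGroup.mk' P), ?_, ?_⟩
  · intro s hs
    simp only
    rw [AddSubgroup.index_comap_of_surjective _ (QuotientAddGroup.mk'_surjective P),
      hW1 s hs (Nat.zero_le _), Nat.sub_zero]
  · intro s hs t ht hst hcons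
    obtain ⟨h1, w, hw, h2⟩ := hW2 s hs (Nat.zero_le _) t ht hst hcons
    obtain ⟨z, rfl⟩ := QuotientAddGroup.mk'_surjective P w
    refine ⟨AddSubgroup.comap_mono h1, z, hw, ?_⟩
    intro y hy
    obtain ⟨w1, hw1, w2, ⟨k, hk⟩, e1⟩ := AddSubgroup.mem_sup.mp (h2 hy)
    rw [AddSubgroup.mem_sup]
    refine ⟨y - k • z, ?_, k • z, ⟨k, rfl⟩, by abel⟩
    rw [AddSubgroup.mem_comap]
    have hk' : k • (QuotientAddGroup.mk' P z) = w2 := hk
    have : QuotientAddGroup.mk' P (y - k • z) = w1 := by
      rw [map_sub, map_zsmul, hk', ← e1]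
      abel
    rw [this]
    exact hw1

theorem chain_iff_index (hp : p.Prime) (cop : n'.Coprime p) (hcard : Nat.card X = p ^ e * n')
    (h0S : 0 ∈ S) (heS : e ∈ S) (hSe : ∀ s ∈ S, s ≤ e) : HasCyclicChain X p S ↔
      ∀ k, (nsmulAddMonoidHom (α := X) (p ^ k)).range.index ≤ p ^ cnt S 0 e k :=
  ⟨fun h k => Nat.le_of_dvd (pow_pos hp.pos _)
    (index_dvd_of_chain hp cop hcard h0S heS hSe h k),
    fun h => chain_of_index_le hp cop hcard h0S heS hSe h⟩

end Pool.Agent.Lib.C8da183
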