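import Pool.Agent.Lib.C8da183.Chain
import Pool.Agent.Lib.C8da183.Num3

/-!
# The regulating quotients of a group with a cyclic regulating quotient: numerical form
-/

namespace Pool.Agent.Lib.C8da183

open scoped Classical

theorem gapSum_eq_cnt (S : Set ℕ) (e k : ℕ) : gapSum S e k = cnt S 0 e k := by
  unfold gapSum cnt
  rw [← Set.ncard_coe_finset]
  congr 1
  ext m
  simp [and_assoc]

variable {V : Type*} [AddCommGroup V] [Module ℚ V]
variable {G C : AddSubgroup V}

theorem regQuot_tfae (hG : IsACD G) (hC : IsRegulating G C)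
    (hcyc : IsAddCyclic (G ⧸ C.addSubgroupOf G)) (X : Type*) [AddCommGroup X] [Finite X] :
    List.TFAE [RegQuot G X,
      Nat.card X = C.relIndex G ∧ ∀ p, p.Prime → HasCyclicChain X p (breaks G C p),
      Nat.card X = C.relIndex G ∧ ∀ p, p.Prime → ∀ k,
        Nat.card (X ⧸ (nsmulAddMonoidHom (α := X) (p ^ k)).range) ≤
          p ^ gapSum (breaks G C p) ((C.relIndex G).factorization p) k] := by
  tfae_have 1 ↔ 2 := regQuot_iff_chain hG hC hcyc
  tfae_have 2 ↔ 3 := by
    refine and_congr_right fun hcard => ?_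
    refine forall_congr' fun p => forall_congr' fun hp => ?_
    obtain ⟨J, _, _, b, f, R⟩ := hC.exists_ref hG
    obtain ⟨u, hu, hgen, hord⟩ := exists_gen hcyc
    have hreg : ∀ x ∈ G, x ≠ 0 → up G x ≤ C ⊔ sharp G x :=
      fun x hx hx0 => hC.up_le_sup hx hx0
    obtain ⟨a, Δ⟩ := exists_cdata R hreg hu hgen hord hp
    have hbr := Δ.breaks_eq (Nat.ordProj_mul_ordCompl_eq_self _ p).symm rfl
    have h := chain_iff_index (X := X) (S := breaks G C p) hp Δ.cop
      (hcard.trans (Nat.ordProj_mul_ordCompl_eq_self _ p).symm) (Or.inl rfl)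
      (Or.inr (Or.inl rfl)) (by
        intro s hs
        rw [hbr] at hs
        exact Δ.SB_le_e hs)
    rw [h]
    refine forall_congr' fun k => ?_
    rw [gapSum_eq_cnt]
    rfl
  tfae_finish

end Pool.Agent.Lib.C8da183
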