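import Pool.Agent.Lib.C8da183.Lift

/-!
# Moving a homogeneous completely decomposable complement into a subgroup of finite index
-/

namespace Pool.Agent.Lib.C8da183

variable {V : Type*} [AddCommGroup V] [Module ℚ V]

theorem exists_linear {n : ℕ} {b : Fin n → V} (li : LinearIndependent ℚ b) (w : Fin n → V) :
    ∃ Φ : V →ₗ[ℚ] V, ∀ k, Φ (b k) = w k := by
  classical
  have hinj : LinearMap.ker (Fintype.linearCombination ℚ b) = ⊥ := by
    rw [LinearMap.ker_eq_bot]
    exact (linearIndependent_iff_injective_fintypeLinearCombination).mp li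
  obtain ⟨F, hF⟩ := LinearMap.exists_leftInverse_of_injective _ hinj
  refine ⟨(Fintype.linearCombination ℚ w).comp F, fun k => ?_⟩
  have h1 : b k = Fintype.linearCombination ℚ b (Pi.single k 1) := by
    rw [Fintype.linearCombination_apply_single, one_smul]
  have h2 : F (b k) = Pi.single k 1 := by
    have := LinearMap.congr_fun hF (Pi.single k 1)
    rw [h1]
    exact this
  rw [LinearMap.comp_apply, h2, Fintype.linearCombination_apply_single, one_smul]

theorem exists_smul_mem_of_span {D : AddSubgroup V} {v : V}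
    (hv : v ∈ Submodule.span ℚ (D : Set V)) : ∃ N : ℕ, 0 < N ∧ N • v ∈ D := by
  induction hv using Submodule.span_induction with
  | mem z hz => exact ⟨1, one_pos, by simpa using hz⟩
  | zero => exact ⟨1, one_pos, by simp [D.zero_mem]⟩
  | add u v _ _ hu hv =>
    obtain ⟨n, hn, h1⟩ := hu
    obtain ⟨m, hm, h2⟩ := hv
    refine ⟨n * m, Nat.mul_pos hn hm, ?_⟩
    have : (n * m) • (u + v) = m • (n • u) + n • (m • v) := by
      rw [smul_add, mul_smul, mul_smul, smul_comm n m u]
    rw [this]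
    exact D.add_mem (D.nsmul_mem h1 m) (D.nsmul_mem h2 n)
  | smul c u _ hu =>
    obtain ⟨n, hn, h1⟩ := hu
    refine ⟨n * c.den, Nat.mul_pos hn c.den_pos, ?_⟩
    have h2 := D.zsmul_mem h1 c.num
    have : (n * c.den) • (c • u) = c.num • (n • u) := by
      rw [nsmul_eq, nsmul_eq, ← Int.cast_smul_eq_zsmul ℚ, smul_smul, smul_smul]
      congr 1
      have : (c.den : ℚ) * c = c.num := by rw [mul_comm]; exact Rat.mul_den_eq_num c
      push_cast
      rw [mul_assoc, this]
      ring
    rw [this]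
    exact h2

theorem lift_homog {G D K : AddSubgroup V} {x : V} (hD : IsHomogCD D G x)
    (hsup : D ⊔ sharp G x = up G x) (hinf : D ⊓ sharp G x = ⊥)
    (hfin : K.relIndex G ≠ 0) (hle : up G x ≤ K ⊔ sharp G x) :
    ∃ D' : AddSubgroup V, IsHomogCD D' G x ∧ D' ⊔ sharp G x = up G x ∧ D' ⊓ sharp G x = ⊥ ∧
      D' ≤ K := by
  obtain ⟨n, b, li, hb, htype, hdec⟩ := hD
  obtain ⟨hN, hNK⟩ := exists_nsmul_mem hfin
  have hDup : D ≤ up G x := by rw [← hsup]; exact le_sup_left
  set A : Fin n → AddSubgroup ℚ := fun k =>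
    D.comap (LinearMap.toSpanSingleton ℚ V (b k)).toAddMonoidHom with hA
  have memA : ∀ k q, q ∈ A k ↔ q • b k ∈ D := fun k q => by
    simp [hA, AddSubgroup.mem_comap]
  have hw : ∀ k, ∃ w : V, ∀ q ∈ A k, q • w ∈ sharp G x ∧ q • (b k - w) ∈ K := by
    intro k
    apply lift_one (A := A k) ((memA k 1).mpr (by simpa using hb k)) hN
    · intro q hq
      exact hNK _ (hDup ((memA k q).mp hq)).1
    · intro y hy
      exact hNK _ hy.1
    · intro q hq
      have h1 := hle (hDup ((memA k q).mp hq))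
      obtain ⟨k', hk', h, hh, e⟩ := AddSubgroup.mem_sup.mp h1
      exact ⟨h, hh, by rw [← e]; simpa using hk'⟩
    · intro y hy
      have h1 : TypeLE D (b k) G y := (htype k).1.trans (sharp_le_up hy).2
      obtain ⟨m, hm, h2⟩ := h1
      refine ⟨m, hm, fun q hq => ⟨h2 q ((memA k q).mp hq), ?_⟩⟩
      have h3 : y ∈ Submodule.span ℚ {z | z ∈ G ∧ TypeLE G x G z ∧ ¬ TypeLE G z G x} := hy.2
      change q • (m • y) ∈ Submodule.span ℚ _
      rw [nsmul_eq]
      exact Submodule.smul_mem _ _ (Submodule.smul_mem _ _ h3)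
  choose w hw using hw
  obtain ⟨Φ, hΦ⟩ := exists_linear li w
  set T : V →ₗ[ℚ] V := LinearMap.id - Φ with hT
  have hTb : ∀ k, T (b k) = b k - w k := fun k => by simp [hT, hΦ]
  have hΦD : ∀ d ∈ D, Φ d ∈ sharp G x ∧ T d ∈ K := by
    intro d hd
    obtain ⟨q, hq, e⟩ := hdec d hd
    constructor
    · rw [e, map_sum]
      refine AddSubgroup.sum_mem _ fun k _ => ?_
      rw [map_smul, hΦ]
      exact (hw k _ ((memA k _).mpr (hq k))).1
    · rw [e, map_sum]
      refine AddSubgroup.sum_mem _ fun k _ => ?_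
      rw [map_smul, hTb]
      exact (hw k _ ((memA k _).mpr (hq k))).2
  have hTd : ∀ d, T d = d - Φ d := fun d => by simp [hT]
  have hinj : ∀ v ∈ Submodule.span ℚ (D : Set V), T v = 0 → v = 0 := by
    intro v hv hTv
    obtain ⟨N, hN0, hNv⟩ := exists_smul_mem_of_span hv
    have h1 : v = Φ v := by
      rw [hTd] at hTv
      exact sub_eq_zero.mp hTv
    have h2 : N • v = Φ (N • v) := by rw [map_nsmul, ← h1]
    have h3 : N • v ∈ D ⊓ sharp G x := ⟨hNv, by rw [h2]; exact (hΦD _ hNv).1⟩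
    rw [hinf, AddSubgroup.mem_bot, nsmul_eq, smul_eq_zero] at h3
    rcases h3 with h3 | h3
    · exact absurd h3 (by exact_mod_cast hN0.ne')
    · exact h3
  refine ⟨D.map T.toAddMonoidHom, ⟨n, fun k => T (b k), ?_, ?_, ?_, ?_⟩, ?_, ?_, ?_⟩
  · refine li.map ?_
    rw [Submodule.disjoint_def]
    intro v hv hvk
    refine hinj v (Submodule.span_mono ?_ hv) (by simpa using hvk)
    rintro _ ⟨k, rfl⟩
    exact hb k
  · intro k
    exact AddSubgroup.mem_map_of_mem _ (hb k)
  · intro k
    have key : ∀ q : ℚ, q • T (b k) ∈ D.map T.toAddMonoidHom → q • b k ∈ D := by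
      intro q hq
      obtain ⟨d, hd, e⟩ := hq
      have e' : T d = q • T (b k) := e
      have : q • b k - d = 0 := by
        apply hinj
        · exact Submodule.sub_mem _ (Submodule.smul_mem _ _ (Submodule.subset_span (hb k)))
            (Submodule.subset_span hd)
        · rw [map_sub, map_smul, e', sub_self]
      rw [sub_eq_zero] at this
      rw [this]; exact hd
    constructor
    · obtain ⟨m, hm, h⟩ := (htype k).1
      exact ⟨m, hm, fun q hq => h q (key q hq)⟩
    · obtain ⟨m, hm, h⟩ := (htype k).2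
      refine ⟨m, hm, fun q hq => ?_⟩
      refine ⟨q • (m • b k), h q hq, ?_⟩
      change T (q • (m • b k)) = _
      rw [map_smul, map_nsmul]
  · rintro _ ⟨d, hd, rfl⟩
    obtain ⟨q, hq, e⟩ := hdec d hd
    refine ⟨q, fun k => ⟨q k • b k, hq k, ?_⟩, ?_⟩
    · change T (q k • b k) = _
      rw [map_smul]
    · change T d = _
      rw [e, map_sum]
      simp only [map_smul]
  · apply le_antisymm
    · refine sup_le ?_ sharp_le_up
      rintro _ ⟨d, hd, rfl⟩
      change T d ∈ _
      rw [hTd]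
      exact AddSubgroup.sub_mem _ (hDup hd) (sharp_le_up (hΦD d hd).1)
    · intro y hy
      rw [← hsup] at hy
      obtain ⟨d, hd, s, hs, e⟩ := AddSubgroup.mem_sup.mp hy
      rw [AddSubgroup.mem_sup]
      refine ⟨T d, ⟨d, hd, rfl⟩, Φ d + s, AddSubgroup.add_mem _ (hΦD d hd).1 hs, ?_⟩
      rw [hTd, ← e]
      abel
  · rw [eq_bot_iff]
    rintro y ⟨⟨d, hd, e⟩, hy⟩
    have e' : T d = y := e
    have h1 : d ∈ D ⊓ sharp G x := by
      refine ⟨hd, ?_⟩
      have : d = y + Φ d := by rw [← e', hTd]; abel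
      change d ∈ sharp G x
      rw [this]
      exact AddSubgroup.add_mem _ hy (hΦD d hd).1
    rw [hinf, AddSubgroup.mem_bot] at h1
    rw [AddSubgroup.mem_bot, ← e', h1, map_zero]
  · rintro _ ⟨d, hd, rfl⟩
    exact (hΦD d hd).2

end Pool.Agent.Lib.C8da183
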