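import Pool.Agent.Lib.C8da183.Basic

/-!
# Lifting homomorphisms from homogeneous completely decomposable groups
-/

namespace Pool.Agent.Lib.C8da183

theorem exists_common (A : AddSubgroup ℚ) {a a' : ℚ} (ha : a ∈ A) (ha' : a' ∈ A) :
    ∃ a1 ∈ A, ∃ k l : ℤ, a = k * a1 ∧ a' = l * a1 := by
  set D : ℤ := a.den * a'.den with hD
  have hD0 : (D : ℚ) ≠ 0 := by
    rw [hD]; push_cast
    exact mul_ne_zero (by exact_mod_cast a.den_ne_zero) (by exact_mod_cast a'.den_ne_zero)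
  set x : ℤ := a.num * a'.den
  set y : ℤ := a'.num * a.den
  have hx : a = x / D := by
    rw [eq_div_iff hD0]
    have h1 : a * a.den = a.num := Rat.mul_den_eq_num a
    rw [hD]; push_cast
    calc a * (a.den * a'.den) = a * a.den * a'.den := by ring
      _ = _ := by rw [h1]; simp [x]
  have hy : a' = y / D := by
    rw [eq_div_iff hD0]
    have h1 : a' * a'.den = a'.num := Rat.mul_den_eq_num a'
    rw [hD]; push_cast
    calc a' * (a.den * a'.den) = a' * a'.den * a.den := by ring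
      _ = _ := by rw [h1]; simp [y]
  set g : ℤ := (Int.gcd x y : ℤ) with hg
  have hbez := Int.gcd_eq_gcd_ab x y
  refine ⟨g / D, ?_, x / g, y / g, ?_, ?_⟩
  · have : ((g : ℚ) / D) = (Int.gcdA x y : ℤ) • a + (Int.gcdB x y : ℤ) • a' := by
      rw [hx, hy, zsmul_eq_mul, zsmul_eq_mul]
      rw [← hg] at hbez
      rw [hbez]
      push_cast
      ring
    rw [this]
    exact A.add_mem (A.zsmul_mem ha _) (A.zsmul_mem ha' _)
  · have h2 : (x / g) * g = x := Int.ediv_mul_cancel (Int.gcd_dvd_left ..)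
    rw [← mul_div_assoc]
    conv_lhs => rw [hx]
    congr 1
    exact_mod_cast h2.symm
  · have h2 : (y / g) * g = y := Int.ediv_mul_cancel (Int.gcd_dvd_right ..)
    rw [← mul_div_assoc]
    conv_lhs => rw [hy]
    congr 1
    exact_mod_cast h2.symm

/-- A rank one group is cyclic modulo `N`. -/
theorem exists_cyc (A : AddSubgroup ℚ) (h1 : (1 : ℚ) ∈ A) {N : ℕ} (hN : 0 < N) :
    ∃ a0 ∈ A, a0 ≠ 0 ∧ ∀ a ∈ A, ∃ z : ℤ, ∃ a' ∈ A, a = z * a0 + N * a' := by
  classical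
  set NA : AddSubgroup A := (nsmulAddMonoidHom (α := A) N).range with hNA
  set f : A → ℕ := fun a => addOrderOf (a : A ⧸ NA) with hf
  have hfN : ∀ a, f a ∣ N := by
    intro a
    rw [hf]
    apply addOrderOf_dvd_of_nsmul_eq_zero
    rw [← QuotientAddGroup.mk_nsmul, QuotientAddGroup.eq_zero_iff]
    exact ⟨a, rfl⟩
  have hpos : ∀ a, 0 < f a := fun a => Nat.pos_of_dvd_of_pos (hfN a) hN
  have hfin : (Set.range f).Finite := (Set.finite_Iic N).subset (by
    rintro _ ⟨a, rfl⟩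
    exact Nat.le_of_dvd hN (hfN a))
  obtain ⟨_, ⟨a0, rfl⟩, hmax⟩ := Set.exists_max_image (Set.range f) id hfin ⟨_, ⟨0, rfl⟩⟩
  have key : ∀ a ∈ A, ∃ z : ℤ, ∃ a' ∈ A, a = z * (a0 : ℚ) + N * a' := by
    intro a ha
    obtain ⟨a1, ha1, k, l, hk, hl⟩ := exists_common A a0.2 ha
    set A1 : A := ⟨a1, ha1⟩
    have e0 : a0 = k • A1 := Subtype.ext (by simpa [A1] using hk)
    have e1 : (⟨a, ha⟩ : A) = l • A1 := Subtype.ext (by simpa [A1] using hl)
    have hle : AddSubgroup.zmultiples (a0 : A ⧸ NA) ≤ AddSubgroup.zmultiples (A1 : A ⧸ NA) := by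
      rw [AddSubgroup.zmultiples_le]
      refine ⟨k, ?_⟩
      change k • (A1 : A ⧸ NA) = (a0 : A ⧸ NA)
      rw [← QuotientAddGroup.mk_zsmul, ← e0]
    have hc0 : Nat.card (AddSubgroup.zmultiples (a0 : A ⧸ NA)) = f a0 := Nat.card_zmultiples _
    have hc1 : Nat.card (AddSubgroup.zmultiples (A1 : A ⧸ NA)) = f A1 := Nat.card_zmultiples _
    have : Finite (AddSubgroup.zmultiples (A1 : A ⧸ NA)) :=
      Nat.finite_of_card_ne_zero (by rw [hc1]; exact (hpos A1).ne')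
    have heq := AddSubgroup.eq_of_le_of_card_ge hle (by
      rw [hc0, hc1]
      exact hmax _ ⟨A1, rfl⟩)
    have hmem : (A1 : A ⧸ NA) ∈ AddSubgroup.zmultiples (a0 : A ⧸ NA) := by
      rw [heq]; exact AddSubgroup.mem_zmultiples _
    have hmem2 : ((⟨a, ha⟩ : A) : A ⧸ NA) ∈ AddSubgroup.zmultiples (a0 : A ⧸ NA) := by
      rw [e1, QuotientAddGroup.mk_zsmul]
      exact AddSubgroup.zsmul_mem _ hmem _
    obtain ⟨z, hz⟩ := hmem2
    change z • (a0 : A ⧸ NA) = _ at hz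
    rw [← QuotientAddGroup.mk_zsmul, QuotientAddGroup.eq] at hz
    obtain ⟨a', ha'⟩ := hz
    refine ⟨z, a', a'.2, ?_⟩
    have := congrArg Subtype.val ha'
    simp only [nsmulAddMonoidHom_apply, AddSubgroup.coe_nsmul, AddSubgroup.coe_add,
      AddSubgroup.coe_neg, AddSubgroup.coe_zsmul, nsmul_eq_mul, zsmul_eq_mul] at this
    rw [this]
    ring
  by_cases h0 : (a0 : ℚ) = 0
  · refine ⟨1, h1, one_ne_zero, fun a ha => ?_⟩
    obtain ⟨z, a', ha', e⟩ := key a ha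
    exact ⟨0, a', ha', by rw [e, h0]; simp⟩
  · exact ⟨a0, a0.2, h0, key⟩

theorem exists_split (N : ℕ) : ∀ n : ℕ, 0 < n → ∃ n1 n2 k : ℕ, n = n1 * n2 ∧ Nat.Coprime n2 N ∧
    n1 ∣ N ^ k := by
  intro n
  induction n using Nat.strong_induction_on with
  | _ n ih =>
    intro hn
    by_cases hc : Nat.Coprime n N
    · exact ⟨1, n, 0, by simp, hc, by simp⟩
    · have hd : Nat.gcd n N ≠ 1 := hc
      obtain ⟨n', hn'⟩ := Nat.gcd_dvd_left n N
      have hg0 : 0 < Nat.gcd n N := Nat.gcd_pos_of_pos_left _ hn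
      have hn'0 : 0 < n' := by
        rcases Nat.eq_zero_or_pos n' with h | h
        · rw [h, mul_zero] at hn'; omega
        · exact h
      have hlt : n' < n := by
        have : 2 ≤ Nat.gcd n N := by omega
        calc n' < 2 * n' := by omega
          _ ≤ Nat.gcd n N * n' := Nat.mul_le_mul_right _ this
          _ = n := hn'.symm
      obtain ⟨n1, n2, k, e, c, d⟩ := ih n' hlt hn'0
      refine ⟨Nat.gcd n N * n1, n2, k + 1, ?_, c, ?_⟩
      · rw [mul_assoc, ← e]; exact hn'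
      · rw [pow_succ, mul_comm (N ^ k)]
        exact Nat.mul_dvd_mul (Nat.gcd_dvd_right _ _) d

variable {V : Type*} [AddCommGroup V] [Module ℚ V]

theorem lift_one {A : AddSubgroup ℚ} (h1 : (1 : ℚ) ∈ A) {N : ℕ} (hN : 0 < N)
    {H K : AddSubgroup V} {b : V} (hK1 : ∀ q ∈ A, N • (q • b) ∈ K) (hK2 : ∀ y ∈ H, N • y ∈ K)
    (hH : ∀ q ∈ A, ∃ h ∈ H, q • b - h ∈ K)
    (hdiv : ∀ y ∈ H, ∃ n : ℕ, 0 < n ∧ ∀ q ∈ A, q • (n • y) ∈ H) :
    ∃ w : V, ∀ q ∈ A, q • w ∈ H ∧ q • (b - w) ∈ K := by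
  obtain ⟨a0, ha0, ha00, hcyc⟩ := exists_cyc A h1 hN
  obtain ⟨y, hy, hyK⟩ := hH a0 ha0
  obtain ⟨n', hn', hn'A⟩ := hdiv y hy
  set n : ℕ := n' * a0.num.natAbs with hn
  have hnum : a0.num ≠ 0 := Rat.num_ne_zero.mpr ha00
  have hn0 : 0 < n := Nat.mul_pos hn' (Int.natAbs_pos.mpr hnum)
  have hden : a0 * a0.den = a0.num := Rat.mul_den_eq_num a0
  have hB : ∀ q ∈ A, (q / a0 * n) • y ∈ H := by
    intro q hq
    have h2 := hn'A q hq
    rw [nsmul_eq, smul_smul] at h2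
    obtain ⟨s, hs⟩ : ∃ s : ℤ, (a0.num.natAbs : ℤ) = s * a0.num := by
      rcases Int.natAbs_eq a0.num with h | h
      · exact ⟨1, by rw [one_mul]; exact h.symm⟩
      · exact ⟨-1, by omega⟩
    have hsQ : ((a0.num.natAbs : ℕ) : ℚ) = s * a0.num := by
      rw [← Int.cast_natCast (R := ℚ), hs, Int.cast_mul]
    have : q / a0 * n = ((s * a0.den : ℤ) : ℚ) * (q * n') := by
      rw [hn]
      push_cast
      rw [hsQ, ← hden]
      field_simp
    rw [this, mul_smul, Int.cast_smul_eq_zsmul]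
    exact H.zsmul_mem h2 _
  obtain ⟨n1, n2, k, hn12, hcop, hdvd⟩ := exists_split N n hn0
  have hcyck : ∀ k : ℕ, ∀ q ∈ A, ∃ z : ℤ, ∃ a' ∈ A, q = z * a0 + (N ^ k : ℕ) * a' := by
    intro k
    induction k with
    | zero => intro q hq; exact ⟨0, q, hq, by simp⟩
    | succ k ih =>
      intro q hq
      obtain ⟨z, a', ha', e⟩ := ih q hq
      obtain ⟨z', a'', ha'', e'⟩ := hcyc a' ha'
      refine ⟨z + N ^ k * z', a'', ha'', ?_⟩
      rw [e, e']
      push_cast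
      ring
  have hn2 : ∀ q ∈ A, (q / a0 * n2) • y ∈ H := by
    intro q hq
    obtain ⟨z, a', ha', e⟩ := hcyck k q hq
    obtain ⟨t, ht⟩ := hdvd
    have h3 := hB _ (A.nsmul_mem ha' t)
    have h4 : q / a0 * n2 = ((z * n2 : ℤ) : ℚ) + (t • a') / a0 * n := by
      rw [e, hn12, ht, nsmul_eq_mul]
      push_cast
      field_simp
      try ring
    rw [h4, add_smul, Int.cast_smul_eq_zsmul]
    exact H.add_mem (H.zsmul_mem hy _) h3
  obtain ⟨m, t, hmt⟩ : IsCoprime (n2 : ℤ) (N : ℤ) := Nat.isCoprime_iff_coprime.mpr hcop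
  set w : V := ((m * n2 : ℤ) / a0 : ℚ) • y with hw
  have hwH : ∀ q ∈ A, q • w ∈ H := by
    intro q hq
    have : q • w = m • ((q / a0 * n2) • y) := by
      rw [hw, smul_smul, ← Int.cast_smul_eq_zsmul ℚ, smul_smul]
      congr 1
      push_cast
      ring
    rw [this]
    exact H.zsmul_mem (hn2 q hq) _
  refine ⟨w, fun q hq => ⟨hwH q hq, ?_⟩⟩
  obtain ⟨z, a', ha', e⟩ := hcyc q hq
  have h5 : a0 • w = y - t • (N • y) := by
    rw [hw, smul_smul]
    have : a0 * (((m * n2 : ℤ) : ℚ) / a0) = 1 - t * N := by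
      rw [mul_div_cancel₀ _ ha00]
      have : (m : ℚ) * n2 + t * N = 1 := by exact_mod_cast hmt
      push_cast
      linarith
    rw [this, sub_smul, one_smul, mul_smul, ← Int.cast_smul_eq_zsmul ℚ, nsmul_eq]
  have h6 : q • (b - w) = z • ((a0 • b - y) + t • (N • y)) + N • (a' • b) - N • (a' • w) := by
    have h7 : (a0 • b - y) + t • (N • y) = a0 • b - a0 • w := by
      rw [h5]; abel
    rw [h7, ← smul_sub, ← Int.cast_smul_eq_zsmul ℚ, nsmul_eq, nsmul_eq, smul_smul,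
      add_sub_assoc, ← smul_sub, ← smul_sub, smul_smul, ← add_smul, ← e]
  rw [h6]
  refine K.sub_mem (K.add_mem (K.zsmul_mem (K.add_mem hyK (K.zsmul_mem (hK2 y hy) _)) _)
    (hK1 _ ha')) (hK2 _ (hwH _ ha'))

end Pool.Agent.Lib.C8da183
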