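import Pool.Agent.Lib.C8da183.Criterion

/-!
# Intrinsic description of the regulating subgroups and regulating quotients
-/

namespace Pool.Agent.Lib.C8da183

open scoped Classical

variable {V : Type*} [AddCommGroup V] [Module ℚ V] {G C : AddSubgroup V}

/-- `K` is a subgroup of finite index in `G` such that `G(τ)` and `G^#(τ)` have the same image in
`G / K`, for all types `τ`. -/
def IsFull (G K : AddSubgroup V) : Prop :=
  K ≤ G ∧ K.relIndex G ≠ 0 ∧ ∀ x ∈ G, x ≠ 0 → K ⊔ up G x = K ⊔ sharp G x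

theorem sup_up_eq_iff {K : AddSubgroup V} {x : V} :
    K ⊔ up G x = K ⊔ sharp G x ↔ up G x ≤ K ⊔ sharp G x := by
  constructor
  · intro h
    exact le_sup_right.trans h.le
  · intro h
    refine le_antisymm (sup_le le_sup_left h) (sup_le le_sup_left ?_)
    exact sharp_le_up.trans le_sup_right

theorem isFull_iff {K : AddSubgroup V} : IsFull G K ↔
    K ≤ G ∧ K.relIndex G ≠ 0 ∧ ∀ x ∈ G, x ≠ 0 → up G x ≤ K ⊔ sharp G x := by
  unfold IsFull
  simp only [sup_up_eq_iff]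

/-- Every full subgroup contains a regulating subgroup. -/
theorem IsFull.exists_regulating_le (hG : IsACD G) (hC : IsRegulating G C)
    {K : AddSubgroup V} (hK : IsFull G K) : ∃ C', IsRegulating G C' ∧ C' ≤ K := by
  rw [isFull_iff] at hK
  obtain ⟨hKG, hK0, hup⟩ := hK
  obtain ⟨D, hD, hCD⟩ := isRegulating_iff.mp hC
  set P : V → AddSubgroup V → Prop := fun x H =>
    IsHomogCD H G x ∧ H ⊔ sharp G x = up G x ∧ H ⊓ sharp G x = ⊥ ∧ H ≤ K with hP
  have hex : ∀ x ∈ G, x ≠ 0 → ∃ H, P x H := by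
    intro x hx hx0
    obtain ⟨h1, h2, h3⟩ := hD.prop x hx hx0
    exact lift_homog h1 h2 h3 hK0 (hup x hx hx0)
  have hPeq : ∀ x ∈ G, ∀ y ∈ G, TypeLE G x G y → TypeLE G y G x → P x = P y := by
    intro x _ y _ h1 h2
    ext H
    simp only [hP]
    rw [up_eq_of_equiv h1 h2, sharp_eq_of_equiv h1 h2]
    constructor
    · rintro ⟨a, b⟩; exact ⟨isHomogCD_congr h1 h2 a, b⟩
    · rintro ⟨a, b⟩; exact ⟨isHomogCD_congr h2 h1 a, b⟩
  set D' : V → AddSubgroup V := fun x => Classical.epsilon (P x) with hD'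
  have hspec : ∀ x ∈ G, x ≠ 0 → P x (D' x) := fun x hx hx0 =>
    Classical.epsilon_spec (hex x hx hx0)
  have hfam : Fam G D' :=
    ⟨fun x hx hx0 => ⟨(hspec x hx hx0).1, (hspec x hx hx0).2.1, (hspec x hx hx0).2.2.1⟩,
      fun x hx y hy _ _ h1 h2 => by rw [hD']; simp only; rw [hPeq x hx y hy h1 h2]⟩
  refine ⟨⨆ x : {x : V // x ∈ G ∧ x ≠ 0}, D' x, isRegulating_iff.mpr ⟨D', hfam, rfl⟩, ?_⟩
  refine iSup_le ?_
  rintro ⟨x, hx, hx0⟩
  exact (hspec x hx hx0).2.2.2

theorem IsFull.relIndex_dvd (hG : IsACD G) (hC : IsRegulating G C)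
    {K : AddSubgroup V} (hK : IsFull G K) : K.relIndex G ∣ C.relIndex G := by
  obtain ⟨C', hreg, hle⟩ := hK.exists_regulating_le hG hC
  have h1 := AddSubgroup.relIndex_mul_relIndex C' K G hle hK.1
  rw [(hreg.relIndex_eq hG hC).1] at h1
  exact ⟨_, (by rw [mul_comm]; exact h1.symm)⟩

theorem IsRegulating.isFull (hG : IsACD G) (hC : IsRegulating G C) : IsFull G C := by
  rw [isFull_iff]
  have h := (isRegulating_iff_index hG hC hC.le).mp hC
  exact ⟨hC.le, (hC.relIndex_eq hG hC).2, h.2⟩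

end Pool.Agent.Lib.C8da183
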