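import Pool.Agent.Lib.C8da183.CData

/-!
# Groups with a cyclic regulating quotient: necessity of the chain condition
-/

namespace Pool.Agent.Lib.C8da183

open scoped Classical

set_option linter.unusedSectionVars false

variable {V : Type*} [AddCommGroup V] [Module ℚ V]

/-- The set of break values. -/
def SB {J : Type*} (G : AddSubgroup V) (b : J → V) (a : J → ℕ) (e : ℕ) : Set ℕ :=
  {s | s = 0 ∨ s = e ∨ ∃ i, a i = s ∧ ∀ j, ¬ TypeLE G (b i) G (b j) → a j ≤ a i}

variable {J : Type*} [Fintype J] [DecidableEq J]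

namespace CData

variable {G C : AddSubgroup V} {b : J → V} {f : J → V →ₗ[ℚ] ℚ} {p n' e : ℕ} {u : V}
  {a : J → ℕ} {K : AddSubgroup V}

theorem SB_le_e (Δ : CData G C b f p n' e u a) {s : ℕ} (hs : s ∈ SB G b a e) : s ≤ e := by
  rcases hs with h | h | ⟨i, h, _⟩
  · omega
  · omega
  · rw [← h]; exact Δ.le_e i

theorem not_mem_brk_of {s : ℕ} {j : J} (hj : j ∉ brk G b a s) : a j ≤ s := by
  by_contra h
  exact hj (mem_brk.mpr ⟨j, TypeLE.refl _ _, by omega⟩)

theorem sU_brk_le (s : ℕ) : sU a (brk G b a s) ≤ s := sU_le fun _ hj => not_mem_brk_of hj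

/-- The index attached to a positive break value. -/
theorem exists_index (Δ : CData G C b f p n' e u a) {s : ℕ} (hs : s ∈ SB G b a e) (h0 : 0 < s) :
    ∃ i, a i = s ∧ ∀ j, ¬ TypeLE G (b i) G (b j) → a j ≤ a i := by
  rcases hs with h | h | h
  · omega
  · obtain ⟨i, hi⟩ := Δ.sup_e (by omega)
    exact ⟨i, by omega, fun j _ => by rw [hi]; exact Δ.le_e j⟩
  · exact h

theorem not_mem_brk (Δ : CData G C b f p n' e u a) {s t : ℕ} {i : J} (hi : a i = t)
    (hi2 : ∀ j, ¬ TypeLE G (b i) G (b j) → a j ≤ a i) (hts : t ≤ s) : i ∉ brk G b a s := by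
  intro h
  obtain ⟨k, hk, hk2⟩ := mem_brk.mp h
  have := Δ.le_of_equiv hi2 hk
  omega

theorem sU_brk (Δ : CData G C b f p n' e u a) {s : ℕ} (hs : s ∈ SB G b a e) :
    sU a (brk G b a s) = s := by
  refine le_antisymm (sU_brk_le s) ?_
  rcases Nat.eq_zero_or_pos s with h0 | h0
  · omega
  · obtain ⟨i, hi, hi2⟩ := Δ.exists_index hs h0
    have := le_sU (a := a) (Δ.not_mem_brk hi hi2 le_rfl)
    omega

theorem brk_subset_shF (Δ : CData G C b f p n' e u a) {s : ℕ} {i : J} (hi : a i = s)
    (hi2 : ∀ j, ¬ TypeLE G (b i) G (b j) → a j ≤ a i) : brk G b a s ⊆ shF G b (b i) := by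
  intro l hl
  obtain ⟨k, hk, hk2⟩ := mem_brk.mp hl
  have h1 : TypeLE G (b i) G (b k) := by
    by_contra h
    have := hi2 k h
    omega
  rw [mem_shF]
  refine ⟨h1.trans hk, fun h => ?_⟩
  have := Δ.le_of_equiv hi2 (hk.trans h)
  omega

theorem sat (Δ : CData G C b f p n' e u a) (hpe : ∀ g ∈ G, p ^ e • g ∈ K) {L : AddSubgroup V}
    (hKL : K ≤ L) {g : V} (hg : g ∈ G) (h : n' • g ∈ L) : g ∈ L := by
  have hcop : IsCoprime (n' : ℤ) ((p ^ e : ℕ) : ℤ) :=
    Nat.isCoprime_iff_coprime.mpr (Nat.Coprime.pow_right _ Δ.cop)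
  obtain ⟨α, β, h1⟩ := hcop
  have h2 : g = α • (n' • g) + β • (p ^ e • g) := by
    rw [← natCast_zsmul, ← natCast_zsmul, smul_smul, smul_smul, ← add_smul, h1, one_smul]
  rw [h2]
  exact L.add_mem (L.zsmul_mem h _) (L.zsmul_mem (hKL (hpe g hg)) _)

theorem GU_le_of (Δ : CData G C b f p n' e u a) (hpe : ∀ g ∈ G, p ^ e • g ∈ K)
    {L : AddSubgroup V} (hKL : K ≤ L) {U : Finset J} (h1 : yU b f p n' u U (sU a U) ∈ L)
    (h2 : ∀ j ∈ U, ∀ q : ℚ, q • b j ∈ C → q • b j ∈ L) : GU G f U ≤ L := by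
  intro g hg
  apply Δ.sat hpe hKL hg.1
  obtain ⟨k, hk1, hk2⟩ := Δ.GU_gen hg
  set c := n' • g - k • yU b f p n' u U (sU a U) with hc
  have h3 : n' • g = c + k • yU b f p n' u U (sU a U) := by rw [hc]; abel
  rw [h3]
  refine L.add_mem ?_ (L.zsmul_mem h1 _)
  rw [Δ.R.expand c (Δ.R.le hk1)]
  refine AddSubgroup.sum_mem _ fun j _ => ?_
  by_cases hj : j ∈ U
  · exact h2 j hj _ (Δ.R.coord c hk1 j)
  · rw [hk2.2 j hj, zero_smul]; exact L.zero_mem

theorem single_le (Δ : CData G C b f p n' e u a)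
    (hup : ∀ x ∈ G, x ≠ 0 → up G x ≤ K ⊔ sharp G x) {j : J} {q : ℚ} (hq : q • b j ∈ C) :
    q • b j ∈ GU G f (shF G b (b j)) ⊔ K := by
  have h1 := hup _ (Δ.R.bG j) (Δ.R.b_ne_zero j) (Δ.single_mem hq)
  rw [sharp_eq_GU Δ.R, sup_comm] at h1
  exact h1

/-! ### Indices -/

theorem relIndex_le_step (Δ : CData G C b f p n' e u a) (hpe : ∀ g ∈ G, p ^ e • g ∈ K)
    (hup : ∀ x ∈ G, x ≠ 0 → up G x ≤ K ⊔ sharp G x) {U : Finset J} (hU : IsUp G b U)
    {k : J} :
    (GU G f (del G b U k) ⊔ K).relIndex (GU G f U ⊔ K) ∣ p ^ (sU a (del G b U k) - sU a U) := by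
  set U' := del G b U k with hU'
  set L := GU G f U' ⊔ K with hL
  have hKL : K ≤ L := le_sup_right
  set y := yU b f p n' u U (sU a U) with hy
  set d := sU a U' - sU a U with hd
  have hsle : sU a U ≤ sU a U' := sU_anti del_subset
  have hyG : y ∈ GU G f U := Δ.yU_mem le_rfl
  have hCL : ∀ j ∈ U, ∀ q : ℚ, q • b j ∈ C → q • b j ∈ L := by
    intro j hj q hq
    by_cases hjk : TypeLE G (b j) G (b k) ∧ TypeLE G (b k) G (b j)
    · refine sup_le_sup_right (GU_mono (f := f) ?_) K (Δ.single_le hup hq)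
      intro l hl
      rw [mem_shF] at hl
      rw [hU', mem_del]
      exact ⟨hU j hj l hl.1, fun h => hl.2 (h.1.trans hjk.2)⟩
    · refine le_sup_left (a := GU G f U') ⟨Δ.R.le hq, fun l hl => ?_⟩
      rw [map_smul, Δ.R.dual, if_neg, smul_zero]
      rintro rfl
      exact hl (mem_del.mpr ⟨hj, hjk⟩)
  -- `p ^ d • y` lies in `L`
  have hpy : p ^ d • y ∈ L := by
    have h1 : p ^ d • y = yU b f p n' u U (sU a U') := by
      rw [hy]
      unfold yU
      rw [Finset.smul_sum]
      refine Finset.sum_congr rfl fun j _ => ?_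
      rw [nsmul_eq, smul_smul]
      congr 1
      have : p ^ sU a U' = p ^ d * p ^ sU a U := by rw [← pow_add]; congr 1; omega
      rw [this]
      push_cast
      ring
    have h2 : yU b f p n' u U (sU a U') =
        yU b f p n' u U' (sU a U') + yU b f p n' u (U \ U') (sU a U') := by
      unfold yU
      rw [add_comm, Finset.sum_sdiff del_subset]
    rw [h1, h2]
    refine L.add_mem (le_sup_left (a := GU G f U') (Δ.yU_mem le_rfl)) ?_
    refine AddSubgroup.sum_mem _ fun j hj => ?_
    rw [Finset.mem_sdiff] at hj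
    exact hCL j hj.1 _ (Δ.A2' (le_sU hj.2))
  -- hence `GU U ⊔ K ≤ L ⊔ ⟨y⟩`
  have hle : GU G f U ⊔ K ≤ L ⊔ AddSubgroup.zmultiples y := by
    refine sup_le ?_ (hKL.trans le_sup_left)
    refine Δ.GU_le_of hpe (hKL.trans le_sup_left) ?_ ?_
    · exact le_sup_right (a := L) (AddSubgroup.mem_zmultiples y)
    · intro j hj q hq
      exact le_sup_left (a := L) (hCL j hj q hq)
  have hle2 : L ⊔ AddSubgroup.zmultiples y ≤ GU G f U ⊔ K := by
    refine sup_le (sup_le_sup_right (GU_mono del_subset) _) ?_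
    rw [AddSubgroup.zmultiples_le]
    exact le_sup_left (a := GU G f U) hyG
  rw [le_antisymm hle hle2, sup_comm, AddSubgroup.relIndex_sup_right]
  -- the relative index of `L` in `⟨y⟩` divides `p ^ d`
  have h3 : L.relIndex (AddSubgroup.zmultiples y) = addOrderOf (y : V ⧸ L) := by
    have : (AddSubgroup.zmultiples y) = ((AddSubgroup.zmultiples (1 : ℤ))).map
        (zmultiplesHom V y) := by
      rw [AddMonoidHom.map_zmultiples]; simp
    rw [← Nat.card_zmultiples]
    have h4 : AddSubgroup.zmultiples (y : V ⧸ L) =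
        (AddSubgroup.zmultiples y).map (QuotientAddGroup.mk' L) := by
      rw [AddMonoidHom.map_zmultiples]; rfl
    rw [h4, ← AddSubgroup.relIndex_ker, QuotientAddGroup.ker_mk']
  rw [h3]
  apply addOrderOf_dvd_of_nsmul_eq_zero
  rw [← QuotientAddGroup.mk_nsmul, QuotientAddGroup.eq_zero_iff]
  exact hpy

theorem relIndex_N1 (Δ : CData G C b f p n' e u a) (hpe : ∀ g ∈ G, p ^ e • g ∈ K)
    (hup : ∀ x ∈ G, x ≠ 0 → up G x ≤ K ⊔ sharp G x) : ∀ U, IsUp G b U →
    K.relIndex (GU G f U ⊔ K) ∣ p ^ (e - sU a U) := by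
  apply upset_induction
  · have h : GU G f (∅ : Finset J) = ⊥ := by
      rw [eq_bot_iff]
      intro y hy
      rw [AddSubgroup.mem_bot]
      refine Δ.R.ext' hy.1 G.zero_mem fun j => ?_
      rw [map_zero]
      exact hy.2 j (Finset.notMem_empty j)
    rw [h, bot_sup_eq, AddSubgroup.relIndex_self]
    exact one_dvd _
  · intro U hU k hk hmin ih
    have h1 : K ≤ GU G f (del G b U k) ⊔ K := le_sup_right
    have h2 : GU G f (del G b U k) ⊔ K ≤ GU G f U ⊔ K :=
      sup_le_sup_right (GU_mono del_subset) _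
    rw [← AddSubgroup.relIndex_mul_relIndex _ _ _ h1 h2]
    have h3 := Nat.mul_dvd_mul ih (Δ.relIndex_le_step hpe hup hU (k := k))
    refine h3.trans ?_
    rw [← pow_add]
    apply pow_dvd_pow
    have h4 : sU a U ≤ sU a (del G b U k) := sU_anti del_subset
    have h5 := Δ.sU_le_e (del G b U k)
    omega

end CData

theorem exists_isMax (G : AddSubgroup V) (b : J → V) {U : Finset J} (hU : U.Nonempty) :
    ∃ k ∈ U, ∀ j ∈ U, TypeLE G (b k) G (b j) → TypeLE G (b j) G (b k) := by
  obtain ⟨k, hk, hmin⟩ := Finset.exists_min_image U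
    (fun k => (U.filter fun j => TypeLE G (b k) G (b j)).card) hU
  refine ⟨k, hk, fun j hj hjk => ?_⟩
  by_contra hkj
  have h1 := hmin j hj
  have h2 : (U.filter fun i => TypeLE G (b j) G (b i)) ⊂
      (U.filter fun i => TypeLE G (b k) G (b i)) := by
    refine Finset.ssubset_iff_subset_ne.mpr ⟨fun i hi => ?_, fun h => ?_⟩
    · rw [Finset.mem_filter] at hi ⊢
      exact ⟨hi.1, hjk.trans hi.2⟩
    · have : k ∈ U.filter fun i => TypeLE G (b j) G (b i) := by
        rw [h, Finset.mem_filter]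
        exact ⟨hk, TypeLE.refl _ _⟩
      exact hkj (Finset.mem_filter.mp this).2
  have := Finset.card_lt_card h2
  omega

theorem upset_induction_down {G : AddSubgroup V} {b : J → V} (P : Finset J → Prop)
    (h0 : P Finset.univ)
    (hs : ∀ W, IsUp G b W → ∀ k ∈ W, IsMin G b W k → P W → P (del G b W k)) :
    ∀ U, IsUp G b U → P U := by
  intro U
  generalize hn : Uᶜ.card = n
  induction n using Nat.strong_induction_on generalizing U with
  | _ n ih =>
    intro hU
    rcases Uᶜ.eq_empty_or_nonempty with h | h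
    · rw [Finset.compl_eq_empty_iff] at h
      rw [h]; exact h0
    · obtain ⟨k, hk, hmax⟩ := exists_isMax G b h
      have hkU : k ∉ U := Finset.mem_compl.mp hk
      set W : Finset J := U ∪ Finset.univ.filter fun j =>
        TypeLE G (b j) G (b k) ∧ TypeLE G (b k) G (b j) with hW
      have memW : ∀ j, j ∈ W ↔ j ∈ U ∨ (TypeLE G (b j) G (b k) ∧ TypeLE G (b k) G (b j)) := by
        intro j; simp [hW]
      have hWup : IsUp G b W := by
        intro j hj l hjl
        rw [memW] at hj ⊢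
        rcases hj with hj | hj
        · exact Or.inl (hU j hj l hjl)
        · by_cases hl : l ∈ U
          · exact Or.inl hl
          · have h1 := hj.2.trans hjl
            exact Or.inr ⟨hmax l (Finset.mem_compl.mpr hl) h1, h1⟩
      have hkW : k ∈ W := (memW k).mpr (Or.inr ⟨TypeLE.refl _ _, TypeLE.refl _ _⟩)
      have hmin : IsMin G b W k := by
        intro j hj hjk
        rcases (memW j).mp hj with h1 | h1
        · exact absurd (hU j h1 k hjk) hkU
        · exact h1.2
      have hdel : del G b W k = U := by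
        ext j
        rw [mem_del, memW]
        constructor
        · rintro ⟨h1 | h1, h2⟩
          · exact h1
          · exact absurd h1 h2
        · intro h1
          exact ⟨Or.inl h1, fun h2 => hkU (hU j h1 k h2.1)⟩
      have hcard : Wᶜ.card < n := by
        rw [← hn]
        apply Finset.card_lt_card
        rw [Finset.ssubset_iff_subset_ne]
        refine ⟨fun j hj => ?_, fun h => ?_⟩
        · rw [Finset.mem_compl, memW] at hj
          rw [Finset.mem_compl]
          exact fun h => hj (Or.inl h)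
        · rw [← h, Finset.mem_compl] at hk
          exact hk hkW
      have := hs W hWup k hkW hmin (ih _ hcard W rfl hWup)
      rwa [hdel] at this

namespace CData

variable {G C : AddSubgroup V} {b : J → V} {f : J → V →ₗ[ℚ] ℚ} {p n' e : ℕ} {u : V}
  {a : J → ℕ} {K : AddSubgroup V}

theorem relIndex_N2 (Δ : CData G C b f p n' e u a) (hpe : ∀ g ∈ G, p ^ e • g ∈ K) (hKG : K ≤ G)
    (hup : ∀ x ∈ G, x ≠ 0 → up G x ≤ K ⊔ sharp G x) : ∀ U, IsUp G b U →
    (GU G f U ⊔ K).relIndex G ∣ p ^ sU a U := by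
  apply upset_induction_down
  · rw [GU_univ, sup_eq_left.mpr hKG, AddSubgroup.relIndex_self]
    exact one_dvd _
  · intro W hW k hk hmin ih
    have h1 : GU G f (del G b W k) ⊔ K ≤ GU G f W ⊔ K :=
      sup_le_sup_right (GU_mono del_subset) _
    have h2 : GU G f W ⊔ K ≤ G := sup_le (GU_le _) hKG
    rw [← AddSubgroup.relIndex_mul_relIndex _ _ _ h1 h2]
    refine (Nat.mul_dvd_mul (Δ.relIndex_le_step hpe hup hW (k := k)) ih).trans ?_
    rw [← pow_add]
    apply pow_dvd_pow
    have h4 : sU a W ≤ sU a (del G b W k) := sU_anti del_subset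
    omega

theorem nat_aux {x y c d : ℕ} (hx : 0 < x) (hy : 0 < y) (h1 : c ∣ x) (h2 : d ∣ y)
    (h : c * d = x * y) : d = y := by
  have h3 := Nat.le_of_dvd hx h1
  have h4 := Nat.le_of_dvd hy h2
  by_contra h5
  have h6 : d < y := lt_of_le_of_ne h4 h5
  have h7 : c * d < x * y := calc
    c * d ≤ x * d := Nat.mul_le_mul_right _ h3
    _ < x * y := Nat.mul_lt_mul_of_pos_left h6 hx
  omega

/-- The index of `K + G(U)`. -/
theorem relIndex_GU (Δ : CData G C b f p n' e u a) (hpe : ∀ g ∈ G, p ^ e • g ∈ K) (hKG : K ≤ G)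
    (hup : ∀ x ∈ G, x ≠ 0 → up G x ≤ K ⊔ sharp G x) (hidx : K.relIndex G = p ^ e)
    {U : Finset J} (hU : IsUp G b U) : (GU G f U ⊔ K).relIndex G = p ^ sU a U := by
  have h1 := Δ.relIndex_N1 hpe hup U hU
  have h2 := Δ.relIndex_N2 hpe hKG hup U hU
  have h3 := AddSubgroup.relIndex_mul_relIndex K (GU G f U ⊔ K) G le_sup_right
    (sup_le (GU_le _) hKG)
  have hp := Δ.hp.pos
  refine nat_aux (pow_pos hp _) (pow_pos hp _) h1 h2 ?_
  rw [h3, hidx, ← pow_add]
  congr 1
  have := Δ.sU_le_e U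
  omega

/-! ### Cyclic factors -/

theorem yU_smul {U : Finset J} {r t : ℕ} (h : r ≤ t) :
    p ^ (t - r) • yU b f p n' u U r = yU b f p n' u U t := by
  unfold yU
  rw [Finset.smul_sum]
  refine Finset.sum_congr rfl fun j _ => ?_
  rw [nsmul_eq, smul_smul]
  congr 1
  have : p ^ t = p ^ (t - r) * p ^ r := by rw [← pow_add]; congr 1; omega
  rw [this]
  push_cast
  ring

theorem lemma1 (Δ : CData G C b f p n' e u a) (hpe : ∀ g ∈ G, p ^ e • g ∈ K)
    (hup : ∀ x ∈ G, x ≠ 0 → up G x ≤ K ⊔ sharp G x) {s' : ℕ} :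
    ∀ U, IsUp G b U → s' ≤ sU a U → GU G f U ≤ GU G f (brk G b a s') ⊔ K := by
  intro U
  induction U using Finset.strongInduction with
  | H U ih =>
    intro hU hs
    have hC : ∀ j ∈ U, ∀ q : ℚ, q • b j ∈ C → q • b j ∈ GU G f (brk G b a s') ⊔ K := by
      intro j hj q hq
      have h1 := Δ.single_le hup hq
      have h2 := ih _ (shF_ssubset hU hj) (isUp_shF _)
        (hs.trans (sU_anti (shF_subset hU hj)))
      exact (sup_le h2 le_sup_right : _ ≤ GU G f (brk G b a s') ⊔ K) h1
    refine Δ.GU_le_of hpe le_sup_right ?_ hC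
    set r := sU a U with hr
    have h1 : yU b f p n' u U r = yU b f p n' u (U ∩ brk G b a s') r +
        yU b f p n' u (U \ brk G b a s') r := by
      unfold yU
      rw [Finset.sum_inter_add_sum_sdiff]
    have h2 : yU b f p n' u (U \ brk G b a s') r ∈ C :=
      AddSubgroup.sum_mem _ fun j hj =>
        Δ.A2' ((not_mem_brk_of (Finset.mem_sdiff.mp hj).2).trans hs)
    rw [h1]
    refine AddSubgroup.add_mem _ ?_ ?_
    · refine le_sup_left (a := GU G f (brk G b a s')) ⟨?_, fun j hj => ?_⟩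
      · have h3 : yU b f p n' u (U ∩ brk G b a s') r =
            yU b f p n' u U r - yU b f p n' u (U \ brk G b a s') r := by
          rw [h1]; abel
        rw [h3]
        exact G.sub_mem (Δ.yU_mem le_rfl).1 (Δ.R.le h2)
      · rw [Δ.f_yU, if_neg]
        intro h; exact hj (Finset.mem_inter.mp h).2
    · refine AddSubgroup.sum_mem _ fun j hj => ?_
      rw [Finset.mem_sdiff] at hj
      exact hC j hj.1 _ (Δ.A2' ((not_mem_brk_of hj.2).trans hs))

/-- multiples of `p` of elements -/
def pm (p : ℕ) (L : AddSubgroup V) : AddSubgroup V := L.map (nsmulAddMonoidHom (α := V) p)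

theorem mem_pm_pow {L : AddSubgroup V} {v : V} (hv : v ∈ L) {k : ℕ} (hk : 0 < k) :
    p ^ k • v ∈ pm p L := by
  obtain ⟨m, rfl⟩ : ∃ m, k = m + 1 := ⟨k - 1, by omega⟩
  refine ⟨p ^ m • v, L.nsmul_mem hv _, ?_⟩
  change p • (p ^ m • v) = _
  rw [smul_smul, pow_succ, mul_comm]

theorem lemma2 (Δ : CData G C b f p n' e u a) (hpe : ∀ g ∈ G, p ^ e • g ∈ K)
    (hup : ∀ x ∈ G, x ≠ 0 → up G x ≤ K ⊔ sharp G x) {s s' : ℕ} (hss : s < s')
    (hcons : ∀ t ∈ SB G b a e, s < t → s' ≤ t) :
    ∀ (M : ℕ) (U : Finset J), (e - sU a U) * (Fintype.card J + 1) + U.card = M → IsUp G b U →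
      s < sU a U → GU G f U ≤ pm p (GU G f (brk G b a s) ⊔ K) ⊔ (GU G f (brk G b a s') ⊔ K) := by
  intro M
  induction M using Nat.strong_induction_on with
  | _ M ih =>
    intro U hM hU hs
    set L := GU G f (brk G b a s) ⊔ K with hL
    set L' := GU G f (brk G b a s') ⊔ K with hL'
    set T := pm p L ⊔ L' with hT
    have hKT : K ≤ T := le_sup_right.trans le_sup_right
    set r := sU a U with hr
    rcases Nat.lt_or_ge r s' with hrs | hrs
    swap
    · exact (Δ.lemma1 hpe hup U hU hrs).trans le_sup_right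
    have hC : ∀ j ∈ U, ∀ q : ℚ, q • b j ∈ C → q • b j ∈ T := by
      intro j hj q hq
      have h1 := Δ.single_le hup hq
      have hsub := shF_ssubset hU hj
      have hle : r ≤ sU a (shF G b (b j)) := sU_anti hsub.1
      have h2 := ih _ (by
        rw [← hM]
        have h3 := Finset.card_lt_card hsub
        have h4 : (e - sU a (shF G b (b j))) * (Fintype.card J + 1) ≤
          (e - r) * (Fintype.card J + 1) := Nat.mul_le_mul_right _ (by omega)
        omega) _ rfl (isUp_shF _) (lt_of_lt_of_le hs hle)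
      exact (sup_le h2 hKT) h1
    refine Δ.GU_le_of hpe hKT ?_ hC
    -- compare `yU U r` with `yU (brk s) r`
    set B := brk G b a s with hB
    have h1 : yU b f p n' u U r = yU b f p n' u B r - yU b f p n' u (B \ U) r +
        yU b f p n' u (U \ B) r := by
      have e1 : yU b f p n' u U r = yU b f p n' u (U ∩ B) r + yU b f p n' u (U \ B) r := by
        unfold yU; rw [Finset.sum_inter_add_sum_sdiff]
      have e2 : yU b f p n' u B r = yU b f p n' u (U ∩ B) r + yU b f p n' u (B \ U) r := by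
        unfold yU
        rw [Finset.inter_comm, Finset.sum_inter_add_sum_sdiff]
      rw [e1, e2]; abel
    rw [h1]
    refine T.add_mem (T.sub_mem ?_ ?_) ?_
    · -- multiple of `p`
      have h2 : yU b f p n' u B r = p ^ (r - s) • yU b f p n' u B s := (yU_smul hs.le).symm
      rw [h2]
      exact le_sup_left (a := pm p L) (mem_pm_pow
        (le_sup_left (a := GU G f B) (Δ.yU_mem (sU_brk_le s))) (by omega))
    · refine T.sum_mem fun j hj => ?_
      rw [Finset.mem_sdiff] at hj
      have haj : a j ≤ r := le_sU hj.2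
      by_cases hsj : r < sU a (shF G b (b j))
      · have h3 := Δ.single_le hup (Δ.A2' haj)
        have h4 := ih _ (by
          rw [← hM]
          have h5 : (shF G b (b j)).card ≤ Fintype.card J := Finset.card_le_univ _
          have h6 := Δ.sU_le_e (shF G b (b j))
          have h7 : (e - sU a (shF G b (b j)) + 1) * (Fintype.card J + 1) ≤
            (e - r) * (Fintype.card J + 1) := Nat.mul_le_mul_right _ (by omega)
          rw [add_mul, one_mul] at h7
          omega) _ rfl (isUp_shF (b j)) (by omega)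
        exact (sup_le h4 hKT) h3
      · rcases Nat.lt_or_ge (a j) r with hlt | hge
        · -- `a j < r`: a multiple of `p`
          have h3 : (((n' * p ^ r : ℕ) : ℚ) * f j u) • b j =
              p ^ (r - a j) • ((((n' * p ^ a j : ℕ) : ℚ) * f j u) • b j) := by
            rw [nsmul_eq, smul_smul]
            congr 1
            have : p ^ r = p ^ (r - a j) * p ^ a j := by rw [← pow_add]; congr 1; omega
            rw [this]
            push_cast
            ring
          rw [h3]
          refine le_sup_left (a := pm p L) (mem_pm_pow ?_ (by omega))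
          have h4 := Δ.single_le hup (Δ.A2 j)
          exact sup_le_sup_right (GU_mono (f := f) (shF_subset (isUp_brk a s) hj.1)) K h4
        · -- break value: impossible
          exfalso
          have hajr : a j = r := le_antisymm haj hge
          have hbreak : r ∈ SB G b a e := by
            refine Or.inr (Or.inr ⟨j, hajr, fun l hl => ?_⟩)
            have h3 : l ∉ shF G b (b j) := fun h => hl (mem_shF.mp h).1
            have := le_sU (a := a) h3
            omega
          have := hcons r hbreak hs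
          omega
    · refine T.sum_mem fun j hj => ?_
      rw [Finset.mem_sdiff] at hj
      exact hC j hj.1 _ (Δ.A2' ((not_mem_brk_of hj.2).trans hs.le))

/-- Consecutive factors are cyclic. -/
theorem exists_cyclic (Δ : CData G C b f p n' e u a) (hpe : ∀ g ∈ G, p ^ e • g ∈ K)
    (hKG : K ≤ G)
    (hup : ∀ x ∈ G, x ≠ 0 → up G x ≤ K ⊔ sharp G x) {s s' : ℕ} (hss : s < s')
    (hs : s ∈ SB G b a e) (hcons : ∀ t ∈ SB G b a e, s < t → s' ≤ t) :
    ∃ z ∈ GU G f (brk G b a s) ⊔ K, GU G f (brk G b a s) ⊔ K ≤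
      (GU G f (brk G b a s') ⊔ K) ⊔ AddSubgroup.zmultiples z := by
  set B := brk G b a s with hB
  set L := GU G f B ⊔ K with hL
  set L' := GU G f (brk G b a s') ⊔ K with hL'
  set z := yU b f p n' u B s with hz
  have hzL : z ∈ L := le_sup_left (a := GU G f B) (Δ.yU_mem (sU_brk_le s))
  refine ⟨z, hzL, ?_⟩
  have hKL' : K ≤ L' := le_sup_right
  -- one step
  have h1 : L ≤ pm p L ⊔ (L' ⊔ AddSubgroup.zmultiples z) := by
    have hK1 : K ≤ pm p L ⊔ (L' ⊔ AddSubgroup.zmultiples z) :=
      (hKL'.trans le_sup_left).trans le_sup_right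
    refine sup_le (Δ.GU_le_of hpe hK1 ?_ ?_) hK1
    · rw [Δ.sU_brk hs]
      exact le_sup_right (a := pm p L) (le_sup_right (a := L') (AddSubgroup.mem_zmultiples z))
    · intro j hj q hq
      obtain ⟨k, hk, hk2⟩ := mem_brk.mp hj
      have h2 : k ∉ shF G b (b j) := fun h => (mem_shF.mp h).2 hk
      have h3 : s < sU a (shF G b (b j)) := lt_of_lt_of_le hk2 (le_sU h2)
      have h4 := Δ.lemma2 hpe hup hss hcons _ _ rfl (isUp_shF (b j)) h3
      have h5 := Δ.single_le hup hq
      have h6 : GU G f (shF G b (b j)) ⊔ K ≤ pm p L ⊔ (L' ⊔ AddSubgroup.zmultiples z) :=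
        sup_le (h4.trans (sup_le_sup_left le_sup_left _)) hK1
      exact h6 h5
  -- iterate
  have h2 : ∀ k : ℕ, ∀ v ∈ L, ∃ w ∈ L, v - p ^ k • w ∈ L' ⊔ AddSubgroup.zmultiples z := by
    intro k
    induction k with
    | zero => intro v hv; exact ⟨v, hv, by simp [AddSubgroup.zero_mem]⟩
    | succ k ih =>
      intro v hv
      obtain ⟨w, hw, h3⟩ := ih v hv
      obtain ⟨w', ⟨w'', hw'', e1⟩, t, ht, e2⟩ := AddSubgroup.mem_sup.mp (h1 hw)
      refine ⟨w'', hw'', ?_⟩
      have e3 : w = p • w'' + t := by rw [← e2, ← e1]; rfl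
      have e4 : v - p ^ (k + 1) • w'' = (v - p ^ k • w) + p ^ k • t := by
        rw [e3, smul_add, smul_smul, pow_succ]; abel
      rw [e4]
      exact AddSubgroup.add_mem _ h3 (AddSubgroup.nsmul_mem _ ht _)
  intro v hv
  obtain ⟨w, hw, h3⟩ := h2 e v hv
  have hwG : w ∈ G := (sup_le (GU_le _) hKG : L ≤ G) hw
  have h4 : v = (v - p ^ e • w) + p ^ e • w := by abel
  rw [h4]
  exact AddSubgroup.add_mem _ h3 ((hKL'.trans le_sup_left) (hpe w hwG))

end CData

end Pool.Agent.Lib.C8da183
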