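import Mathlib

/-!
# Combinatorics of the dominance condition
-/

namespace Pool.Agent.Lib.C8da183

open scoped Classical

/-- The number of `m` with `s < m ≤ e` such that some `r ∈ S` satisfies `r < m ≤ r + k`. -/
noncomputable def cnt (S : Set ℕ) (s e k : ℕ) : ℕ :=
  ((Finset.Ioc s e).filter fun m => ∃ r ∈ S, r < m ∧ m ≤ r + k).card

theorem cnt_self (S : Set ℕ) (e k : ℕ) : cnt S e e k = 0 := by
  simp [cnt]

theorem cnt_le (S : Set ℕ) (s e k : ℕ) : cnt S s e k ≤ e - s := by
  unfold cnt
  refine (Finset.card_filter_le _ _).trans ?_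
  simp

theorem cnt_step {S : Set ℕ} {s t e : ℕ} (hs : s ∈ S) (hst : s < t) (hte : t ≤ e)
    (hcons : ∀ r ∈ S, s < r → t ≤ r) (k : ℕ) :
    cnt S s e k = min k (t - s) + cnt S t e k := by
  unfold cnt
  have h1 : Finset.Ioc s e = Finset.Ioc s t ∪ Finset.Ioc t e := by
    ext m; simp only [Finset.mem_Ioc, Finset.mem_union]; omega
  have h2 : Disjoint ((Finset.Ioc s t).filter fun m => ∃ r ∈ S, r < m ∧ m ≤ r + k)
      ((Finset.Ioc t e).filter fun m => ∃ r ∈ S, r < m ∧ m ≤ r + k) := by
    rw [Finset.disjoint_left]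
    intro m hm1 hm2
    simp only [Finset.mem_filter, Finset.mem_Ioc] at hm1 hm2
    omega
  rw [h1, Finset.filter_union, Finset.card_union_of_disjoint h2]
  congr 1
  have h3 : ((Finset.Ioc s t).filter fun m => ∃ r ∈ S, r < m ∧ m ≤ r + k) =
      Finset.Ioc s (s + min k (t - s)) := by
    ext m
    simp only [Finset.mem_filter, Finset.mem_Ioc]
    constructor
    · rintro ⟨⟨h4, h5⟩, r, hr, h6, h7⟩
      have h8 : r ≤ s := by
        by_contra h
        have := hcons r hr (by omega)
        omega
      omega
    · rintro ⟨h4, h5⟩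
      exact ⟨⟨h4, by omega⟩, s, hs, h4, by omega⟩
  rw [h3]
  simp

/-- Concavity of `cnt` in `k`. -/
theorem cnt_concave {S : Set ℕ} {e : ℕ} (nx : ℕ → ℕ)
    (hnx : ∀ s, s < e → nx s ∈ S ∧ s < nx s ∧ ∀ t ∈ S, s < t → nx s ≤ t)
    (hSe : ∀ s ∈ S, s ≤ e) :
    ∀ d, ∀ s ∈ S, e - s = d → ∀ k, cnt S s e (k + 2) + cnt S s e k ≤ 2 * cnt S s e (k + 1) := by
  intro d
  induction d using Nat.strong_induction_on with
  | _ d ih =>
    intro s hs hd k
    rcases Nat.eq_or_lt_of_le (hSe s hs) with h | h
    · subst h
      simp [cnt_self]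
    · obtain ⟨n1, n2, n3⟩ := hnx s h
      have hne := hSe _ n1
      rw [cnt_step hs n2 hne n3, cnt_step hs n2 hne n3, cnt_step hs n2 hne n3]
      have := ih (e - nx s) (by omega) (nx s) n1 rfl k
      omega

/-- Comparison of a concave function with one whose steps are `j - 1` or `j`. -/
theorem conc {c D : ℕ → ℤ} {b a : ℕ} {j : ℤ} (hc : ∀ i, c (i + 2) + c i ≤ 2 * c (i + 1))
    (hD : ∀ i, b ≤ i → i < a → j - 1 ≤ D (i + 1) - D i ∧ D (i + 1) - D i ≤ j)
    (hb : D b ≤ c b) (ha : D a ≤ c a) {k : ℕ} (hbk : b ≤ k) (hka : k ≤ a) : D k ≤ c k := by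
  -- steps of `c` are nonincreasing
  have hmono : ∀ d i, c (i + d + 1) - c (i + d) ≤ c (i + 1) - c i := by
    intro d
    induction d with
    | zero => intro i; simp
    | succ d ih =>
      intro i
      have h1 := hc (i + d)
      have h2 := ih i
      have e1 : i + (d + 1) + 1 = i + d + 2 := by ring
      have e2 : i + (d + 1) = i + d + 1 := by ring
      rw [e1, e2]
      linarith
  by_contra hlt
  push Not at hlt
  by_cases hs : c (k + 1) - c k ≤ j - 1
  · -- later steps are at most `j - 1`
    have h1 : ∀ d, k + d ≤ a → c (k + d) - D (k + d) ≤ c k - D k := by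
      intro d
      induction d with
      | zero => intro _; simp
      | succ d ih =>
        intro hd
        have h2 := ih (by omega)
        have h3 := hmono d k
        have h4 := (hD (k + d) (by omega) (by omega)).1
        have e1 : k + (d + 1) = k + d + 1 := by ring
        rw [e1]
        linarith
    have h2 := h1 (a - k) (by omega)
    have e1 : k + (a - k) = a := by omega
    rw [e1] at h2
    linarith
  · push Not at hs
    have h1 : ∀ d, b + d ≤ k → c (k - d) - D (k - d) ≤ c k - D k := by
      intro d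
      induction d with
      | zero => intro _; simp
      | succ d ih =>
        intro hd
        have h2 := ih (by omega)
        have h3 := hmono (d + 1) (k - (d + 1))
        have e1 : k - (d + 1) + (d + 1) = k := by omega
        rw [e1] at h3
        have e2 : k - (d + 1) + 1 = k - d := by omega
        rw [e2] at h3
        have h4 := (hD (k - (d + 1)) (by omega) (by omega)).2
        rw [e2] at h4
        linarith
    have h2 := h1 (k - b) (by omega)
    have e1 : k - (k - b) = b := by omega
    rw [e1] at h2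
    linarith

/-- The combinatorial step. -/
theorem comb_step {ι : Type*} [Fintype ι] [DecidableEq ι] {l : ι → ℕ} {i0 i1 : ι}
    (h01 : i0 ≠ i1) {m : ℕ} (h0 : m ≤ l i0) (h1 : l i1 ≤ m)
    (hmin : ∀ i, m ≤ l i → l i0 ≤ l i) (hmax : ∀ i, i ≠ i0 → l i ≤ m → l i ≤ l i1)
    {c : ℕ → ℕ} (hc : ∀ i, c (i + 2) + c i ≤ 2 * c (i + 1))
    (hF : ∀ k, ∑ i, min (l i) k ≤ min k m + c k) (k : ℕ) :
    ∑ i, min (Function.update (Function.update l i0 (l i0 + l i1 - m)) i1 0 i) k ≤ c k := by
  set ν := Function.update (Function.update l i0 (l i0 + l i1 - m)) i1 0 with hν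
  set a := l i0 with ha
  set b := l i1 with hb
  have hν1 : ν i1 = 0 := by simp [hν]
  have hν0 : ν i0 = a + b - m := by simp [hν, Function.update_of_ne h01]
  have hνi : ∀ i, i ≠ i0 → i ≠ i1 → ν i = l i := by
    intro i h2 h3
    simp [hν, Function.update_of_ne h3, Function.update_of_ne h2]
  -- relate the two sums
  have hsum : ∀ k, ∑ i, min (ν i) k + min a k + min b k =
      ∑ i, min (l i) k + min (a + b - m) k := by
    intro k
    have e1 : ∑ i, min (ν i) k = min (ν i0) k + (min (ν i1) k +
        ∑ i ∈ (Finset.univ.erase i0).erase i1, min (ν i) k) := by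
      rw [Finset.add_sum_erase _ (fun i => min (ν i) k)
          (Finset.mem_erase.mpr ⟨h01.symm, Finset.mem_univ _⟩),
        Finset.add_sum_erase _ (fun i => min (ν i) k) (Finset.mem_univ _)]
    have e2 : ∑ i, min (l i) k = min (l i0) k + (min (l i1) k +
        ∑ i ∈ (Finset.univ.erase i0).erase i1, min (l i) k) := by
      rw [Finset.add_sum_erase _ (fun i => min (l i) k)
          (Finset.mem_erase.mpr ⟨h01.symm, Finset.mem_univ _⟩),
        Finset.add_sum_erase _ (fun i => min (l i) k) (Finset.mem_univ _)]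
    have e3 : ∑ i ∈ (Finset.univ.erase i0).erase i1, min (ν i) k =
        ∑ i ∈ (Finset.univ.erase i0).erase i1, min (l i) k := by
      refine Finset.sum_congr rfl fun i hi => ?_
      rw [Finset.mem_erase, Finset.mem_erase] at hi
      rw [hνi i hi.2.1 hi.1]
    rw [e1, e2, e3, hν0, hν1]
    omega
  set j : ℤ := ((Finset.univ.filter fun i => a ≤ l i).card : ℤ) with hj
  -- steps of the sum for `l`
  have hstep : ∀ k, b ≤ k → k < a → ∑ i, min (l i) (k + 1) =
      ∑ i, min (l i) k + (Finset.univ.filter fun i => a ≤ l i).card := by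
    intro k hbk hka
    rw [Finset.card_filter, ← Finset.sum_add_distrib]
    refine Finset.sum_congr rfl fun i _ => ?_
    by_cases hi : a ≤ l i
    · rw [if_pos hi]; omega
    · rw [if_neg hi]
      have h2 : l i ≤ b := by
        by_cases hi0 : i = i0
        · subst hi0; exact absurd le_rfl hi
        · apply hmax i hi0
          by_contra h3
          exact hi (hmin i (by omega))
      omega
  by_cases hkb : k ≤ b
  · have h2 := hsum k
    have h3 := hF k
    omega
  by_cases hka : a ≤ k
  · have h2 := hsum k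
    have h3 := hF k
    omega
  have hend : ∀ k, (k = b ∨ k = a) → ∑ i, min (ν i) k ≤ c k := by
    intro k hk
    have h2 := hsum k
    have h3 := hF k
    rcases hk with h | h <;> omega
  have key := conc (c := fun k => (c k : ℤ)) (D := fun k => ((∑ i, min (ν i) k : ℕ) : ℤ))
    (b := b) (a := a) (j := j) (k := k)
    (fun i => by
      have := hc i
      have h2 : (((c (i + 2) + c i : ℕ) : ℤ)) ≤ ((2 * c (i + 1) : ℕ) : ℤ) := by exact_mod_cast this
      push_cast at h2
      exact h2)
    (fun i hbi hia => by
      have h2 := hsum i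
      have h3 := hsum (i + 1)
      have h4 := hstep i hbi hia
      have h5 : min a (i + 1) = min a i + 1 := by omega
      have h6 : min b (i + 1) = min b i := by omega
      have h7 : min (a + b - m) i ≤ min (a + b - m) (i + 1) ∧
        min (a + b - m) (i + 1) ≤ min (a + b - m) i + 1 := by omega
      constructor
      · have : ((∑ i', min (ν i') (i + 1) : ℕ) : ℤ) + 1 ≥ ((∑ i', min (ν i') i : ℕ) : ℤ) + j := by
          rw [hj]
          exact_mod_cast (by omega : (∑ i', min (ν i') (i + 1)) + 1 ≥
            (∑ i', min (ν i') i) + (Finset.univ.filter fun i => a ≤ l i).card)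
        linarith
      · have : ((∑ i', min (ν i') (i + 1) : ℕ) : ℤ) ≤ ((∑ i', min (ν i') i : ℕ) : ℤ) + j := by
          rw [hj]
          exact_mod_cast (by omega : (∑ i', min (ν i') (i + 1)) ≤
            (∑ i', min (ν i') i) + (Finset.univ.filter fun i => a ≤ l i).card)
        linarith)
    (by exact_mod_cast hend b (Or.inl rfl))
    (by exact_mod_cast hend a (Or.inr rfl))
    (by omega) (by omega)
  exact_mod_cast key

end Pool.Agent.Lib.C8da183
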