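import Pool.Agent.Lib.C8da183.Num1
import Pool.Agent.Lib.C8da183.PPart
import Pool.Agent.Lib.C8da183.DefsC

/-!
# Chains with cyclic factors in finite abelian `p`-groups
-/

namespace Pool.Agent.Lib.C8da183

open scoped Classical

universe u

/-- integral combinations -/
def comb {Y ι : Type*} [AddCommGroup Y] [Fintype ι] (x : ι → Y) : (ι → ℤ) →+ Y where
  toFun c := ∑ i, c i • x i
  map_zero' := by simp
  map_add' c d := by simp [add_smul, Finset.sum_add_distrib]

theorem comb_apply {Y ι : Type*} [AddCommGroup Y] [Fintype ι] (x : ι → Y) (c : ι → ℤ) :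
    comb x c = ∑ i, c i • x i := rfl

theorem mem_comb {Y ι : Type*} [AddCommGroup Y] [Fintype ι] [DecidableEq ι] (x : ι → Y) (i : ι) :
    x i ∈ (comb x).range := ⟨Pi.single i 1, by
      rw [comb_apply, Finset.sum_eq_single i]
      · simp
      · intro j _ hj; simp [Pi.single_eq_of_ne hj]
      · simp⟩

/-- A basis of a finite abelian `p`-group. -/
structure BD (p : ℕ) {Y ι : Type*} [AddCommGroup Y] [Fintype ι] (x : ι → Y) (l : ι → ℕ) :
    Prop where
  kill : ∀ i, p ^ l i • x i = 0
  gen : ∀ y, y ∈ (comb x).range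
  card : Nat.card Y = p ^ (∑ i, l i)

theorem card_range_le {Y ι : Type*} [AddCommGroup Y] [Fintype ι] {p : ℕ} (hp : 0 < p)
    (x : ι → Y) (l : ι → ℕ) (hk : ∀ i, p ^ l i • x i = 0) :
    Nat.card (comb x).range ≤ p ^ (∑ i, l i) := by
  have hne : ∀ i, NeZero (p ^ l i) := fun i => ⟨(pow_pos hp _).ne'⟩
  set L : ∀ i, ZMod (p ^ l i) →+ Y := fun i => ZMod.lift (p ^ l i) ⟨zmultiplesHom Y (x i), by
    rw [zmultiplesHom_apply, natCast_zsmul]; exact hk i⟩ with hL
  have hLk : ∀ i (k : ℤ), L i (k : ZMod (p ^ l i)) = k • x i := fun i k => by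
    rw [hL, ZMod.lift_coe]; rfl
  set F : (∀ i, ZMod (p ^ l i)) → (comb x).range := fun c => ⟨∑ i, L i (c i),
    ⟨fun i => (c i).cast, by
      rw [comb_apply]
      refine Finset.sum_congr rfl fun i _ => ?_
      rw [← hLk, ZMod.intCast_zmod_cast]⟩⟩ with hF
  have hsurj : Function.Surjective F := by
    rintro ⟨_, c, rfl⟩
    refine ⟨fun i => (c i : ZMod (p ^ l i)), Subtype.ext ?_⟩
    change ∑ i, L i (c i : ZMod (p ^ l i)) = comb x c
    rw [comb_apply]
    exact Finset.sum_congr rfl fun i _ => hLk i _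
  have h1 := Nat.card_le_card_of_surjective F hsurj
  refine h1.trans (le_of_eq ?_)
  rw [Nat.card_pi, ← Finset.prod_pow_eq_pow_sum]
  exact Finset.prod_congr rfl fun i _ => Nat.card_zmod _

theorem BD.prod_le {Y ι : Type*} [AddCommGroup Y] [Finite Y] [Fintype ι] {p : ℕ}
    (hp : p.Prime) {x : ι → Y} {l : ι → ℕ} (B : BD p x l) (k : ℕ) :
    p ^ (∑ i, min (l i) k) ≤ (nsmulAddMonoidHom (α := Y) (p ^ k)).range.index := by
  have h1 : (nsmulAddMonoidHom (α := Y) (p ^ k)).range = (comb fun i => p ^ k • x i).range := by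
    apply le_antisymm
    · rintro _ ⟨y, rfl⟩
      obtain ⟨c, rfl⟩ := B.gen y
      refine ⟨c, ?_⟩
      change comb (fun i => p ^ k • x i) c = p ^ k • comb x c
      rw [comb_apply, comb_apply, Finset.smul_sum]
      exact Finset.sum_congr rfl fun i _ => (smul_comm _ _ _)
    · rintro _ ⟨c, rfl⟩
      refine ⟨comb x c, ?_⟩
      change p ^ k • comb x c = comb (fun i => p ^ k • x i) c
      rw [comb_apply, comb_apply, Finset.smul_sum]
      exact Finset.sum_congr rfl fun i _ => (smul_comm _ _ _)
  have h2 := card_range_le hp.pos (fun i => p ^ k • x i) (fun i => l i - min (l i) k) (by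
    intro i
    rw [smul_smul, ← pow_add]
    have : l i - min (l i) k + k = l i + (k - min (l i) k) := by omega
    rw [this, pow_add, mul_comm, mul_smul, B.kill, smul_zero])
  rw [← h1] at h2
  have h3 : Nat.card (nsmulAddMonoidHom (α := Y) (p ^ k)).range *
      (nsmulAddMonoidHom (α := Y) (p ^ k)).range.index = Nat.card Y :=
    AddSubgroup.card_mul_index _
  have h4 : p ^ (∑ i, min (l i) k) * p ^ (∑ i, (l i - min (l i) k)) = p ^ (∑ i, l i) := by
    rw [← pow_add, ← Finset.sum_add_distrib]
    congr 1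
    exact Finset.sum_congr rfl fun i _ => by omega
  rw [B.card, ← h4] at h3
  have h5 : 0 < p ^ (∑ i, (l i - min (l i) k)) := pow_pos hp.pos _
  by_contra hlt
  push Not at hlt
  set A := Nat.card (nsmulAddMonoidHom (α := Y) (p ^ k)).range
  set I := (nsmulAddMonoidHom (α := Y) (p ^ k)).range.index
  have h6 : A * I ≤ p ^ (∑ i, (l i - min (l i) k)) * I := Nat.mul_le_mul_right _ h2
  have h7 : p ^ (∑ i, (l i - min (l i) k)) * I <
      p ^ (∑ i, (l i - min (l i) k)) * p ^ (∑ i, min (l i) k) := Nat.mul_lt_mul_of_pos_left hlt h5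
  rw [h3, mul_comm (p ^ (∑ i, min (l i) k))] at h6
  omega

/-- A basis exists. -/
theorem exists_BD {Y : Type*} [AddCommGroup Y] [Finite Y] {p e : ℕ} (hp : p.Prime)
    (hY : Nat.card Y = p ^ e) : ∃ (ι : Type) (_ : Fintype ι) (_ : DecidableEq ι) (x : ι → Y)
      (l : ι → ℕ), BD p x l := by
  obtain ⟨ι, _, q, hq, ex, ⟨φ⟩⟩ := AddCommGroup.equiv_directSum_zmod_of_finite Y
  set ψ : (∀ i, ZMod (q i ^ ex i)) ≃+ Y :=
    ((DirectSum.addEquivProd _).symm.trans φ.symm) with hψ
  set x : ι → Y := fun i => ψ (Pi.single i 1) with hx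
  have hne : ∀ i, NeZero (q i ^ ex i) := fun i => ⟨(pow_pos (hq i).pos _).ne'⟩
  have hcard : Nat.card Y = ∏ i, q i ^ ex i := by
    rw [← Nat.card_congr ψ.toEquiv, Nat.card_pi]
    exact Finset.prod_congr rfl fun i _ => Nat.card_zmod _
  have hkill : ∀ i, q i ^ ex i • x i = 0 := by
    intro i
    rw [hx]
    simp only
    rw [← map_nsmul]
    have : q i ^ ex i • (Pi.single i 1 : ∀ i, ZMod (q i ^ ex i)) = 0 := by
      rw [← Pi.single_smul]
      simp [nsmul_eq_mul]
    rw [this, map_zero]
  have hother : ∀ i, q i ≠ p → ex i = 0 := by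
    intro i hi
    by_contra h
    have h1 : q i ∣ p ^ e := by
      rw [← hY, hcard]
      exact (dvd_pow_self _ h).trans (Finset.dvd_prod_of_mem _ (Finset.mem_univ i))
    exact hi ((Nat.prime_dvd_prime_iff_eq (hq i) hp).mp ((hq i).dvd_of_dvd_pow h1))
  refine ⟨ι, inferInstance, inferInstance, x, ex, ?_, ?_, ?_⟩
  · intro i
    by_cases hi : q i = p
    · rw [← hi]; exact hkill i
    · have h1 := hkill i
      rw [hother i hi] at h1 ⊢
      simpa using h1
  · intro y
    obtain ⟨c, rfl⟩ := ψ.surjective y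
    refine ⟨fun i => (c i).cast, ?_⟩
    rw [comb_apply, hx]
    simp only
    have : c = ∑ i, ((c i).cast : ℤ) • (Pi.single i 1 : ∀ i, ZMod (q i ^ ex i)) := by
      ext j
      rw [Finset.sum_apply, Finset.sum_eq_single j]
      · simp
      · intro i _ hij
        simp [Pi.single_eq_of_ne (Ne.symm hij)]
      · simp
    conv_rhs => rw [this]
    rw [map_sum]
    exact Finset.sum_congr rfl fun i _ => (map_zsmul _ _ _).symm
  · rw [hcard, ← Finset.prod_pow_eq_pow_sum]
    refine Finset.prod_congr rfl fun i _ => ?_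
    by_cases hi : q i = p
    · rw [hi]
    · rw [hother i hi]; simp

theorem addOrderOf_relIndex {Y : Type*} [AddCommGroup Y] (W : AddSubgroup Y) (y : Y) :
    W.relIndex (AddSubgroup.zmultiples y) = addOrderOf (y : Y ⧸ W) := by
  rw [← Nat.card_zmultiples]
  have h4 : AddSubgroup.zmultiples (y : Y ⧸ W) =
      (AddSubgroup.zmultiples y).map (QuotientAddGroup.mk' W) := by
    rw [AddMonoidHom.map_zmultiples]; rfl
  rw [h4, ← AddSubgroup.relIndex_ker, QuotientAddGroup.ker_mk']

/-- The subgroup with a cyclic quotient of order `p ^ m`. -/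
theorem BD.step {Y ι : Type*} [AddCommGroup Y] [Finite Y] [Fintype ι] [DecidableEq ι] {p : ℕ}
    (hp : p.Prime) {x : ι → Y} {l : ι → ℕ} (B : BD p x l) {i0 i1 : ι} (h01 : i0 ≠ i1) {m : ℕ}
    (h0 : m ≤ l i0) (h1 : l i1 ≤ m) :
    ∃ W : AddSubgroup Y, W.index = p ^ m ∧ (∃ z, ⊤ ≤ W ⊔ AddSubgroup.zmultiples z) ∧
      ∃ x' : ι → W,
        BD p x' (Function.update (Function.update l i0 (l i0 + l i1 - m)) i1 0) := by
  set a := l i0 with ha
  set b := l i1 with hb
  set g : Y := x i1 - p ^ (m - b) • x i0 with hg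
  set x' : ι → Y := Function.update (Function.update x i0 g) i1 0 with hx'
  set ν := Function.update (Function.update l i0 (a + b - m)) i1 0 with hν
  have hν1 : ν i1 = 0 := by simp [hν]
  have hν0 : ν i0 = a + b - m := by simp [hν, Function.update_of_ne h01]
  have hνi : ∀ i, i ≠ i0 → i ≠ i1 → ν i = l i := by
    intro i h2 h3
    simp [hν, Function.update_of_ne h3, Function.update_of_ne h2]
  have hx1 : x' i1 = 0 := by simp [hx']
  have hx0 : x' i0 = g := by simp [hx', Function.update_of_ne h01]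
  have hxi : ∀ i, i ≠ i0 → i ≠ i1 → x' i = x i := by
    intro i h2 h3
    simp [hx', Function.update_of_ne h3, Function.update_of_ne h2]
  set W : AddSubgroup Y := (comb x').range with hW
  have hgW : g ∈ W := by rw [← hx0]; exact mem_comb x' i0
  have hka : p ^ a • x i0 = 0 := B.kill i0
  have hkb : p ^ b • x i1 = 0 := B.kill i1
  have hkill : ∀ i, p ^ ν i • x' i = 0 := by
    intro i
    by_cases hi1 : i = i1
    · rw [hi1, hx1, smul_zero]
    by_cases hi0 : i = i0
    · rw [hi0, hx0, hν0, hg, smul_sub, smul_smul, ← pow_add]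
      have e1 : a + b - m + (m - b) = a := by omega
      have e2 : a + b - m = (a - m) + b := by omega
      rw [e1, hka, sub_zero, e2, pow_add, mul_smul, hkb, smul_zero]
    · rw [hνi i hi0 hi1, hxi i hi0 hi1]; exact B.kill i
  have hcard := card_range_le hp.pos x' ν hkill
  rw [← hW] at hcard
  have hsum : ∑ i, ν i + m = ∑ i, l i := by
    have e1 : ∑ i, ν i = ν i0 + (ν i1 + ∑ i ∈ (Finset.univ.erase i0).erase i1, ν i) := by
      rw [Finset.add_sum_erase _ ν (Finset.mem_erase.mpr ⟨h01.symm, Finset.mem_univ _⟩),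
        Finset.add_sum_erase _ ν (Finset.mem_univ _)]
    have e2 : ∑ i, l i = l i0 + (l i1 + ∑ i ∈ (Finset.univ.erase i0).erase i1, l i) := by
      rw [Finset.add_sum_erase _ l (Finset.mem_erase.mpr ⟨h01.symm, Finset.mem_univ _⟩),
        Finset.add_sum_erase _ l (Finset.mem_univ _)]
    have e3 : ∑ i ∈ (Finset.univ.erase i0).erase i1, ν i =
        ∑ i ∈ (Finset.univ.erase i0).erase i1, l i := by
      refine Finset.sum_congr rfl fun i hi => ?_
      rw [Finset.mem_erase, Finset.mem_erase] at hi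
      exact hνi i hi.2.1 hi.1
    rw [e1, e2, e3, hν0, hν1]
    omega
  have htop : ⊤ ≤ W ⊔ AddSubgroup.zmultiples (x i0) := by
    intro y _
    obtain ⟨c, rfl⟩ := B.gen y
    rw [comb_apply]
    refine AddSubgroup.sum_mem _ fun i _ => AddSubgroup.zsmul_mem _ ?_ _
    by_cases hi0 : i = i0
    · rw [hi0]
      exact le_sup_right (a := W) (AddSubgroup.mem_zmultiples _)
    by_cases hi1 : i = i1
    · rw [hi1]
      have : x i1 = g + p ^ (m - b) • x i0 := by rw [hg]; abel
      rw [this]
      exact AddSubgroup.add_mem _ (le_sup_left (a := W) hgW)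
        (AddSubgroup.nsmul_mem _ (le_sup_right (a := W) (AddSubgroup.mem_zmultiples _)) _)
    · refine le_sup_left (a := W) ?_
      rw [← hxi i hi0 hi1]
      exact mem_comb x' i
  have hidx : W.index ∣ p ^ m := by
    have h2 : W.index = W.relIndex (W ⊔ AddSubgroup.zmultiples (x i0)) := by
      rw [eq_top_iff.mpr htop, AddSubgroup.relIndex_top_right]
    rw [h2, sup_comm, AddSubgroup.relIndex_sup_right, addOrderOf_relIndex]
    apply addOrderOf_dvd_of_nsmul_eq_zero
    rw [← QuotientAddGroup.mk_nsmul, QuotientAddGroup.eq_zero_iff]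
    have : p ^ m • x i0 = -(p ^ b • g) := by
      rw [hg, smul_sub, hkb, smul_smul, ← pow_add, zero_sub, neg_neg]
      congr 2
      omega
    rw [this]
    exact W.neg_mem (W.nsmul_mem hgW _)
  have hmul : Nat.card W * W.index = p ^ (∑ i, ν i) * p ^ m := by
    rw [AddSubgroup.card_mul_index, B.card, ← pow_add, hsum]
  have hle := Nat.le_of_dvd (pow_pos hp.pos m) hidx
  have hWi : W.index = p ^ m := by
    by_contra hne
    have hlt : W.index < p ^ m := lt_of_le_of_ne hle hne
    have h2 : Nat.card W * W.index < p ^ (∑ i, ν i) * p ^ m := calc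
      Nat.card W * W.index ≤ p ^ (∑ i, ν i) * W.index := Nat.mul_le_mul_right _ hcard
      _ < p ^ (∑ i, ν i) * p ^ m := Nat.mul_lt_mul_of_pos_left hlt (pow_pos hp.pos _)
    omega
  have hWc : Nat.card W = p ^ (∑ i, ν i) := by
    rw [hWi] at hmul
    exact Nat.eq_of_mul_eq_mul_right (pow_pos hp.pos m) hmul
  refine ⟨W, hWi, ⟨x i0, htop⟩, fun i => ⟨x' i, mem_comb x' i⟩, ?_, ?_, hWc⟩
  · intro i
    apply Subtype.ext
    exact hkill i
  · rintro ⟨_, c, rfl⟩
    refine ⟨c, Subtype.ext ?_⟩
    rw [comb_apply, AddSubgroup.val_finsetSum]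
    change _ = comb x' c
    rw [comb_apply]
    rfl

/-- Adding a trivial basis element. -/
theorem BD.option {Y ι : Type*} [AddCommGroup Y] [Fintype ι] {p : ℕ} {x : ι → Y} {l : ι → ℕ}
    (B : BD p x l) : BD p (fun i : Option ι => i.elim 0 x) (fun i : Option ι => i.elim 0 l) := by
  refine ⟨?_, ?_, ?_⟩
  · rintro (_ | i)
    · simp
    · exact B.kill i
  · intro y
    obtain ⟨c, rfl⟩ := B.gen y
    refine ⟨fun i => i.elim 0 c, ?_⟩
    rw [comb_apply, comb_apply, Fintype.sum_option]
    simp
  · rw [B.card, Fintype.sum_option]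
    simp

theorem chain_of_BD {p : ℕ} (hp : p.Prime) {S : Set ℕ} {e : ℕ}
    (nx : ℕ → ℕ) (hnx : ∀ s, s < e → nx s ∈ S ∧ s < nx s ∧ ∀ t ∈ S, s < t → nx s ≤ t)
    (hSe : ∀ s ∈ S, s ≤ e) :
    ∀ d, ∀ s ∈ S, e - s = d → ∀ (Y : Type u) [AddCommGroup Y] [Finite Y] (ι : Type)
      [Fintype ι] [DecidableEq ι] (x : ι → Y) (l : ι → ℕ), BD p x l → ∑ i, l i = e - s →
      (∀ k, ∑ i, min (l i) k ≤ cnt S s e k) →
      ∃ W : ℕ → AddSubgroup Y, (∀ t ∈ S, s ≤ t → (W t).index = p ^ (t - s)) ∧
        ∀ t ∈ S, s ≤ t → ∀ r ∈ S, t < r → (∀ q ∈ S, ¬ (t < q ∧ q < r)) →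
          W r ≤ W t ∧ ∃ w ∈ W t, W t ≤ W r ⊔ AddSubgroup.zmultiples w := by
  intro d
  induction d using Nat.strong_induction_on with
  | _ d ih =>
    intro s hs hd Y _ _ ι _ _ x l B hl hF
    rcases Nat.eq_or_lt_of_le (hSe s hs) with h | h
    · subst h
      refine ⟨fun _ => ⊤, fun t ht hst => ?_, fun t ht hst r hr htr _ => ?_⟩
      · have := hSe t ht
        have e1 : t - s = 0 := by omega
        rw [e1, pow_zero, AddSubgroup.index_top]
      · have := hSe r hr
        omega
    · obtain ⟨n1, n2, n3⟩ := hnx s h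
      have hne := hSe _ n1
      set m := nx s - s with hm
      set l' : Option ι → ℕ := fun i => i.elim 0 l with hl'
      have B' := B.option
      have hsum' : ∀ k, ∑ i, min (l' i) k = ∑ i, min (l i) k := by
        intro k
        rw [Fintype.sum_option]
        simp [hl']
      have hF' : ∀ k, ∑ i, min (l' i) k ≤ min k m + cnt S (nx s) e k := by
        intro k
        rw [hsum', ← cnt_step hs n2 hne n3]
        exact hF k
      -- a part of size at least `m`
      have hex : ∃ i, m ≤ l i := by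
        by_contra hcon
        push Not at hcon
        have h1 := hF (m - 1)
        have h2 : ∑ i, min (l i) (m - 1) = ∑ i, l i :=
          Finset.sum_congr rfl fun i _ => by have := hcon i; omega
        rw [h2, hl, cnt_step hs n2 hne n3] at h1
        have h3 := cnt_le S (nx s) e (m - 1)
        omega
      obtain ⟨j0, hj0⟩ := hex
      obtain ⟨i0, hi0, hi0min⟩ := Finset.exists_min_image
        (Finset.univ.filter fun i => m ≤ l' i) l' ⟨some j0, by simpa [hl'] using hj0⟩
      rw [Finset.mem_filter] at hi0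
      have hi0n : i0 ≠ none := by
        rintro rfl
        have := hi0.2
        simp only [hl', Option.elim_none] at this
        omega
      obtain ⟨i1, hi1, hi1max⟩ := Finset.exists_max_image
        (Finset.univ.filter fun i => i ≠ i0 ∧ l' i ≤ m) l' ⟨none, by
          rw [Finset.mem_filter]
          exact ⟨Finset.mem_univ _, hi0n.symm, by simp [hl']⟩⟩
      rw [Finset.mem_filter] at hi1
      have h01 : i0 ≠ i1 := hi1.2.1.symm
      obtain ⟨W1, hW1, ⟨z, hz⟩, x', B1⟩ := B'.step hp h01 hi0.2 hi1.2.2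
      have hF1 := comb_step h01 hi0.2 hi1.2.2
        (fun i hi => hi0min i (Finset.mem_filter.mpr ⟨Finset.mem_univ _, hi⟩))
        (fun i hi hi2 => hi1max i (Finset.mem_filter.mpr ⟨Finset.mem_univ _, hi, hi2⟩))
        (cnt_concave nx hnx hSe _ (nx s) n1 rfl) hF'
      have hsum1 : ∑ i, Function.update (Function.update l' i0 (l' i0 + l' i1 - m)) i1 0 i =
          e - nx s := by
        have h2 := B1.card
        have h3 : Nat.card W1 * W1.index = Nat.card Y := AddSubgroup.card_mul_index _
        rw [h2, hW1, B.card, hl, ← pow_add] at h3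
        have h4 : (∑ i, Function.update (Function.update l' i0 (l' i0 + l' i1 - m)) i1 0 i) + m =
          e - s := Nat.pow_right_injective hp.two_le h3
        omega
      obtain ⟨W', hW'1, hW'2⟩ := ih (e - nx s) (by omega) (nx s) n1 rfl W1 (Option ι) x' _ B1
        hsum1 hF1
      have hge : ∀ t ∈ S, s ≤ t → t ≠ s → nx s ≤ t := fun t ht hst hts => n3 t ht (by omega)
      refine ⟨fun t => if t = s then ⊤ else (W' t).map W1.subtype, ?_, ?_⟩
      · intro t ht hst
        simp only
        by_cases hts : t = s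
        · rw [if_pos hts, hts, Nat.sub_self, pow_zero, AddSubgroup.index_top]
        · rw [if_neg hts, AddSubgroup.index_map_subtype, hW'1 t ht (hge t ht hst hts), hW1,
            ← pow_add]
          congr 1
          have := hge t ht hst hts
          omega
      · intro t ht hst r hr htr hcons
        simp only
        have hrs : r ≠ s := by omega
        rw [if_neg hrs]
        by_cases hts : t = s
        · rw [if_pos hts]
          have hrn : r = nx s := by
            have h2 := n3 r hr (by omega)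
            by_contra hne'
            exact hcons (nx s) n1 ⟨by omega, by omega⟩
          have hWr : (W' r).map W1.subtype = W1 := by
            have h2 := hW'1 (nx s) n1 le_rfl
            rw [Nat.sub_self, pow_zero, AddSubgroup.index_eq_one] at h2
            rw [hrn, h2]
            ext y
            simp
          rw [hWr]
          exact ⟨le_top, z, AddSubgroup.mem_top _, hz⟩
        · rw [if_neg hts]
          obtain ⟨h2, w, hw, h3⟩ := hW'2 t ht (hge t ht hst hts) r hr htr hcons
          refine ⟨AddSubgroup.map_mono h2, w, ⟨w, hw, rfl⟩, ?_⟩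
          refine (AddSubgroup.map_mono h3).trans ?_
          rw [AddSubgroup.map_sup, AddMonoidHom.map_zmultiples]
          exact le_rfl

end Pool.Agent.Lib.C8da183
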