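import Pool.Agent.Lib.C8da183.Tower

/-!
# Towers of cuts from ordinal sums
-/

namespace Pool.Agent.Lib.C8da183

open scoped Classical

set_option linter.unusedSectionVars false

variable {V : Type*} [AddCommGroup V] [Module ℚ V]

section

variable {G K : AddSubgroup V} {J : Type*} [Fintype J] [DecidableEq J] {b : J → V}
  {f : J → V →ₗ[ℚ] ℚ} {ρ : V → ℕ}

theorem Ref.isCritical (R : Ref G K b f) (j : J) : IsCritical G (b j) :=
  ⟨R.bG j, R.b_ne_zero j, fun h => R.not_mem_sharp j (h ▸ self_mem_up (R.bG j))⟩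

theorem Ref.exists_equiv (R : Ref G K b f) {x : V} (hx : IsCritical G x) :
    ∃ j, TypeLE G x G (b j) ∧ TypeLE G (b j) G x := by
  obtain ⟨hxG, hx0, hx⟩ := hx
  have hnot : ¬ up G x ≤ sharp G x := fun h => hx (le_antisymm sharp_le_up h)
  rw [SetLike.le_def] at hnot
  push Not at hnot
  obtain ⟨y, hy, hy2⟩ := hnot
  have h1 := (R.mem_up_iff hy.1).mp hy
  rw [R.mem_sharp_iff hy.1] at hy2
  push Not at hy2
  obtain ⟨j, hj, h2⟩ := hy2
  exact ⟨j, h1 j hj, h2 (h1 j hj)⟩

theorem mem_part_iff (R : Ref G K b f)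
    (hρ : ∀ x y, IsCritical G x → IsCritical G y → ρ x < ρ y →
      TypeLE G y G x ∧ ¬ TypeLE G x G y) {i : ℕ} {y : V} (hy : y ∈ G) :
    y ∈ part G ρ i ↔ ∀ j, f j y ≠ 0 → ρ (b j) < i := by
  have h1 := R.mem_span_iff (P := fun z => ∃ x, IsCritical G x ∧ ρ x < i ∧ TypeLE G x G z)
    (fun y _ z _ ⟨x, h1, h2, h3⟩ h4 => ⟨x, h1, h2, h3.trans h4⟩) hy
  constructor
  · rintro ⟨-, h2⟩ j hj
    have h3 : y ∈ Submodule.span ℚ
        {z | z ∈ G ∧ ∃ x, IsCritical G x ∧ ρ x < i ∧ TypeLE G x G z} := by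
      have h4 : {x | IsCritical G x ∧ ρ x < i} ⊆
          {z | z ∈ G ∧ ∃ x, IsCritical G x ∧ ρ x < i ∧ TypeLE G x G z} :=
        fun z hz => ⟨hz.1.1, z, hz.1, hz.2, TypeLE.refl G z⟩
      exact Submodule.span_mono h4 h2
    obtain ⟨x, hx1, hx2, hx3⟩ := h1.mp h3 j hj
    by_contra hlt
    exact (hρ x (b j) hx1 (R.isCritical j) (by omega)).2 hx3
  · intro h
    refine ⟨hy, ?_⟩
    change y ∈ Submodule.span ℚ _
    rw [R.expand y hy]
    refine Submodule.sum_mem _ fun j _ => ?_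
    by_cases hj : f j y = 0
    · rw [hj, zero_smul]; exact Submodule.zero_mem _
    · exact Submodule.smul_mem _ _ (Submodule.subset_span ⟨R.isCritical j, h j hj⟩)

theorem isCut_part (R : Ref G K b f)
    (hρ : ∀ x y, IsCritical G x → IsCritical G y → ρ x < ρ y →
      TypeLE G y G x ∧ ¬ TypeLE G x G y) (i : ℕ) : IsCut G (part G ρ i) := by
  refine ⟨inf_le_left, ?_, ?_⟩
  · intro x hx n hn h
    refine ⟨hx, ?_⟩
    have h1 : n • x ∈ Submodule.span ℚ {x | IsCritical G x ∧ ρ x < i} := h.2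
    have h2 := Submodule.smul_mem _ ((n : ℚ)⁻¹) h1
    rw [nsmul_eq, smul_smul, inv_mul_cancel₀ (by exact_mod_cast hn), one_smul] at h2
    exact h2
  · intro x hx hx0
    by_cases h : up G x ≤ part G ρ i
    · exact Or.inl h
    · right
      rw [SetLike.le_def] at h
      push Not at h
      obtain ⟨y, hy, hy2⟩ := h
      rw [mem_part_iff R hρ hy.1] at hy2
      push Not at hy2
      obtain ⟨j, hj, hj2⟩ := hy2
      have h1 := (R.mem_up_iff hy.1).mp hy j hj
      intro h hh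
      have hhG : h ∈ G := hh.1
      rw [R.mem_sharp_iff hhG]
      intro k hk
      have h2 := (mem_part_iff R hρ hhG).mp hh k hk
      have h3 := hρ (b k) (b j) (R.isCritical k) (R.isCritical j) (by omega)
      exact ⟨h1.trans h3.1, fun h4 => h3.2 (h4.trans h1)⟩

end

theorem part_zero (G : AddSubgroup V) (ρ : V → ℕ) : part G ρ 0 = ⊥ := by
  unfold part
  have : {x | IsCritical G x ∧ ρ x < 0} = ∅ := by
    ext x; simp
  rw [this, Submodule.span_empty]
  exact inf_bot_eq _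

theorem part_top {G : AddSubgroup V} {ρ : V → ℕ} (hG : IsACD G) {m : ℕ}
    (hm : ∀ x, IsCritical G x → ρ x < m) : part G ρ m = G := by
  obtain ⟨C, J, _, _, b, f, hC, R⟩ := exists_ref_reg hG
  refine le_antisymm inf_le_left fun y hy => ⟨hy, ?_⟩
  change y ∈ Submodule.span ℚ _
  rw [R.expand y hy]
  exact Submodule.sum_mem _ fun j _ => Submodule.smul_mem _ _
    (Submodule.subset_span ⟨R.isCritical j, hm _ (R.isCritical j)⟩)

theorem part_mono (G : AddSubgroup V) (ρ : V → ℕ) {i i' : ℕ} (h : i ≤ i') :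
    part G ρ i ≤ part G ρ i' := by
  refine inf_le_inf_left _ ?_
  have : Submodule.span ℚ {x | IsCritical G x ∧ ρ x < i} ≤
      Submodule.span ℚ {x | IsCritical G x ∧ ρ x < i'} :=
    Submodule.span_mono fun x hx => ⟨hx.1, lt_of_lt_of_le hx.2 h⟩
  exact this

theorem layer_isForest {G : AddSubgroup V} {ρ : V → ℕ} (hG : IsACD G)
    (hρ : ∀ x y, IsCritical G x → IsCritical G y → ρ x < ρ y →
      TypeLE G y G x ∧ ¬ TypeLE G x G y)
    (hfo : ∀ x y z, IsCritical G x → IsCritical G y → IsCritical G z → ρ x = ρ y → ρ x = ρ z →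
      TypeLE G x G y → TypeLE G x G z → TypeLE G y G z ∨ TypeLE G z G y) (i : ℕ) :
    IsForest (layer G ρ i) := by
  obtain ⟨C, J, _, _, b, f, hC, R⟩ := exists_ref_reg hG
  have hc1 := isCut_part R hρ (i + 1)
  have hc0 := isCut_part R hρ i
  have hc := hc1.of_le hG hc0 (part_mono G ρ (Nat.le_succ i))
  have RH := R.restrict hc1
  obtain ⟨fb, hfb⟩ := exists_fbar RH hc
  have RL := RH.quot hc hfb
  have hrank : ∀ j, b j ∈ part G ρ (i + 1) → b j ∉ part G ρ i → ρ (b j) = i := by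
    intro j h1 h0
    have h2 := (mem_part_iff R hρ (R.bG j)).mp h1 j (by rw [R.dual, if_pos rfl]; exact one_ne_zero)
    rw [mem_part_iff R hρ (R.bG j)] at h0
    push Not at h0
    obtain ⟨k, hk, hk2⟩ := h0
    rw [R.dual] at hk
    have : k = j := by
      by_contra hne
      exact hk (if_neg hne)
    subst this
    omega
  have hT : ∀ j k : {j' : {j // b j ∈ part G ρ (i + 1)} // b j' ∉ part G ρ i},
      TypeLE (layer G ρ i) (qm (part G ρ i) (b j)) (layer G ρ i) (qm (part G ρ i) (b k)) ↔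
        TypeLE G (b j) G (b k) := by
    intro j k
    rw [← cut_typeLE hc1 j.1.2 k.1.2]
    exact quot_typeLE RH hc (i := j.1) (j := k.1) j.2 k.2
  intro x y z hx hy hz hxy hxz
  obtain ⟨j, hj1, hj2⟩ := RL.exists_equiv hx
  obtain ⟨k, hk1, hk2⟩ := RL.exists_equiv hy
  obtain ⟨l, hl1, hl2⟩ := RL.exists_equiv hz
  have hjk : TypeLE G (b j) G (b k) := (hT j k).mp (hj2.trans (hxy.trans hk1))
  have hjl : TypeLE G (b j) G (b l) := (hT j l).mp (hj2.trans (hxz.trans hl1))
  have rj := hrank _ j.1.2 j.2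
  have rk := hrank _ k.1.2 k.2
  have rl := hrank _ l.1.2 l.2
  rcases hfo (b j) (b k) (b l) (R.isCritical _) (R.isCritical _) (R.isCritical _)
    (rj.trans rk.symm) (rj.trans rl.symm) hjk hjl with h | h
  · exact Or.inl (hk1.trans (((hT k l).mpr h).trans hl2))
  · exact Or.inr (hl1.trans (((hT l k).mpr h).trans hk2))

end Pool.Agent.Lib.C8da183
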