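import Pool.Agent.Lib.C8da183.Struct

/-!
# Regulating subgroups are completely decomposable of finite index
-/

namespace Pool.Agent.Lib.C8da183

open scoped Classical

set_option linter.unusedSectionVars false

variable {V : Type*} [AddCommGroup V] [Module ℚ V]

theorem ref_of_li {G H : AddSubgroup V} {J : Type*} [Fintype J] [DecidableEq J] {b : J → V}
    (li : LinearIndependent ℚ b) (hle : H ≤ G) (hb : ∀ j, b j ∈ H)
    (hdec : ∀ h ∈ H, ∃ q : J → ℚ, (∀ k, q k • b k ∈ H) ∧ h = ∑ k, q k • b k)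
    (hfin : H.relIndex G ≠ 0) : ∃ f : J → V →ₗ[ℚ] ℚ, Ref G H b f := by
  have hinj : LinearMap.ker (Fintype.linearCombination ℚ b) = ⊥ := by
    rw [LinearMap.ker_eq_bot]
    exact (linearIndependent_iff_injective_fintypeLinearCombination).mp li
  obtain ⟨F, hF⟩ := LinearMap.exists_leftInverse_of_injective _ hinj
  have hFb : ∀ q : J → ℚ, F (∑ k, q k • b k) = q := fun q => by
    have := LinearMap.congr_fun hF q
    rwa [LinearMap.comp_apply, Fintype.linearCombination_apply] at this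
  have hsum : ∀ q : J → ℚ, ∀ j, (F (∑ k, q k • b k)) j = q j := fun q j => by rw [hFb]
  refine ⟨fun j => (LinearMap.proj j).comp F, ?_, ?_, hle, hb, ?_, hfin⟩
  · intro j k
    have h1 : b k = ∑ i, (Pi.single k (1 : ℚ) : J → ℚ) i • b i := by
      simp [Pi.single_apply]
    rw [LinearMap.comp_apply, LinearMap.proj_apply, h1, hsum, Pi.single_apply]
  · intro g hg
    obtain ⟨h1, h2⟩ := exists_nsmul_mem hfin
    set m := H.relIndex G
    obtain ⟨q, _, hq⟩ := hdec _ (h2 g hg)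
    have hm : (m : ℚ) ≠ 0 := by exact_mod_cast h1.ne'
    have h3 : g = ∑ k, ((m : ℚ)⁻¹ * q k) • b k := by
      have : g = (m : ℚ)⁻¹ • (m • g) := by
        rw [nsmul_eq, smul_smul, inv_mul_cancel₀ hm, one_smul]
      rw [this, hq, Finset.smul_sum]
      simp only [smul_smul]
    conv_lhs => rw [h3]
    refine Finset.sum_congr rfl fun j _ => ?_
    congr 1
    rw [LinearMap.comp_apply, LinearMap.proj_apply]
    conv_rhs => rw [h3]
    rw [hsum]
  · intro c hc j
    obtain ⟨q, hq, e⟩ := hdec c hc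
    rw [LinearMap.comp_apply, LinearMap.proj_apply, e, hsum]
    exact hq j

theorem exists_ref_of_acd {G : AddSubgroup V} (hG : IsACD G) :
    ∃ (H : AddSubgroup V) (n : ℕ) (b : Fin n → V) (f : Fin n → V →ₗ[ℚ] ℚ), Ref G H b f := by
  obtain ⟨H, hle, ⟨n, b, li, hb, hdec⟩, hfin⟩ := hG
  obtain ⟨f, hf⟩ := ref_of_li li hle hb hdec hfin
  exact ⟨H, n, b, f, hf⟩

section

variable {G C0 : AddSubgroup V} {J : Type*} [Fintype J] [DecidableEq J] {b : J → V}
  {f : J → V →ₗ[ℚ] ℚ} {D : V → AddSubgroup V}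

theorem Fam.exists_basis (hD : Fam G D) (R : Ref G C0 b f) : ∀ U, IsUp G b U →
    ∃ (I : Type) (_ : Fintype I) (β : I → V), LinearIndependent ℚ β ∧
      (∀ i, β i ∈ Fam.DU D b U) ∧
      ∀ h ∈ Fam.DU D b U, ∃ q : I → ℚ, (∀ i, q i • β i ∈ Fam.DU D b U) ∧
        h = ∑ i, q i • β i := by
  apply upset_induction
  · refine ⟨Empty, inferInstance, fun i => i.elim, linearIndependent_empty_type,
      fun i => i.elim, fun h hh => ⟨fun i => i.elim, fun i => i.elim, ?_⟩⟩
    have : Fam.DU D b (∅ : Finset J) = ⊥ := by simp [Fam.DU]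
    rw [this, AddSubgroup.mem_bot] at hh
    simp [hh]
  · intro U hU k hk hmin ih
    obtain ⟨I, _, β, li, hβ, hdec⟩ := ih
    obtain ⟨n, β', li', hβ', -, hdec'⟩ := (hD.prop _ (R.bG k) (R.b_ne_zero k)).1
    have hle1 : D (b k) ≤ Fam.DU D b U := Fam.le_DU hk
    have hle2 : Fam.DU D b (del G b U k) ≤ Fam.DU D b U := by
      rw [hD.DU_eq R hk]; exact le_sup_right
    refine ⟨Fin n ⊕ I, inferInstance, Sum.elim β' β, ?_, ?_, ?_⟩
    · refine LinearIndependent.sum_type li' li ?_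
      rw [Submodule.disjoint_def]
      intro v hv1 hv2
      obtain ⟨N, hN, h1⟩ := exists_smul_mem_of_span (D := D (b k))
        (Submodule.span_mono (by rintro _ ⟨i, rfl⟩; exact hβ' i) hv1)
      obtain ⟨M, hM, h2⟩ := exists_smul_mem_of_span (D := Fam.DU D b (del G b U k))
        (Submodule.span_mono (by rintro _ ⟨i, rfl⟩; exact hβ i) hv2)
      have h3 : (M * N) • v ∈ D (b k) ⊓ GU G f (del G b U k) := by
        constructor
        · rw [mul_smul]; exact AddSubgroup.nsmul_mem _ h1 M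
        · rw [mul_comm, mul_smul]
          exact AddSubgroup.nsmul_mem _ (hD.DU_le_GU R (hU.del hmin) h2) N
      rw [hD.inf_GU R, AddSubgroup.mem_bot, nsmul_eq, smul_eq_zero] at h3
      rcases h3 with h3 | h3
      · exact absurd h3 (by exact_mod_cast (Nat.mul_pos hM hN).ne')
      · exact h3
    · rintro (i | i)
      · exact hle1 (hβ' i)
      · exact hle2 (hβ i)
    · intro h hh
      rw [hD.DU_eq R hk] at hh
      obtain ⟨d, hd, c, hc, e⟩ := AddSubgroup.mem_sup.mp hh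
      obtain ⟨q', hq', e'⟩ := hdec' d hd
      obtain ⟨q, hq, e''⟩ := hdec c hc
      refine ⟨Sum.elim q' q, ?_, ?_⟩
      · rintro (i | i)
        · exact hle1 (hq' i)
        · exact hle2 (hq i)
      · rw [Fintype.sum_sum_type, ← e]
        simp only [Sum.elim_inl, Sum.elim_inr]
        rw [← e', ← e'']

end

theorem isRegulating_iff {G C : AddSubgroup V} : IsRegulating G C ↔ ∃ D : V → AddSubgroup V,
    Fam G D ∧ C = ⨆ x : {x : V // x ∈ G ∧ x ≠ 0}, D x :=
  ⟨fun ⟨D, h1, h2, h3⟩ => ⟨D, ⟨h1, h2⟩, h3⟩, fun ⟨D, h, h3⟩ => ⟨D, h.1, h.2, h3⟩⟩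

variable {G C : AddSubgroup V}

theorem IsRegulating.le (hC : IsRegulating G C) : C ≤ G := by
  obtain ⟨D, hD, rfl⟩ := isRegulating_iff.mp hC
  refine iSup_le ?_
  rintro ⟨x, hx, hx0⟩
  exact (hD.le_up hx hx0).trans up_le

theorem IsRegulating.up_le_sup (hC : IsRegulating G C) {x : V} (hx : x ∈ G) (hx0 : x ≠ 0) :
    up G x ≤ C ⊔ sharp G x := by
  obtain ⟨D, hD, rfl⟩ := isRegulating_iff.mp hC
  rw [← (hD.prop x hx hx0).2.1]
  exact sup_le_sup_right (le_iSup (fun x : {x : V // x ∈ G ∧ x ≠ 0} => D x) ⟨x, hx, hx0⟩) _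

/-- All regulating subgroups have the same, finite, index. -/
theorem IsRegulating.relIndex_eq (hG : IsACD G) (hC : IsRegulating G C) {C' : AddSubgroup V}
    (hC' : IsRegulating G C') : C.relIndex G = C'.relIndex G ∧ C.relIndex G ≠ 0 := by
  obtain ⟨H, n, b, f, R⟩ := exists_ref_of_acd hG
  obtain ⟨D, hD, rfl⟩ := isRegulating_iff.mp hC
  obtain ⟨D', hD', rfl⟩ := isRegulating_iff.mp hC'
  have := hD.relIndex_DU hD' R Finset.univ (fun j _ k _ => Finset.mem_univ k)
  rw [GU_univ, ← hD.iSup_eq R, ← hD'.iSup_eq R] at this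
  exact this

/-- A regulating subgroup gives a reference completely decomposable subgroup. -/
theorem IsRegulating.exists_ref (hG : IsACD G) (hC : IsRegulating G C) :
    ∃ (J : Type) (_ : Fintype J) (_ : DecidableEq J) (b : J → V) (f : J → V →ₗ[ℚ] ℚ),
      Ref G C b f := by
  obtain ⟨H, n, b, f, R⟩ := exists_ref_of_acd hG
  have h1 := (hC.relIndex_eq hG hC).2
  have hle := hC.le
  obtain ⟨D, hD, rfl⟩ := isRegulating_iff.mp hC
  rw [hD.iSup_eq R] at h1 hle ⊢
  obtain ⟨I, _, β, li, hβ, hdec⟩ := hD.exists_basis R Finset.univ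
    (fun j _ k _ => Finset.mem_univ k)
  obtain ⟨f', hf'⟩ := ref_of_li li hle hβ hdec h1
  exact ⟨I, _, _, β, f', hf'⟩

end Pool.Agent.Lib.C8da183
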