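import Pool.Agent.Lib.C8da183.Homog

/-!
# The index of a regulating subgroup; regulating subgroups are completely decomposable
-/

namespace Pool.Agent.Lib.C8da183

open scoped Classical

set_option linter.unusedSectionVars false

variable {V : Type*} [AddCommGroup V] [Module ℚ V]

section Up

variable {G C0 : AddSubgroup V} {J : Type*} [Fintype J] [DecidableEq J] {b : J → V}
  {f : J → V →ₗ[ℚ] ℚ}

/-- The elements of `G` supported in `U`. -/
def GU (G : AddSubgroup V) (f : J → V →ₗ[ℚ] ℚ) (U : Finset J) : AddSubgroup V where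
  carrier := {y | y ∈ G ∧ ∀ j, j ∉ U → f j y = 0}
  add_mem' := fun {x y} hx hy => ⟨G.add_mem hx.1 hy.1, fun j hj => by
    rw [map_add, hx.2 j hj, hy.2 j hj, add_zero]⟩
  zero_mem' := ⟨G.zero_mem, fun j _ => map_zero _⟩
  neg_mem' := fun {x} hx => ⟨G.neg_mem hx.1, fun j hj => by rw [map_neg, hx.2 j hj, neg_zero]⟩

theorem mem_GU {U : Finset J} {y : V} : y ∈ GU G f U ↔ y ∈ G ∧ ∀ j, j ∉ U → f j y = 0 := Iff.rfl

theorem GU_mono {U W : Finset J} (h : U ⊆ W) : GU G f U ≤ GU G f W :=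
  fun _ hy => ⟨hy.1, fun j hj => hy.2 j fun h' => hj (h h')⟩

theorem GU_le (U : Finset J) : GU G f U ≤ G := fun _ hy => hy.1

theorem GU_univ : GU G f Finset.univ = G :=
  le_antisymm (GU_le _) fun _ hy => ⟨hy, fun j hj => absurd (Finset.mem_univ j) hj⟩

/-- `U` is closed upwards with respect to types. -/
def IsUp (G : AddSubgroup V) (b : J → V) (U : Finset J) : Prop :=
  ∀ j ∈ U, ∀ k, TypeLE G (b j) G (b k) → k ∈ U

/-- `k` has minimal type in `U`. -/
def IsMin (G : AddSubgroup V) (b : J → V) (U : Finset J) (k : J) : Prop :=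
  ∀ j ∈ U, TypeLE G (b j) G (b k) → TypeLE G (b k) G (b j)

/-- Remove the indices of the same type as `k`. -/
noncomputable def del (G : AddSubgroup V) (b : J → V) (U : Finset J) (k : J) : Finset J :=
  U.filter fun j => ¬ (TypeLE G (b j) G (b k) ∧ TypeLE G (b k) G (b j))

theorem mem_del {U : Finset J} {k j : J} :
    j ∈ del G b U k ↔ j ∈ U ∧ ¬ (TypeLE G (b j) G (b k) ∧ TypeLE G (b k) G (b j)) := by
  simp only [del, Finset.mem_filter]

theorem del_subset {U : Finset J} {k : J} : del G b U k ⊆ U := Finset.filter_subset _ _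

theorem del_ssubset {U : Finset J} {k : J} (hk : k ∈ U) : del G b U k ⊂ U := by
  refine Finset.ssubset_iff_subset_ne.mpr ⟨del_subset, fun h => ?_⟩
  rw [← h, mem_del] at hk
  exact hk.2 ⟨TypeLE.refl _ _, TypeLE.refl _ _⟩

theorem exists_isMin (G : AddSubgroup V) (b : J → V) {U : Finset J} (hU : U.Nonempty) :
    ∃ k ∈ U, IsMin G b U k := by
  obtain ⟨k, hk, hmin⟩ := Finset.exists_min_image U
    (fun k => (U.filter fun j => TypeLE G (b j) G (b k)).card) hU
  refine ⟨k, hk, fun j hj hjk => ?_⟩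
  by_contra hkj
  have h1 := hmin j hj
  have h2 : (U.filter fun i => TypeLE G (b i) G (b j)) ⊂
      (U.filter fun i => TypeLE G (b i) G (b k)) := by
    refine Finset.ssubset_iff_subset_ne.mpr ⟨fun i hi => ?_, fun h => ?_⟩
    · rw [Finset.mem_filter] at hi ⊢
      exact ⟨hi.1, hi.2.trans hjk⟩
    · have : k ∈ U.filter fun i => TypeLE G (b i) G (b j) := by
        rw [h, Finset.mem_filter]
        exact ⟨hk, TypeLE.refl _ _⟩
      exact hkj (Finset.mem_filter.mp this).2
  have := Finset.card_lt_card h2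
  omega

theorem IsUp.del {U : Finset J} {k : J} (hU : IsUp G b U) (hk : IsMin G b U k) :
    IsUp G b (del G b U k) := by
  intro j hj l hjl
  rw [mem_del] at hj ⊢
  refine ⟨hU j hj.1 l hjl, fun h => hj.2 ?_⟩
  have h1 := hjl.trans h.1
  exact ⟨h1, hk j hj.1 h1⟩

theorem upset_induction (P : Finset J → Prop) (h0 : P ∅)
    (hs : ∀ U, IsUp G b U → ∀ k ∈ U, IsMin G b U k → P (del G b U k) → P U) :
    ∀ U, IsUp G b U → P U := by
  intro U
  induction U using Finset.strongInduction with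
  | H U ih =>
    intro hU
    rcases U.eq_empty_or_nonempty with h | h
    · rw [h]; exact h0
    · obtain ⟨k, hk, hmin⟩ := exists_isMin G b h
      exact hs U hU k hk hmin (ih _ (del_ssubset hk) (hU.del hmin))

end Up

section Family

variable {G C0 : AddSubgroup V} {J : Type*} [Fintype J] [DecidableEq J] {b : J → V}
  {f : J → V →ₗ[ℚ] ℚ}

theorem sharp_le_GU (R : Ref G C0 b f) {U : Finset J} (hU : IsUp G b U) {k : J} (hk : k ∈ U) :
    sharp G (b k) ≤ GU G f (del G b U k) := by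
  intro y hy
  refine ⟨hy.1, fun j hj => ?_⟩
  by_contra h
  have h1 := (R.mem_sharp_iff hy.1).mp hy j h
  exact hj (mem_del.mpr ⟨hU k hk j h1.1, fun h2 => h1.2 h2.1⟩)

theorem up_le_GU (R : Ref G C0 b f) {U : Finset J} (hU : IsUp G b U) {k : J} (hk : k ∈ U) :
    up G (b k) ≤ GU G f U := by
  intro y hy
  refine ⟨hy.1, fun j hj => ?_⟩
  by_contra h
  have h1 := (R.mem_up_iff hy.1).mp hy j h
  exact hj (hU k hk j h1)

theorem up_inf_GU (R : Ref G C0 b f) {U : Finset J} {k : J} :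
    up G (b k) ⊓ GU G f (del G b U k) ≤ sharp G (b k) := by
  rintro y ⟨hy1, hy2⟩
  rw [R.mem_sharp_iff hy1.1]
  intro j hj
  have h1 := (R.mem_up_iff hy1.1).mp hy1 j hj
  refine ⟨h1, fun h2 => ?_⟩
  have h3 : j ∈ del G b U k := by
    by_contra h
    exact hj (hy2.2 j h)
  exact (mem_del.mp h3).2 ⟨h2, h1⟩

/-- The conditions on a choice of complements. -/
structure Fam (G : AddSubgroup V) (D : V → AddSubgroup V) : Prop where
  prop : ∀ x ∈ G, x ≠ 0 → IsHomogCD (D x) G x ∧ D x ⊔ sharp G x = up G x ∧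
      D x ⊓ sharp G x = ⊥
  eqv : ∀ x ∈ G, ∀ y ∈ G, x ≠ 0 → y ≠ 0 → TypeLE G x G y → TypeLE G y G x → D x = D y

namespace Fam

variable {D : V → AddSubgroup V}

/-- The sum of the complements with index in `U`. -/
noncomputable def DU (D : V → AddSubgroup V) (b : J → V) (U : Finset J) : AddSubgroup V :=
  ⨆ j ∈ U, D (b j)

theorem le_DU {U : Finset J} {j : J} (hj : j ∈ U) : D (b j) ≤ DU D b U :=
  le_iSup₂_of_le j hj le_rfl

theorem DU_le_iff {U : Finset J} {H : AddSubgroup V} : DU D b U ≤ H ↔ ∀ j ∈ U, D (b j) ≤ H :=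
  iSup₂_le_iff

theorem le_up (hD : Fam G D) {x : V} (hx : x ∈ G) (hx0 : x ≠ 0) : D x ≤ up G x := by
  rw [← (hD.prop x hx hx0).2.1]; exact le_sup_left

theorem DU_eq (hD : Fam G D) (R : Ref G C0 b f) {U : Finset J} {k : J} (hk : k ∈ U) :
    DU D b U = D (b k) ⊔ DU D b (del G b U k) := by
  apply le_antisymm
  · rw [DU_le_iff]
    intro j hj
    by_cases h : j ∈ del G b U k
    · exact (le_DU h).trans le_sup_right
    · have h2 : TypeLE G (b j) G (b k) ∧ TypeLE G (b k) G (b j) := by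
        by_contra h3
        exact h (mem_del.mpr ⟨hj, h3⟩)
      rw [hD.eqv _ (R.bG j) _ (R.bG k) (R.b_ne_zero j) (R.b_ne_zero k) h2.1 h2.2]
      exact le_sup_left
  · refine sup_le (le_DU hk) ?_
    rw [DU_le_iff]
    intro j hj
    exact le_DU (del_subset hj)

theorem DU_le_GU (hD : Fam G D) (R : Ref G C0 b f) {U : Finset J} (hU : IsUp G b U) :
    DU D b U ≤ GU G f U := by
  rw [DU_le_iff]
  intro j hj
  exact (hD.le_up (R.bG j) (R.b_ne_zero j)).trans (up_le_GU R hU hj)

theorem inf_GU (hD : Fam G D) (R : Ref G C0 b f) {U : Finset J} {k : J} :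
    D (b k) ⊓ GU G f (del G b U k) = ⊥ := by
  rw [eq_bot_iff, ← (hD.prop _ (R.bG k) (R.b_ne_zero k)).2.2]
  rintro y ⟨h1, h2⟩
  exact ⟨h1, up_inf_GU R ⟨hD.le_up (R.bG k) (R.b_ne_zero k) h1, h2⟩⟩

theorem sup_GU (hD : Fam G D) (R : Ref G C0 b f) {U : Finset J} (hU : IsUp G b U) {k : J}
    (hk : k ∈ U) : D (b k) ⊔ GU G f (del G b U k) = up G (b k) ⊔ GU G f (del G b U k) := by
  rw [← (hD.prop _ (R.bG k) (R.b_ne_zero k)).2.1, sup_assoc,
    sup_eq_right.mpr (sharp_le_GU R hU hk)]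

theorem relIndex_step (hD : Fam G D) (R : Ref G C0 b f) {U : Finset J} (hU : IsUp G b U) {k : J}
    (hk : k ∈ U) (hmin : IsMin G b U k) :
    (DU D b U).relIndex (GU G f U) = (DU D b (del G b U k)).relIndex (GU G f (del G b U k)) *
      (up G (b k) ⊔ GU G f (del G b U k)).relIndex (GU G f U) := by
  set U' := del G b U k with hU'
  have hup' : IsUp G b U' := hU.del hmin
  have hB : DU D b U' ≤ GU G f U' := hD.DU_le_GU R hup'
  have h1 : D (b k) ⊔ DU D b U' ≤ D (b k) ⊔ GU G f U' := sup_le_sup_left hB _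
  have h2 : D (b k) ⊔ GU G f U' ≤ GU G f U :=
    sup_le ((hD.le_up (R.bG k) (R.b_ne_zero k)).trans (up_le_GU R hU hk)) (GU_mono del_subset)
  rw [hD.DU_eq R hk, ← AddSubgroup.relIndex_mul_relIndex _ _ _ h1 h2, hD.sup_GU R hU hk]
  congr 1
  have h3 : up G (b k) ⊔ GU G f U' = GU G f U' ⊔ (D (b k) ⊔ DU D b U') := by
    rw [← hD.sup_GU R hU hk]
    apply le_antisymm
    · exact sup_le (le_sup_left.trans le_sup_right) le_sup_left
    · exact sup_le le_sup_right (sup_le le_sup_left (hB.trans le_sup_right))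
  rw [h3, AddSubgroup.relIndex_sup_right, ← AddSubgroup.inf_relIndex_right]
  congr 1
  apply le_antisymm
  · rintro y ⟨hy1, hy2⟩
    obtain ⟨d, hd, c, hc, e⟩ := AddSubgroup.mem_sup.mp hy1
    have h4 : d ∈ D (b k) ⊓ GU G f U' := by
      refine ⟨hd, ?_⟩
      have : d = y - c := by rw [← e]; abel
      change d ∈ GU G f U'
      rw [this]
      exact AddSubgroup.sub_mem _ hy2 (hB hc)
    rw [hD.inf_GU R, AddSubgroup.mem_bot] at h4
    rw [h4, zero_add] at e
    rw [← e]; exact hc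
  · exact le_inf le_sup_right hB

theorem step_ne_zero (R : Ref G C0 b f) {U : Finset J} {k : J} :
    (up G (b k) ⊔ GU G f (del G b U k)).relIndex (GU G f U) ≠ 0 := by
  have h1 : C0.relIndex (GU G f U) ≠ 0 := fun h =>
    R.fin (AddSubgroup.relIndex_eq_zero_of_le_right (GU_le U) h)
  rw [← AddSubgroup.inf_relIndex_right] at h1
  intro h
  refine h1 (AddSubgroup.relIndex_eq_zero_of_le_left ?_ h)
  rintro y ⟨hy1, hy2⟩
  rw [R.expand y hy2.1]
  refine AddSubgroup.sum_mem _ fun j _ => ?_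
  by_cases hj : f j y = 0
  · rw [hj, zero_smul]; exact AddSubgroup.zero_mem _
  have hjU : j ∈ U := by
    by_contra h; exact hj (hy2.2 j h)
  have hG : f j y • b j ∈ G := R.le (R.coord y hy1 j)
  by_cases h : j ∈ del G b U k
  · refine le_sup_right (a := up G (b k)) (b := GU G f (del G b U k)) ⟨hG, fun i hi => ?_⟩
    rw [map_smul, R.dual, if_neg, smul_zero]
    rintro rfl
    exact hi h
  · have h2 : TypeLE G (b j) G (b k) ∧ TypeLE G (b k) G (b j) := by
      by_contra h3
      exact h (mem_del.mpr ⟨hjU, h3⟩)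
    exact le_sup_left (a := up G (b k)) (b := GU G f (del G b U k))
      ⟨hG, h2.2.smul_right _⟩

theorem relIndex_DU {D' : V → AddSubgroup V} (hD : Fam G D) (hD' : Fam G D')
    (R : Ref G C0 b f) : ∀ U, IsUp G b U →
      (DU D b U).relIndex (GU G f U) = (DU D' b U).relIndex (GU G f U) ∧
      (DU D b U).relIndex (GU G f U) ≠ 0 := by
  apply upset_induction
  · have h : GU G f (∅ : Finset J) = ⊥ := by
      rw [eq_bot_iff]
      intro y hy
      rw [AddSubgroup.mem_bot]
      refine R.ext' hy.1 G.zero_mem fun j => ?_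
      rw [map_zero]
      exact hy.2 j (Finset.notMem_empty j)
    rw [h, AddSubgroup.relIndex_bot_right, AddSubgroup.relIndex_bot_right]
    simp
  · intro U hU k hk hmin ih
    rw [hD.relIndex_step R hU hk hmin, hD'.relIndex_step R hU hk hmin, ih.1]
    refine ⟨rfl, ?_⟩
    rw [← ih.1]
    exact mul_ne_zero ih.2 (step_ne_zero R)

theorem iSup_eq (hD : Fam G D) (R : Ref G C0 b f) :
    (⨆ x : {x : V // x ∈ G ∧ x ≠ 0}, D x) = DU D b Finset.univ := by
  apply le_antisymm
  · refine iSup_le ?_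
    rintro ⟨x, hx, hx0⟩
    by_cases h : ∃ k, TypeLE G x G (b k) ∧ TypeLE G (b k) G x
    · obtain ⟨k, h1, h2⟩ := h
      change D x ≤ _
      rw [hD.eqv _ hx _ (R.bG k) hx0 (R.b_ne_zero k) h1 h2]
      exact le_DU (Finset.mem_univ k)
    · have h1 : D x ≤ sharp G x := by
        intro y hy
        have hy' := hD.le_up hx hx0 hy
        rw [R.mem_sharp_iff hy'.1]
        intro j hj
        have h3 := (R.mem_up_iff hy'.1).mp hy' j hj
        exact ⟨h3, fun h4 => h ⟨j, h3, h4⟩⟩
      have h2 : D x = ⊥ := by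
        rw [← (hD.prop _ hx hx0).2.2]
        exact (inf_eq_left.mpr h1).symm
      change D x ≤ _
      rw [h2]; exact bot_le
  · rw [DU_le_iff]
    intro j _
    exact le_iSup (fun x : {x : V // x ∈ G ∧ x ≠ 0} => D x) ⟨b j, R.bG j, R.b_ne_zero j⟩

end Fam

end Family

end Pool.Agent.Lib.C8da183
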