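import Pool.Agent.Lib.C8da183.Cut2
import Pool.Agent.Lib.C8da183.Exist
import Pool.Agent.Lib.C8da183.DefsT

/-!
# Towers of cuts
-/

namespace Pool.Agent.Lib.C8da183

open scoped Classical

set_option linter.unusedSectionVars false

variable {V : Type*} [AddCommGroup V] [Module ℚ V]

theorem RegQuot.congr {G : AddSubgroup V} {X X' : Type*} [AddCommGroup X] [AddCommGroup X']
    (h : RegQuot G X) (e : X ≃+ X') : RegQuot G X' := by
  obtain ⟨C, hC, ⟨φ⟩⟩ := h
  exact ⟨C, hC, ⟨φ.trans e⟩⟩

theorem exists_ref_reg {G : AddSubgroup V} (hG : IsACD G) :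
    ∃ (C : AddSubgroup V) (J : Type) (_ : Fintype J) (_ : DecidableEq J) (b : J → V)
      (f : J → V →ₗ[ℚ] ℚ), IsRegulating G C ∧ Ref G C b f := by
  obtain ⟨C, hC⟩ := exists_regulating hG
  obtain ⟨J, h1, h2, b, f, R⟩ := hC.exists_ref hG
  exact ⟨C, J, h1, h2, b, f, hC, R⟩

theorem IsCut.isACD {G H : AddSubgroup V} (hG : IsACD G) (hcut : IsCut G H) : IsACD H := by
  obtain ⟨C, J, _, _, b, f, hC, R⟩ := exists_ref_reg hG
  exact (R.restrict hcut).isACD

theorem IsCut.of_le {G H H' : AddSubgroup V} (hG : IsACD G) (hcut : IsCut G H)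
    (hcut' : IsCut G H') (hle : H' ≤ H) : IsCut H H' := by
  obtain ⟨C, J, _, _, b, f, hC, R⟩ := exists_ref_reg hG
  have RH := R.restrict hcut
  refine ⟨hle, fun x hx => hcut'.2.1 x (hcut.1 hx), fun x hx hx0 => ?_⟩
  rcases hcut'.2.2 x (hcut.1 hx) hx0 with h | h
  · left
    intro y hy
    exact h ⟨hcut.1 hy.1, (cut_typeLE hcut hx hy.1).mp hy.2⟩
  · right
    intro y hy
    have hyH : y ∈ H := hle hy
    refine (RH.mem_sharp_iff (x := x) hyH).mpr ?_
    rintro ⟨i, hi⟩ hfi
    have h1 := (R.mem_sharp_iff (hcut.1 hyH)).mp (h hy) i hfi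
    exact ⟨(cut_typeLE hcut hx hi).mpr h1.1, fun h => h1.2 ((cut_typeLE hcut hi hx).mp h)⟩

theorem factor_equiv {X X' : Type*} [AddCommGroup X] [AddCommGroup X'] (g : X' →+ X)
    (hg : Function.Injective g) {A' B' : AddSubgroup X'} {A B : AddSubgroup X}
    (hA : A'.map g = A) (hB : B'.map g = B) :
    Nonempty (factor B' A' ≃+ factor B A) := by
  subst hA hB
  refine ⟨QuotientAddGroup.congr _ _ (B'.equivMapOfInjective g hg) ?_⟩
  ext ⟨x, hx⟩
  obtain ⟨y, hy, rfl⟩ := hx
  simp only [AddSubgroup.mem_map, AddSubgroup.mem_addSubgroupOf]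
  constructor
  · rintro ⟨⟨z, hz⟩, hz1, hz2⟩
    have : g z = g y := congrArg Subtype.val hz2
    exact ⟨z, hz1, this⟩
  · rintro ⟨z, hz1, hz2⟩
    have : z = y := hg hz2
    subst this
    exact ⟨⟨z, hy⟩, hz1, rfl⟩

theorem top_factor_equiv {X : Type*} [AddCommGroup X] (A : AddSubgroup X) :
    Nonempty ((X ⧸ A) ≃+ factor (⊤ : AddSubgroup X) A) := by
  refine ⟨QuotientAddGroup.congr _ _ AddSubgroup.topEquiv.symm ?_⟩
  ext ⟨x, hx⟩
  simp only [AddSubgroup.mem_map, AddSubgroup.mem_addSubgroupOf]
  constructor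
  · rintro ⟨z, hz1, hz2⟩
    have : z = x := congrArg Subtype.val hz2
    exact this ▸ hz1
  · intro h
    exact ⟨x, h, rfl⟩

theorem regQuot_bot {X : Type*} [AddCommGroup X] :
    RegQuot (⊥ : AddSubgroup V) X ↔ (⊥ : AddSubgroup X) = ⊤ := by
  constructor
  · rintro ⟨C, hC, ⟨φ⟩⟩
    have h1 : Subsingleton ((⊥ : AddSubgroup V) ⧸ C.addSubgroupOf ⊥) := by
      constructor
      intro a b
      induction a using QuotientAddGroup.induction_on
      induction b using QuotientAddGroup.induction_on
      congr 1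
      exact Subsingleton.elim _ _
    have h2 : Subsingleton X := φ.symm.toEquiv.subsingleton
    exact Subsingleton.elim _ _
  · intro h
    have hG : IsACD (⊥ : AddSubgroup V) := by
      refine ⟨⊥, le_rfl, ⟨0, fun i => i.elim0, linearIndependent_empty_type, fun i => i.elim0,
        fun h hh => ⟨fun i => i.elim0, fun i => i.elim0, ?_⟩⟩, by simp⟩
      simpa using hh
    obtain ⟨C, hC⟩ := exists_regulating hG
    have h2 : Subsingleton X := (AddSubgroup.subsingleton_iff).mp (subsingleton_of_bot_eq_top h)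
    have h1 : Subsingleton ((⊥ : AddSubgroup V) ⧸ C.addSubgroupOf ⊥) := by
      constructor
      intro a b
      induction a using QuotientAddGroup.induction_on
      induction b using QuotientAddGroup.induction_on
      congr 1
      exact Subsingleton.elim _ _
    exact ⟨C, hC, ⟨{ toFun := fun _ => 0, invFun := fun _ => 0, left_inv := fun _ => Subsingleton.elim _ _, right_inv := fun _ => Subsingleton.elim _ _, map_add' := fun _ _ => by simp }⟩⟩

/-- The factor groups of a tower of cuts. -/
theorem regQuot_tower (H : ℕ → AddSubgroup V) (h0 : H 0 = ⊥) (m : ℕ) :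
    ∀ (G : AddSubgroup V), IsACD G → H m = G → (∀ i < m, H i ≤ H (i + 1)) →
      (∀ i < m, IsCut G (H i)) → ∀ (X : Type*) [AddCommGroup X] [Finite X],
      (RegQuot G X ↔ ∃ Y : ℕ → AddSubgroup X, Y 0 = ⊥ ∧ Y m = ⊤ ∧ ∀ i < m, Y i ≤ Y (i + 1) ∧
        RegQuot (quo (H (i + 1)) (H i)) (factor (Y (i + 1)) (Y i))) := by
  induction m with
  | zero =>
    intro G hG hm _ _ X _ _
    rw [h0] at hm
    subst hm
    rw [regQuot_bot]
    constructor
    · intro h
      exact ⟨fun _ => ⊥, rfl, h, fun i hi => absurd hi (Nat.not_lt_zero _)⟩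
    · rintro ⟨Y, hY0, hY1, _⟩
      rw [← hY0, ← hY1]
  | succ m ih =>
    intro G hG hm hle hcut X _ _
    obtain ⟨C, hC⟩ := exists_regulating hG
    have hcm := hcut m (Nat.lt_succ_self m)
    have hmono : ∀ i, i ≤ m → H i ≤ H m := by
      intro i hi
      obtain ⟨d, rfl⟩ := Nat.exists_eq_add_of_le hi
      clear ih hcut hcm hm
      induction d with
      | zero => exact le_rfl
      | succ d ihd =>
        refine (ihd (fun j hj => hle j (by omega)) (by omega)).trans (hle (i + d) (by omega))
    have IH := ih (H m) (hcm.isACD hG) rfl (fun i hi => hle i (by omega))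
      (fun i hi => hcm.of_le hG (hcut i (by omega)) (hmono i hi.le))
    rw [regQuot_cut hG hC hcm]
    constructor
    · rintro ⟨Y0, h1, h2⟩
      obtain ⟨Y', e0, em, hY'⟩ := (IH Y0).mp h1
      set Y : ℕ → AddSubgroup X := fun i => if i ≤ m then (Y' i).map Y0.subtype else ⊤ with hY
      have hYi : ∀ i ≤ m, Y i = (Y' i).map Y0.subtype := fun i hi => if_pos hi
      have hYm : Y m = Y0 := by
        rw [hYi m le_rfl, em, ← AddMonoidHom.range_eq_map, AddSubgroup.range_subtype]
      have hYm1 : Y (m + 1) = ⊤ := if_neg (by omega)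
      refine ⟨Y, ?_, hYm1, ?_⟩
      · rw [hYi 0 (Nat.zero_le _), e0, AddSubgroup.map_bot]
      · intro i hi
        rcases Nat.lt_succ_iff_lt_or_eq.mp hi with hi' | rfl
        · refine ⟨?_, ?_⟩
          · rw [hYi i hi'.le, hYi (i + 1) hi']
            exact AddSubgroup.map_mono (hY' i hi').1
          · obtain ⟨e⟩ := factor_equiv Y0.subtype Y0.subtype_injective (hYi i hi'.le).symm
              (hYi (i + 1) hi').symm
            exact (hY' i hi').2.congr e
        · rw [hYm1, hYm]
          refine ⟨le_top, ?_⟩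
          obtain ⟨e⟩ := top_factor_equiv Y0
          rw [hm]
          exact h2.congr e
    · rintro ⟨Y, e0, em, hY⟩
      have hYmono : ∀ i, i ≤ m → Y i ≤ Y m := by
        intro i hi
        obtain ⟨d, rfl⟩ := Nat.exists_eq_add_of_le hi
        have : ∀ d', d' ≤ d → Y i ≤ Y (i + d') := by
          intro d' hd'
          induction d' with
          | zero => exact le_rfl
          | succ d' ihd => exact (ihd (by omega)).trans (hY (i + d') (by omega)).1
        exact this d le_rfl
      refine ⟨Y m, (IH (Y m)).mpr ⟨fun i => (Y i).addSubgroupOf (Y m), ?_, ?_, ?_⟩, ?_⟩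
      · change (Y 0).addSubgroupOf (Y m) = ⊥
        rw [e0]; simp
      · change (Y m).addSubgroupOf (Y m) = ⊤
        simp
      · intro i hi
        have hmap : ∀ j, j ≤ m → ((Y j).addSubgroupOf (Y m)).map (Y m).subtype = Y j := by
          intro j hj
          rw [AddSubgroup.addSubgroupOf_map_subtype]
          exact inf_eq_left.mpr (hYmono j hj)
        obtain ⟨e⟩ := factor_equiv (Y m).subtype (Y m).subtype_injective (hmap i hi.le)
          (hmap (i + 1) hi)
        refine ⟨fun x hx => (hY i (by omega)).1 hx, (hY i (by omega)).2.congr e.symm⟩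
      · have h1 := (hY m (Nat.lt_succ_self m)).2
        rw [em, hm] at h1
        obtain ⟨e⟩ := top_factor_equiv (Y m)
        exact h1.congr e.symm

/-- In a forest, the groups `G(τ)`, `τ` critical, lie in every regulating subgroup. -/
theorem IsForest.up_le {G C : AddSubgroup V} {J : Type*} [Fintype J] [DecidableEq J] {b : J → V}
    {f : J → V →ₗ[ℚ] ℚ} (hfo : IsForest G) (R : Ref G C b f)
    (hreg : ∀ j, up G (b j) ≤ C ⊔ sharp G (b j)) : ∀ j, up G (b j) ≤ C := by
  have hcrit : ∀ j, IsCritical G (b j) := fun j => ⟨R.bG j, R.b_ne_zero j, fun h =>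
    R.not_mem_sharp j (h ▸ self_mem_up (R.bG j))⟩
  have key : ∀ (N : ℕ) (j : J),
      (Finset.univ.filter fun k => TypeLE G (b j) G (b k) ∧ ¬ TypeLE G (b k) G (b j)).card = N →
      up G (b j) ≤ C := by
    intro N
    induction N using Nat.strong_induction_on with
    | _ N ih =>
      intro j hN y hy
      obtain ⟨c, hc, s, hs, rfl⟩ := AddSubgroup.mem_sup.mp (hreg j hy)
      refine C.add_mem hc ?_
      by_cases hU : ∃ k, TypeLE G (b j) G (b k) ∧ ¬ TypeLE G (b k) G (b j)
      · obtain ⟨k0, hk0, hmin⟩ : ∃ k0, (TypeLE G (b j) G (b k0) ∧ ¬ TypeLE G (b k0) G (b j)) ∧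
            ∀ k, TypeLE G (b j) G (b k) ∧ ¬ TypeLE G (b k) G (b j) → TypeLE G (b k0) G (b k) := by
          have hne : (Finset.univ.filter fun k =>
              TypeLE G (b j) G (b k) ∧ ¬ TypeLE G (b k) G (b j)).Nonempty := by
            obtain ⟨k, hk⟩ := hU
            exact ⟨k, by simpa using hk⟩
          obtain ⟨k0, hk0, hmax⟩ := Finset.exists_max_image _
            (fun k => (Finset.univ.filter fun l => TypeLE G (b k) G (b l)).card) hne
          refine ⟨k0, by simpa using hk0, fun k hk => ?_⟩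
          have hk0' : TypeLE G (b j) G (b k0) := (by simpa using hk0 : _ ∧ _).1
          rcases hfo (b j) (b k0) (b k) (hcrit j) (hcrit k0) (hcrit k) hk0' hk.1 with h | h
          · exact h
          · have h1 := hmax k (by simpa using hk)
            have h2 : (Finset.univ.filter fun l => TypeLE G (b k0) G (b l)) ⊆
                (Finset.univ.filter fun l => TypeLE G (b k) G (b l)) := by
              intro l hl
              simp only [Finset.mem_filter, Finset.mem_univ, true_and] at hl ⊢
              exact h.trans hl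
            have h3 := Finset.eq_of_subset_of_card_le h2 h1
            have h4 : k ∈ (Finset.univ.filter fun l => TypeLE G (b k0) G (b l)) := by
              rw [h3]; simp [TypeLE.refl]
            simpa using h4
        have hlt : (Finset.univ.filter fun k =>
            TypeLE G (b k0) G (b k) ∧ ¬ TypeLE G (b k) G (b k0)).card < N := by
          rw [← hN]
          apply Finset.card_lt_card
          rw [Finset.ssubset_iff_of_subset]
          · exact ⟨k0, by simpa using hk0, by simp [TypeLE.refl]⟩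
          · intro l hl
            simp only [Finset.mem_filter, Finset.mem_univ, true_and] at hl ⊢
            exact ⟨hk0.1.trans hl.1, fun h => hk0.2 (hl.1.trans h)⟩
        apply ih _ hlt k0 rfl
        have hsG := sharp_le hs
        rw [R.mem_up_iff hsG]
        intro k hk
        exact hmin k ((R.mem_sharp_iff hsG).mp hs k hk)
      · push Not at hU
        have : s = 0 := by
          have hsG := sharp_le hs
          apply R.ext' hsG G.zero_mem
          intro k
          rw [map_zero]
          by_contra hk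
          have h1 := (R.mem_sharp_iff hsG).mp hs k hk
          exact h1.2 (hU k h1.1)
        rw [this]; exact C.zero_mem
  exact fun j => key _ j rfl

/-- In a forest, there is exactly one regulating subgroup. -/
theorem IsForest.eq_critSum {G C : AddSubgroup V} (hG : IsACD G) (hfo : IsForest G)
    (hC : IsRegulating G C) : C = critSum G := by
  obtain ⟨J, _, _, b, f, R⟩ := hC.exists_ref hG
  have hreg : ∀ j, up G (b j) ≤ C ⊔ sharp G (b j) := fun j =>
    hC.up_le_sup (R.bG j) (R.b_ne_zero j)
  have hup := hfo.up_le R hreg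
  have hcrit : ∀ j, IsCritical G (b j) := fun j => ⟨R.bG j, R.b_ne_zero j, fun h =>
    R.not_mem_sharp j (h ▸ self_mem_up (R.bG j))⟩
  apply le_antisymm
  · intro c hc
    rw [R.expand c (R.le hc)]
    refine AddSubgroup.sum_mem _ fun j _ => ?_
    have h1 : f j c • b j ∈ up G (b j) :=
      ⟨R.le (R.coord c hc j), (TypeLE.refl G (b j)).smul_right _⟩
    exact (le_iSup (fun x : {x : V // IsCritical G x} => up G x) ⟨b j, hcrit j⟩) h1
  · refine iSup_le ?_
    rintro ⟨x, hxG, hx0, hx⟩
    change up G x ≤ C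
    have hnot : ¬ up G x ≤ sharp G x := fun h => hx (le_antisymm sharp_le_up h)
    rw [SetLike.le_def] at hnot
    push Not at hnot
    obtain ⟨y, hy, hy2⟩ := hnot
    have h1 := (R.mem_up_iff hy.1).mp hy
    rw [R.mem_sharp_iff hy.1] at hy2
    push Not at hy2
    obtain ⟨j, hj, h2⟩ := hy2
    rw [up_eq_of_equiv (h1 j hj) (h2 (h1 j hj))]
    exact hup j

theorem IsForest.regQuot_iff {G : AddSubgroup V} (hG : IsACD G) (hfo : IsForest G) {Z : Type*}
    [AddCommGroup Z] : RegQuot G Z ↔ Nonempty (factor G (critSum G) ≃+ Z) := by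
  constructor
  · rintro ⟨C, hC, h⟩
    rwa [hfo.eq_critSum hG hC] at h
  · intro h
    obtain ⟨C, hC⟩ := exists_regulating hG
    refine ⟨C, hC, ?_⟩
    rwa [hfo.eq_critSum hG hC]

theorem IsCut.quo_isACD {G H : AddSubgroup V} (hG : IsACD G) (hcut : IsCut G H) :
    IsACD (quo G H) := by
  obtain ⟨C, J, _, _, b, f, hC, R⟩ := exists_ref_reg hG
  obtain ⟨fb, hfb⟩ := exists_fbar R hcut
  exact (R.quot hcut hfb).isACD

end Pool.Agent.Lib.C8da183
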